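import Pool.Agent.W277.UG.B8
import Pool.Agent.W277.UF.E12

/-!
# The bound for finite stable sets
-/

namespace Pool.Agent.W277.UG

open Pool.Agent.W277.UB Pool.Agent.W277.UC Finset Polynomial

universe u

variable {k : Type*} {K : Type u} [Field k] [Field K] [Algebra k K]

/-- The number of points is controlled by the bad places. -/
theorem card_bad (Q : PlaceData k K) (f : K[X]) (hf0 : f ≠ 0) (P : Finset K) (S : Finset Q.Pl)
    (hSA : ∀ v, v ∉ S → Q.ord v f.leadingCoeff = 0)
    (hSP : ∀ v, v ∉ S → ∀ x ∈ P, ∀ y ∈ P, x ≠ y → Q.ord v (x - y) = 0) (B : Finset Q.Pl)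
    (hBS : B ⊆ S) (hB : ∀ v, v ∈ B ↔ Bad Q f P v) (n : ℕ)
    (hcol : ∀ v ∈ B, ∃ χ : K → Fin n, ∀ x ∈ P, ∀ y ∈ P, x ≠ y → χ x = χ y →
      VV Q f v < Q.ord v (x - y)) (hBne : B.Nonempty) : P.card ≤ n ^ B.card := by
  classical
  by_contra hcon
  push Not at hcon
  obtain ⟨v₀, hv₀⟩ := hBne
  obtain ⟨χ₀, _⟩ := hcol v₀ hv₀
  haveI : Nonempty (K → Fin n) := ⟨χ₀⟩
  choose! χ hχ using hcol
  obtain ⟨x, hx, y, hy, hxy, hc⟩ := Finset.exists_ne_map_eq_of_card_lt_of_maps_to
    (s := P) (t := (Finset.univ : Finset ({v // v ∈ B} → Fin n)))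
    (f := fun x => fun v : {v // v ∈ B} => χ v.1 x) (by
      rw [Finset.card_univ, Fintype.card_fun, Fintype.card_fin, Fintype.card_coe]
      exact hcon) (fun _ _ => Finset.mem_univ _)
  have hlt : ∀ v ∈ B, VV Q f v < Q.ord v (x - y) := fun v hv =>
    hχ v hv x hx y hy hxy (congrFun hc ⟨v, hv⟩)
  have hsum : ∑ v ∈ S, (Q.wt v : ℝ) * VV Q f v < ∑ v ∈ S, (Q.wt v : ℝ) * Q.ord v (x - y) := by
    apply Finset.sum_lt_sum
    · intro v hv
      apply mul_le_mul_of_nonneg_left _ (by exact_mod_cast Q.wt_nonneg v)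
      by_cases hvB : v ∈ B
      · exact (hlt v hvB).le
      · by_contra h
        push Not at h
        exact hvB ((hB v).mpr ⟨x, hx, y, hy, hxy, h⟩)
    · refine ⟨v₀, hBS hv₀, mul_lt_mul_of_pos_left (hlt v₀ hv₀) ?_⟩
      have := Q.wt_one v₀
      exact_mod_cast (by omega : 0 < Q.wt v₀)
  rw [sum_VV Q f hf0 S hSA, prod_zero' Q S (x - y) (sub_ne_zero.mpr hxy)
    (fun v hv => hSP v hv x hx y hy hxy)] at hsum
  exact lt_irrefl _ hsum

/-- Without bad places the map is conjugate to one with constant coefficients. -/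
theorem iso_of_no_bad (Q : PlaceData k K) (f : K[X]) (hf0 : f ≠ 0) (P : Finset K)
    (hst : ∀ x ∈ P, f.eval x ∈ P) (S : Finset Q.Pl)
    (hSA : ∀ v, v ∉ S → Q.ord v f.leadingCoeff = 0)
    (hSP : ∀ v, v ∉ S → ∀ x ∈ P, ∀ y ∈ P, x ≠ y → Q.ord v (x - y) = 0)
    (hno : ∀ v, ¬ Bad Q f P v) (hN : f.natDegree < P.card) (hN2 : 2 ≤ P.card) :
    ∃ y b : K, y ≠ 0 ∧ ∃ g : k[X], g.map (algebraMap k K) = aff y b f := by
  classical
  obtain ⟨x₀, hx₀, x₁, hx₁, hne⟩ := Finset.one_lt_card.mp (by omega : 1 < P.card)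
  have hge : ∀ v, ∀ x ∈ P, ∀ y ∈ P, x ≠ y → VV Q f v ≤ Q.ord v (x - y) := by
    intro v x hx y hy hxy
    by_contra h
    push Not at h
    exact hno v ⟨x, hx, y, hy, hxy, h⟩
  have heq : ∀ v, ∀ x ∈ P, ∀ y ∈ P, x ≠ y → (Q.ord v (x - y) : ℝ) = VV Q f v := by
    intro v x hx y hy hxy
    by_cases hv : v ∈ S
    · have h1 : ∑ v ∈ S, (Q.wt v : ℝ) * ((Q.ord v (x - y) : ℝ) - VV Q f v) = 0 := by
        simp only [mul_sub, Finset.sum_sub_distrib]
        rw [sum_VV Q f hf0 S hSA, prod_zero' Q S (x - y) (sub_ne_zero.mpr hxy)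
          (fun v hv => hSP v hv x hx y hy hxy), sub_zero]
      have h2 := (Finset.sum_eq_zero_iff_of_nonneg (fun v _ => mul_nonneg
        (by exact_mod_cast Q.wt_nonneg v : (0 : ℝ) ≤ Q.wt v)
        (by linarith [hge v x hx y hy hxy]))).mp h1 v hv
      rcases mul_eq_zero.mp h2 with h3 | h3
      · have := Q.wt_one v
        have h4 : Q.wt v = 0 := by exact_mod_cast h3
        omega
      · linarith
    · rw [hSP v hv x hx y hy hxy]
      unfold VV
      rw [hSA v hv]
      simp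
  set y := x₁ - x₀ with hy
  have hy0 : y ≠ 0 := sub_ne_zero.mpr (Ne.symm hne)
  have hconst : ∀ x ∈ P, ∃ c : k, algebraMap k K c = y⁻¹ * (x - x₀) := by
    intro x hx
    by_cases hxx : x = x₀
    · refine ⟨0, ?_⟩
      rw [hxx]
      simp
    · apply Q.const
      · exact mul_ne_zero (inv_ne_zero hy0) (sub_ne_zero.mpr hxx)
      · intro v
        rw [Q.ord_mul v _ _ (inv_ne_zero hy0) (sub_ne_zero.mpr hxx), PlaceData.ord_inv hy0]
        have h1 := heq v x hx x₀ hx₀ hxx
        have h2 := heq v x₁ hx₁ x₀ hx₀ (Ne.symm hne)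
        rw [← h1] at h2
        have h3 : Q.ord v (x₁ - x₀) = Q.ord v (x - x₀) := by exact_mod_cast h2
        rw [← hy] at h3
        omega
  refine ⟨y, x₀, hy0, ?_⟩
  have hinj : Function.Injective fun x : K => y⁻¹ * (x - x₀) := by
    intro a b hab
    have h1 := mul_left_cancel₀ (inv_ne_zero hy0) hab
    exact sub_left_injective h1
  have hdeg : (aff y x₀ f).natDegree ≤ f.natDegree := by
    unfold aff
    refine (natDegree_C_mul_le _ _).trans ?_
    rw [natDegree_sub_C]
    refine natDegree_comp_le.trans ?_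
    have : (C y * X + C x₀ : K[X]).natDegree ≤ 1 := by
      refine (natDegree_add_le _ _).trans (max_le ?_ (by simp))
      exact (natDegree_C_mul_le _ _).trans natDegree_X_le
    calc f.natDegree * (C y * X + C x₀ : K[X]).natDegree ≤ f.natDegree * 1 :=
          Nat.mul_le_mul_left _ this
      _ = f.natDegree := mul_one _
  apply const_poly hdeg (P := P.image fun x => y⁻¹ * (x - x₀))
  · intro z hz
    obtain ⟨x, hx, rfl⟩ := Finset.mem_image.mp hz
    exact hconst x hx
  · intro z hz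
    obtain ⟨x, hx, rfl⟩ := Finset.mem_image.mp hz
    obtain ⟨c, hc⟩ := hconst _ (hst x hx)
    refine ⟨c, ?_⟩
    rw [hc]
    unfold aff
    have h1 : y * (y⁻¹ * (x - x₀)) + x₀ = x := by
      rw [mul_inv_cancel_left₀ hy0]
      ring
    simp only [eval_mul, eval_C, eval_sub, eval_comp, eval_add, eval_X, h1]
  · rw [Finset.card_image_of_injective _ hinj]
    exact hN

/-- **Uniform boundedness for stable sets.** -/
theorem card_stable [CharZero k] (Q : PlaceData k K) (f : K[X]) (hd : 2 ≤ f.natDegree)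
    (P : Finset K) (hst : ∀ x ∈ P, f.eval x ∈ P)
    (hiso : ¬ ∃ y b : K, y ≠ 0 ∧ ∃ g : k[X], g.map (algebraMap k K) = aff y b f) :
    P.card ≤ max (f.natDegree ^ 96) (f.natDegree ^ (24 * Q.lossT.toNat * f.natDegree ^ 2)) := by
  classical
  by_cases hN : f.natDegree ^ 96 ≤ P.card
  swap
  · push Not at hN
    exact hN.le.trans (le_max_left _ _)
  apply le_max_of_le_right
  have hf0 : f ≠ 0 := by
    rintro rfl
    rw [natDegree_zero] at hd
    omega
  have hdR : (2 : ℝ) ≤ f.natDegree := by exact_mod_cast hd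
  have hd1 : (0 : ℝ) < (f.natDegree : ℝ) - 1 := by linarith
  have hdN : f.natDegree < P.card := by
    refine lt_of_lt_of_le ?_ hN
    calc f.natDegree = f.natDegree ^ 1 := (pow_one _).symm
      _ < f.natDegree ^ 96 := Nat.pow_lt_pow_right (by omega) (by norm_num)
  obtain ⟨S, t, hSA, hSP, ht0, htb, hsum⟩ := global Q f hd P hst hN
  set B := S.filter fun v => Bad Q f P v with hB
  have hBmem : ∀ v, v ∈ B ↔ Bad Q f P v := by
    intro v
    rw [hB, Finset.mem_filter]
    exact ⟨fun h => h.2, fun h => ⟨(htb v h).1, h⟩⟩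
  have hBne : B.Nonempty := by
    rw [Finset.nonempty_iff_ne_empty]
    intro h0
    apply hiso
    apply iso_of_no_bad Q f hf0 P hst S hSA hSP _ hdN (by omega)
    intro v hv
    have := (hBmem v).mpr hv
    rw [h0] at this
    exact absurd this (Finset.notMem_empty v)
  have h1 := card_bad Q f hf0 P S hSA hSP B (Finset.filter_subset _ _) hBmem (f.natDegree ^ 2)
    (fun v hv => (htb v ((hBmem v).mp hv)).2.2) hBne
  have htnn : ∀ v, 0 ≤ t v := by
    intro v
    by_cases hv : Bad Q f P v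
    · exact le_trans (by positivity) (htb v hv).2.1
    · rw [ht0 v hv]
  have h2 : (B.card : ℝ) / ((f.natDegree : ℝ) - 1) ≤ ∑ v ∈ S, (Q.wt v : ℝ) * t v := by
    have h3 : ∑ v ∈ B, (Q.wt v : ℝ) * t v ≤ ∑ v ∈ S, (Q.wt v : ℝ) * t v :=
      Finset.sum_le_sum_of_subset_of_nonneg (Finset.filter_subset _ _) fun v _ _ =>
        mul_nonneg (by exact_mod_cast Q.wt_nonneg v) (htnn v)
    refine le_trans ?_ h3
    rw [div_eq_mul_one_div, ← nsmul_eq_mul, ← Finset.sum_const]
    apply Finset.sum_le_sum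
    intro v hv
    have h4 := (htb v ((hBmem v).mp hv)).2.1
    have h5 : (1 : ℝ) ≤ Q.wt v := by exact_mod_cast Q.wt_one v
    have h6 := htnn v
    nlinarith
  have h3 : (B.card : ℝ) ≤ 12 * (Q.lossT.toNat : ℝ) * (f.natDegree : ℝ) ^ 2 := by
    have h4 := h2.trans hsum
    rw [div_le_iff₀ hd1] at h4
    have h5 : (Q.lossT : ℝ) ≤ (Q.lossT.toNat : ℝ) := by exact_mod_cast Int.self_le_toNat _
    have h6 : (0 : ℝ) ≤ (Q.lossT.toNat : ℝ) := Nat.cast_nonneg _
    calc (B.card : ℝ) ≤ 12 * (f.natDegree : ℝ) * Q.lossT * ((f.natDegree : ℝ) - 1) := h4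
      _ ≤ 12 * (f.natDegree : ℝ) * Q.lossT.toNat * ((f.natDegree : ℝ) - 1) := by
          apply mul_le_mul_of_nonneg_right _ hd1.le
          apply mul_le_mul_of_nonneg_left h5
          positivity
      _ ≤ 12 * (f.natDegree : ℝ) * Q.lossT.toNat * (f.natDegree : ℝ) := by
          apply mul_le_mul_of_nonneg_left (by linarith)
          positivity
      _ = 12 * (Q.lossT.toNat : ℝ) * (f.natDegree : ℝ) ^ 2 := by ring
  have h4 : B.card ≤ 12 * Q.lossT.toNat * f.natDegree ^ 2 := by exact_mod_cast h3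
  calc P.card ≤ (f.natDegree ^ 2) ^ B.card := h1
    _ = f.natDegree ^ (2 * B.card) := by rw [pow_mul]
    _ ≤ f.natDegree ^ (24 * Q.lossT.toNat * f.natDegree ^ 2) := by
        apply Nat.pow_le_pow_right (by omega)
        calc 2 * B.card ≤ 2 * (12 * Q.lossT.toNat * f.natDegree ^ 2) := by omega
          _ = 24 * Q.lossT.toNat * f.natDegree ^ 2 := by ring

/-- Uniform boundedness of preperiodic points. -/
theorem prePer_U [CharZero k] (Q : PlaceData k K) (f : K[X]) (hd : 2 ≤ f.natDegree)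
    (hiso : ¬ ∃ y b : K, y ≠ 0 ∧ ∃ g : k[X], g.map (algebraMap k K) = aff y b f) :
    (PrePer f).encard ≤ ((max (f.natDegree ^ 96)
      (f.natDegree ^ (24 * Q.lossT.toNat * f.natDegree ^ 2)) : ℕ) : ℕ∞) := by
  classical
  set Bd := max (f.natDegree ^ 96) (f.natDegree ^ (24 * Q.lossT.toNat * f.natDegree ^ 2)) with hB
  by_contra hcon
  push Not at hcon
  obtain ⟨T, hTs, hT⟩ := Set.exists_subset_encard_eq (Order.add_one_le_of_lt hcon)
  have hTf : T.Finite := by
    apply Set.finite_of_encard_eq_coe (k := Bd + 1)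
    rw [hT]
    norm_cast
  lift T to Finset K using hTf
  obtain ⟨P, hTP, hP⟩ := exists_stab f T fun z hz => hTs (by simpa using hz)
  have h1 := card_stable Q f hd P hP hiso
  have h2 := Finset.card_le_card hTP
  rw [Set.encard_coe_eq_coe_finsetCard] at hT
  have h3 : T.card = Bd + 1 := by exact_mod_cast hT
  omega

universe u1 u2

/-- **Uniform boundedness for all polynomials over function fields of characteristic zero.** -/
theorem ubp_all (k : Type u1) (K : Type u2) [Field k] [CharZero k] [Field K] [Algebra k K]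
    (hFG : (⊤ : IntermediateField k K).FG)
    (hx : ∃ x : K, Transcendental k x ∧ Algebra.IsAlgebraic (IntermediateField.adjoin k {x}) K) :
    ∃ c : ℕ, ((∃ t : K, IntermediateField.adjoin k {t} = ⊤) → c = 0) ∧
      ∀ f : K[X], 2 ≤ f.natDegree →
      (¬ ∃ y b : K, y ≠ 0 ∧ ∀ n, IsAlgebraic k ((aff y b f).coeff n)) →
      (PrePer f).encard ≤
        ((max (f.natDegree ^ 96) (f.natDegree ^ (c * f.natDegree ^ 2)) : ℕ) : ℕ∞) := by
  by_cases hrat : ∃ t : K, IntermediateField.adjoin k {t} = ⊤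
  · obtain ⟨t, htop⟩ := hrat
    have ht : Transcendental k t := by
      intro hta
      obtain ⟨x, hx1, -⟩ := hx
      apply hx1
      have h1 : x ∈ IntermediateField.adjoin k {t} := by
        rw [htop]
        exact IntermediateField.mem_top
      have h2 : Algebra.IsAlgebraic k (IntermediateField.adjoin k {t}) :=
        IntermediateField.isAlgebraic_adjoin_simple hta.isIntegral
      exact (IntermediateField.isAlgebraic_iff.mp (h2.isAlgebraic ⟨x, h1⟩))
    obtain ⟨Q, hQ⟩ := Pool.Agent.W277.UF.exists_pl_rational k K t ht htop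
    refine ⟨0, fun _ => rfl, fun f hd hiso => ?_⟩
    have h1 := prePer_U Q f hd (by
      rintro ⟨y, b, hy, g, hg⟩
      refine hiso ⟨y, b, hy, fun n => ?_⟩
      rw [← hg, coeff_map]
      exact isAlgebraic_algebraMap _)
    rw [hQ] at h1
    simpa using h1
  · obtain ⟨Q⟩ := exists_placeData_ff k K hFG hx
    have : CharZero (algebraicClosure k K) := charZero_of_injective_algebraMap
      (algebraMap k (algebraicClosure k K)).injective
    refine ⟨24 * Q.lossT.toNat, fun h1 => absurd h1 hrat, fun f hd hiso => ?_⟩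
    exact prePer_U Q f hd (by
      rintro ⟨y, b, hy, g, hg⟩
      refine hiso ⟨y, b, hy, fun n => ?_⟩
      rw [← hg, coeff_map]
      exact mem_algebraicClosure_iff.mp (g.coeff n).2)

end Pool.Agent.W277.UG
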