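import Pool.Agent.W277.UG.B6

/-!
# Lower bounds for the order of the determinant at the three kinds of places
-/

namespace Pool.Agent.W277.UG

open Pool.Agent.W277.UB Finset

variable {k K : Type*} [Field k] [Field K] [Algebra k K] {Q : PlaceData k K} {v : Q.Pl}

/-- the total excess of a configuration -/
noncomputable def Wz (Q : PlaceData k K) (v : Q.Pl) (V : ℝ) {n : ℕ} (z : Fin n → K) : ℝ :=
  ∑ i, ∑ j, if i = j then 0 else ((Q.ord v (z i - z j) : ℝ) - V)

lemma oz_sum {n : ℕ} (V : ℝ) (z : Fin n → K) :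
    ((∑ i, ∑ j, oz Q v z i j : ℤ) : ℝ) = Wz Q v V z + (n : ℝ) * ((n : ℝ) - 1) * V := by
  unfold Wz oz
  push_cast
  have h1 : ∀ i j : Fin n, (if i = j then (0 : ℝ) else (Q.ord v (z i - z j) : ℝ)) =
      (if i = j then 0 else ((Q.ord v (z i - z j) : ℝ) - V)) + (V - if i = j then V else 0) := by
    intro i j
    split_ifs <;> simp
  simp_rw [h1]
  simp only [Finset.sum_add_distrib, Finset.sum_sub_distrib, Finset.sum_const,
    Finset.sum_ite_eq, Finset.mem_univ, if_true, Finset.card_univ, Fintype.card_fin, nsmul_eq_mul]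
  ring

lemma exists_h0 (m : ℕ) (hm : 0 < m) (z : Fin (2 * m) → K) :
    ∃ h₀ : ℤ, (∀ i j, i ≠ j → h₀ ≤ Q.ord v (z i - z j)) ∧
      ∃ i j, i ≠ j ∧ Q.ord v (z i - z j) = h₀ := by
  classical
  have hne : (Finset.univ : Finset (Fin (2 * m))).offDiag.Nonempty := by
    refine ⟨(⟨0, by omega⟩, ⟨1, by omega⟩), ?_⟩
    rw [Finset.mem_offDiag]
    refine ⟨Finset.mem_univ _, Finset.mem_univ _, ?_⟩
    intro h
    have := congrArg Fin.val h
    simp at this
  obtain ⟨⟨i₀, j₀⟩, hmem, hmin⟩ := Finset.exists_min_image _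
    (fun q : Fin (2 * m) × Fin (2 * m) => Q.ord v (z q.1 - z q.2)) hne
  rw [Finset.mem_offDiag] at hmem
  exact ⟨Q.ord v (z i₀ - z j₀), fun i j hij => hmin (i, j)
    (Finset.mem_offDiag.mpr ⟨Finset.mem_univ _, Finset.mem_univ _, hij⟩), i₀, j₀, hmem.2.2, rfl⟩

/-- at a good place -/
lemma place_good (m : ℕ) (hm : 0 < m) (z : Fin (2 * m) → K) (hz : Function.Injective z)
    (b : Fin (2 * m)) (V : ℝ) (hV : ∀ i j, i ≠ j → V ≤ Q.ord v (z i - z j))
    (hdet : cdet Q m z b ≠ 0) :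
    Wz Q v V z + 4 * (m : ℝ) ^ 2 * V - 4 * ((m : ℝ) - 1) * Q.loss v
      - 2 * ((m : ℝ) - 1) * Wz Q v V z ≤ 4 * (Q.ord v (cdet Q m z b) : ℝ) := by
  classical
  obtain ⟨h₀, hlow, i₁, j₁, hij₁, ho₁⟩ := exists_h0 (Q := Q) (v := v) m hm z
  have hm1 : (0 : ℝ) ≤ (m : ℝ) - 1 := by
    have : (1 : ℝ) ≤ m := by exact_mod_cast hm
    linarith
  have hVh : V ≤ h₀ := by
    rw [← ho₁]
    exact hV _ _ hij₁
  have hterm : ∀ i j, (0 : ℝ) ≤ if i = j then 0 else ((Q.ord v (z i - z j) : ℝ) - V) := by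
    intro i j
    split_ifs with h
    · exact le_rfl
    · have := hV i j h
      linarith
  have hW0 : 0 ≤ Wz Q v V z := Finset.sum_nonneg fun i _ => Finset.sum_nonneg fun j _ => hterm i j
  obtain ⟨ne, hne, hneW⟩ : ∃ ne : ℤ, ((ne = 0 ∧ ∀ i j, i ≠ j → Q.ord v (z i - z j) = h₀) ∨
      ne = 1) ∧ 2 * (ne : ℝ) ≤ Wz Q v V z := by
    by_cases hall : ∀ i j, i ≠ j → Q.ord v (z i - z j) = h₀
    · exact ⟨0, Or.inl ⟨rfl, hall⟩, by simpa using hW0⟩
    · refine ⟨1, Or.inr rfl, ?_⟩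
      push Not at hall
      obtain ⟨i, j, hij, hne⟩ := hall
      have h1 : h₀ + 1 ≤ Q.ord v (z i - z j) := by
        have := hlow i j hij
        omega
      have h2 : (1 : ℝ) ≤ (Q.ord v (z i - z j) : ℝ) - V := by
        have : ((h₀ : ℝ) + 1) ≤ Q.ord v (z i - z j) := by exact_mod_cast h1
        linarith
      have hsymm : Q.ord v (z j - z i) = Q.ord v (z i - z j) := by
        have h3 : z j - z i = -(z i - z j) := by ring
        rw [h3, PlaceData.ord_neg (sub_ne_zero.mpr fun h => hij (hz h))]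
      have h3 : ∀ i', ((if i' = i then (1 : ℝ) else 0) + (if i' = j then (1 : ℝ) else 0)) ≤
          ∑ j', if i' = j' then 0 else ((Q.ord v (z i' - z j') : ℝ) - V) := by
        intro i'
        by_cases hi' : i' = i
        · subst hi'
          rw [if_pos rfl, if_neg hij, add_zero]
          calc (1 : ℝ) ≤ if i' = j then 0 else ((Q.ord v (z i' - z j) : ℝ) - V) := by
                rw [if_neg hij]
                exact h2
            _ ≤ _ := Finset.single_le_sum (f := fun j' =>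
                if i' = j' then (0 : ℝ) else ((Q.ord v (z i' - z j') : ℝ) - V))
                (fun j' _ => hterm i' j') (Finset.mem_univ j)
        · by_cases hj' : i' = j
          · subst hj'
            rw [if_neg hi', if_pos rfl, zero_add]
            calc (1 : ℝ) ≤ if i' = i then 0 else ((Q.ord v (z i' - z i) : ℝ) - V) := by
                  rw [if_neg hi', hsymm]
                  exact h2
              _ ≤ _ := Finset.single_le_sum (f := fun j' =>
                  if i' = j' then (0 : ℝ) else ((Q.ord v (z i' - z j') : ℝ) - V))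
                  (fun j' _ => hterm i' j') (Finset.mem_univ i)
          · rw [if_neg hi', if_neg hj', add_zero]
            exact Finset.sum_nonneg fun j' _ => hterm i' j'
      have h4 : ∑ i', ((if i' = i then (1 : ℝ) else 0) + (if i' = j then (1 : ℝ) else 0)) ≤
          Wz Q v V z := Finset.sum_le_sum fun i' _ => h3 i'
      rw [Finset.sum_add_distrib, Finset.sum_ite_eq', Finset.sum_ite_eq',
        if_pos (Finset.mem_univ _), if_pos (Finset.mem_univ _)] at h4
      push_cast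
      linarith
  have hmain := cdet_ord (Q := Q) (v := v) m hm z hz b h₀ hlow ⟨i₁, j₁, hij₁, ho₁⟩ ne hne hdet
  have hmain' : ((∑ i, ∑ j, oz Q v z i j : ℤ) : ℝ) + 2 * m * h₀ +
      ((∑ i, (((Finset.univ.filter fun j => j < i).sup
        (fun j => (Q.ord v (z i - z j) - h₀).toNat) : ℕ) : ℤ) : ℤ) : ℝ)
      - 4 * (Q.loss v + ne) * (m - 1) ≤ 4 * (Q.ord v (cdet Q m z b) : ℝ) := by
    exact_mod_cast hmain
  have hMM : (0 : ℝ) ≤ ((∑ i, (((Finset.univ.filter fun j => j < i).sup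
        (fun j => (Q.ord v (z i - z j) - h₀).toNat) : ℕ) : ℤ) : ℤ) : ℝ) := by
    have : (0 : ℤ) ≤ (∑ i, (((Finset.univ.filter fun j => j < i).sup
        (fun j => (Q.ord v (z i - z j) - h₀).toNat) : ℕ) : ℤ) : ℤ) :=
      Finset.sum_nonneg fun i _ => Int.natCast_nonneg _
    exact_mod_cast this
  rw [oz_sum V z] at hmain'
  push_cast at hmain' hMM
  have h5 : (2 * (m : ℝ)) * V ≤ 2 * m * h₀ := mul_le_mul_of_nonneg_left hVh (by positivity)
  have h6 : 4 * (ne : ℝ) * ((m : ℝ) - 1) ≤ 2 * ((m : ℝ) - 1) * Wz Q v V z := by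
    have := mul_le_mul_of_nonneg_left hneW (show (0 : ℝ) ≤ 2 * ((m : ℝ) - 1) by linarith)
    linarith
  nlinarith

/-- at any bad place -/
lemma place_any (m : ℕ) (hm : 0 < m) (z : Fin (2 * m) → K) (hz : Function.Injective z)
    (b : Fin (2 * m)) (V t : ℝ) (hV : ∀ i j, i ≠ j → V - t ≤ Q.ord v (z i - z j))
    (hdet : cdet Q m z b ≠ 0) :
    Wz Q v V z + 4 * (m : ℝ) ^ 2 * V - 4 * ((m : ℝ) - 1) * Q.loss v
      - 2 * (m : ℝ) * t - 4 * (m : ℝ) ≤ 4 * (Q.ord v (cdet Q m z b) : ℝ) := by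
  classical
  obtain ⟨h₀, hlow, i₁, j₁, hij₁, ho₁⟩ := exists_h0 (Q := Q) (v := v) m hm z
  have hVh : V - t ≤ h₀ := by
    rw [← ho₁]
    exact hV _ _ hij₁
  have hmain := cdet_ord (Q := Q) (v := v) m hm z hz b h₀ hlow ⟨i₁, j₁, hij₁, ho₁⟩ 1
    (Or.inr rfl) hdet
  have hmain' : ((∑ i, ∑ j, oz Q v z i j : ℤ) : ℝ) + 2 * m * h₀ +
      ((∑ i, (((Finset.univ.filter fun j => j < i).sup
        (fun j => (Q.ord v (z i - z j) - h₀).toNat) : ℕ) : ℤ) : ℤ) : ℝ)
      - 4 * (Q.loss v + 1) * (m - 1) ≤ 4 * (Q.ord v (cdet Q m z b) : ℝ) := by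
    exact_mod_cast hmain
  have hMM : (0 : ℝ) ≤ ((∑ i, (((Finset.univ.filter fun j => j < i).sup
        (fun j => (Q.ord v (z i - z j) - h₀).toNat) : ℕ) : ℤ) : ℤ) : ℝ) := by
    have : (0 : ℤ) ≤ (∑ i, (((Finset.univ.filter fun j => j < i).sup
        (fun j => (Q.ord v (z i - z j) - h₀).toNat) : ℕ) : ℤ) : ℤ) :=
      Finset.sum_nonneg fun i _ => Int.natCast_nonneg _
    exact_mod_cast this
  rw [oz_sum V z] at hmain'
  push_cast at hmain' hMM
  have h5 : (2 * (m : ℝ)) * (V - t) ≤ 2 * m * h₀ := mul_le_mul_of_nonneg_left hVh (by positivity)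
  nlinarith

/-- at a bad place with a colouring -/
lemma place_reg (m : ℕ) (hm : 0 < m) (z : Fin (2 * m) → K) (hz : Function.Injective z)
    (b : Fin (2 * m)) (V t lam : ℝ) (ht : 0 ≤ t) (hlam : 0 ≤ lam) (q : ℕ) (hq : q ≤ 2 * m)
    (hV : ∀ i j, i ≠ j → V - t ≤ Q.ord v (z i - z j)) (χ : Fin (2 * m) → Fin q)
    (hχ : ∀ i j, i ≠ j → χ i = χ j → V + lam ≤ Q.ord v (z i - z j))
    (hdet : cdet Q m z b ≠ 0) :
    Wz Q v V z + 4 * (m : ℝ) ^ 2 * V - 4 * ((m : ℝ) - 1) * Q.loss v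
      - q * t + (2 * m - q) * lam - 4 * (m : ℝ) ≤ 4 * (Q.ord v (cdet Q m z b) : ℝ) := by
  classical
  obtain ⟨h₀, hlow, i₁, j₁, hij₁, ho₁⟩ := exists_h0 (Q := Q) (v := v) m hm z
  have hVh : V - t ≤ h₀ := by
    rw [← ho₁]
    exact hV _ _ hij₁
  have hmain := cdet_ord (Q := Q) (v := v) m hm z hz b h₀ hlow ⟨i₁, j₁, hij₁, ho₁⟩ 1
    (Or.inr rfl) hdet
  have hmain' : ((∑ i, ∑ j, oz Q v z i j : ℤ) : ℝ) + 2 * m * h₀ +
      ((∑ i, (((Finset.univ.filter fun j => j < i).sup
        (fun j => (Q.ord v (z i - z j) - h₀).toNat) : ℕ) : ℤ) : ℤ) : ℝ)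
      - 4 * (Q.loss v + 1) * (m - 1) ≤ 4 * (Q.ord v (cdet Q m z b) : ℝ) := by
    exact_mod_cast hmain
  -- the indices with an earlier index of the same colour
  set Gd : Finset (Fin (2 * m)) := Finset.univ.filter fun i => ∃ j, j < i ∧ χ j = χ i with hGd
  have hcompl : (Finset.univ \ Gd).card ≤ q := by
    have h1 : (Finset.univ \ Gd).card ≤ (Finset.univ : Finset (Fin q)).card := by
      apply Finset.card_le_card_of_injOn χ
      · intro i _
        exact Finset.mem_univ _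
      · intro i hi j hj hij
        have hi' : i ∉ Gd := (Finset.mem_sdiff.mp (Finset.mem_coe.mp hi)).2
        have hj' : j ∉ Gd := (Finset.mem_sdiff.mp (Finset.mem_coe.mp hj)).2
        rcases lt_trichotomy i j with h | h | h
        · exfalso
          exact hj' (Finset.mem_filter.mpr ⟨Finset.mem_univ _, i, h, hij⟩)
        · exact h
        · exfalso
          exact hi' (Finset.mem_filter.mpr ⟨Finset.mem_univ _, j, h, hij.symm⟩)
    rwa [Finset.card_univ, Fintype.card_fin] at h1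
  have hcards : (Finset.univ \ Gd).card + Gd.card = 2 * m := by
    rw [Finset.card_sdiff_of_subset (Finset.subset_univ _), Finset.card_univ, Fintype.card_fin]
    have := Finset.card_le_card (Finset.subset_univ Gd)
    rw [Finset.card_univ, Fintype.card_fin] at this
    omega
  have hMM : (Gd.card : ℝ) * (V + lam - h₀) ≤ ((∑ i, (((Finset.univ.filter fun j => j < i).sup
        (fun j => (Q.ord v (z i - z j) - h₀).toNat) : ℕ) : ℤ) : ℤ) : ℝ) := by
    push_cast
    have h1 : ∑ i ∈ Gd, (((Finset.univ.filter fun j => j < i).sup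
        (fun j => (Q.ord v (z i - z j) - h₀).toNat) : ℕ) : ℝ) ≤
        ∑ i, (((Finset.univ.filter fun j => j < i).sup
        (fun j => (Q.ord v (z i - z j) - h₀).toNat) : ℕ) : ℝ) :=
      Finset.sum_le_sum_of_subset_of_nonneg (Finset.subset_univ _)
        fun i _ _ => Nat.cast_nonneg _
    refine le_trans ?_ h1
    rw [← nsmul_eq_mul, ← Finset.sum_const]
    apply Finset.sum_le_sum
    intro i hi
    obtain ⟨j, hji, hc⟩ := (Finset.mem_filter.mp hi).2
    have h2 : (Q.ord v (z i - z j) - h₀).toNat ≤ (Finset.univ.filter fun j => j < i).sup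
        (fun j => (Q.ord v (z i - z j) - h₀).toNat) :=
      Finset.le_sup (f := fun j => (Q.ord v (z i - z j) - h₀).toNat)
        (Finset.mem_filter.mpr ⟨Finset.mem_univ _, hji⟩)
    have h3 : ((Q.ord v (z i - z j) - h₀ : ℤ) : ℝ) ≤ ((Q.ord v (z i - z j) - h₀).toNat : ℝ) := by
      exact_mod_cast Int.self_le_toNat _
    have h4 : ((Q.ord v (z i - z j) - h₀).toNat : ℝ) ≤ (((Finset.univ.filter fun j => j < i).sup
        (fun j => (Q.ord v (z i - z j) - h₀).toNat) : ℕ) : ℝ) := by exact_mod_cast h2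
    have h5 := hχ i j (ne_of_gt hji) hc.symm
    push_cast at h3
    linarith
  rw [oz_sum V z] at hmain'
  have hGq : (2 * (m : ℝ) - Gd.card) ≤ q := by
    have : 2 * m ≤ q + Gd.card := by omega
    have h' : (2 * (m : ℝ)) ≤ q + Gd.card := by exact_mod_cast this
    linarith
  have hGle : (Gd.card : ℝ) ≤ 2 * m := by
    have : Gd.card ≤ 2 * m := by omega
    exact_mod_cast this
  have h6 : (2 * (m : ℝ) - Gd.card) * (V - t) ≤ (2 * (m : ℝ) - Gd.card) * h₀ :=
    mul_le_mul_of_nonneg_left hVh (by linarith)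
  have h7 : (2 * (m : ℝ) - Gd.card) * t ≤ q * t := mul_le_mul_of_nonneg_right hGq ht
  have h8 : (2 * (m : ℝ) - q) * lam ≤ Gd.card * lam :=
    mul_le_mul_of_nonneg_right (by linarith) hlam
  have h9 : 2 * (m : ℝ) * V - q * t + (2 * m - q) * lam ≤ 2 * m * h₀ +
      ((∑ i, (((Finset.univ.filter fun j => j < i).sup
        (fun j => (Q.ord v (z i - z j) - h₀).toNat) : ℕ) : ℤ) : ℤ) : ℝ) := by
    nlinarith
  push_cast at hmain' h9
  nlinarith

end Pool.Agent.W277.UG
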