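import Pool.Agent.W277.UG.A8
import Pool.Agent.W277.UG.B7

/-!
# The global inequality
-/

namespace Pool.Agent.W277.UG

open Pool.Agent.W277.UB Finset Polynomial

universe u

variable {k : Type*} {K : Type u} [Field k] [Field K] [Algebra k K]

/-- the normalisation -/
noncomputable def VV (Q : PlaceData k K) (f : K[X]) (v : Q.Pl) : ℝ :=
  -(Q.ord v f.leadingCoeff) / ((f.natDegree : ℝ) - 1)

/-- bad places -/
def Bad (Q : PlaceData k K) (f : K[X]) (P : Finset K) (v : Q.Pl) : Prop :=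
  ∃ x ∈ P, ∃ y ∈ P, x ≠ y ∧ (Q.ord v (x - y) : ℝ) < VV Q f v

/-- a finite set of places containing everything relevant -/
lemma exists_S (Q : PlaceData k K) (f : K[X]) (hf : f ≠ 0) (P : Finset K) :
    ∃ S : Finset Q.Pl, Q.lossS ⊆ S ∧ (∀ v, v ∉ S → Q.ord v f.leadingCoeff = 0) ∧
      (∀ v, v ∉ S → Q.loss v = 0) ∧
      ∀ v, v ∉ S → ∀ x ∈ P, ∀ y ∈ P, x ≠ y → Q.ord v (x - y) = 0 := by
  classical
  have hA : f.leadingCoeff ≠ 0 := leadingCoeff_ne_zero.mpr hf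
  refine ⟨Q.lossS ∪ (Q.fin _ hA).toFinset ∪ P.offDiag.biUnion (fun q =>
    if h : q.1 - q.2 ≠ 0 then (Q.fin _ h).toFinset else ∅), ?_, ?_, ?_, ?_⟩
  · exact Finset.subset_union_left.trans Finset.subset_union_left
  · intro v hv
    simp only [Finset.mem_union, not_or, Set.Finite.mem_toFinset, Set.mem_ofPred_eq, not_not] at hv
    exact hv.1.2
  · intro v hv
    simp only [Finset.mem_union, not_or] at hv
    exact Q.loss_supp v hv.1.1
  · intro v hv x hx y hy hxy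
    simp only [Finset.mem_union, not_or, Finset.mem_biUnion, not_exists, not_and] at hv
    have h1 := hv.2 (x, y) (Finset.mem_offDiag.mpr ⟨hx, hy, hxy⟩)
    rw [dif_pos (sub_ne_zero.mpr hxy), Set.Finite.mem_toFinset, Set.mem_ofPred_eq, not_not] at h1
    exact h1

lemma prod_zero' (Q : PlaceData k K) (S : Finset Q.Pl) (x : K) (hx : x ≠ 0)
    (hS : ∀ v, v ∉ S → Q.ord v x = 0) : ∑ v ∈ S, (Q.wt v : ℝ) * Q.ord v x = 0 := by
  have := prod_zero Q S x hx hS
  exact_mod_cast this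

lemma sum_VV (Q : PlaceData k K) (f : K[X]) (hf : f ≠ 0) (S : Finset Q.Pl)
    (hS : ∀ v, v ∉ S → Q.ord v f.leadingCoeff = 0) : ∑ v ∈ S, (Q.wt v : ℝ) * VV Q f v = 0 := by
  have h1 := prod_zero' Q S _ (leadingCoeff_ne_zero.mpr hf) hS
  unfold VV
  have h2 : ∀ v ∈ S, (Q.wt v : ℝ) * (-(Q.ord v f.leadingCoeff : ℝ) / ((f.natDegree : ℝ) - 1)) =
      ((Q.wt v : ℝ) * Q.ord v f.leadingCoeff) * (-1 / ((f.natDegree : ℝ) - 1)) := by
    intro v _
    ring
  rw [Finset.sum_congr rfl h2, ← Finset.sum_mul, h1, zero_mul]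

lemma sum_exc (Q : PlaceData k K) (f : K[X]) (hf : f ≠ 0) (P : Finset K) (S : Finset Q.Pl)
    (hS : ∀ v, v ∉ S → Q.ord v f.leadingCoeff = 0)
    (hS' : ∀ v, v ∉ S → ∀ x ∈ P, ∀ y ∈ P, x ≠ y → Q.ord v (x - y) = 0) :
    ∑ v ∈ S, (Q.wt v : ℝ) * exc Q v (VV Q f v) P = 0 := by
  classical
  unfold exc
  simp only [Finset.mul_sum]
  rw [Finset.sum_comm]
  apply Finset.sum_eq_zero
  intro x hx
  rw [Finset.sum_comm]
  apply Finset.sum_eq_zero
  intro y hy
  by_cases hxy : x = y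
  · apply Finset.sum_eq_zero
    intro v _
    rw [if_pos hxy, mul_zero]
  · have h1 := prod_zero' Q S (x - y) (sub_ne_zero.mpr hxy) fun v hv => hS' v hv x hx y hy hxy
    have h2 := sum_VV Q f hf S hS
    simp only [if_neg hxy, mul_sub, Finset.sum_sub_distrib]
    rw [h1, h2, sub_zero]

lemma sum_Wz (Q : PlaceData k K) (f : K[X]) (hf : f ≠ 0) (P : Finset K) (S : Finset Q.Pl)
    (hS : ∀ v, v ∉ S → Q.ord v f.leadingCoeff = 0)
    (hS' : ∀ v, v ∉ S → ∀ x ∈ P, ∀ y ∈ P, x ≠ y → Q.ord v (x - y) = 0) {n : ℕ}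
    (z : Fin n → K) (hz : Function.Injective z) (hzP : ∀ i, z i ∈ P) :
    ∑ v ∈ S, (Q.wt v : ℝ) * Wz Q v (VV Q f v) z = 0 := by
  classical
  unfold Wz
  simp only [Finset.mul_sum]
  rw [Finset.sum_comm]
  apply Finset.sum_eq_zero
  intro i _
  rw [Finset.sum_comm]
  apply Finset.sum_eq_zero
  intro j _
  by_cases hij : i = j
  · apply Finset.sum_eq_zero
    intro v _
    rw [if_pos hij, mul_zero]
  · have hne : z i ≠ z j := fun h => hij (hz h)
    have h1 := prod_zero' Q S (z i - z j) (sub_ne_zero.mpr hne)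
      fun v hv => hS' v hv _ (hzP i) _ (hzP j) hne
    have h2 := sum_VV Q f hf S hS
    simp only [if_neg hij, mul_sub, Finset.sum_sub_distrib]
    rw [h1, h2, sub_zero]

/-- the final arithmetic -/
lemma arith (d : ℝ) (hd : 2 ≤ d) (Hr Hi Lam X : ℝ) (hHr : 0 ≤ Hr) (hHi : 0 ≤ Hi)
    (h1 : Hi ≤ 4 * Hr / d ^ 34) (hX : X ≤ 46080000 / d ^ 26 * Hr)
    (h2 : 15 / 4 * d ^ 4 * Hr - 2 * (10 * d ^ 5) * (2 * d - 1) * Hi - X ≤ 4 * (10 * d ^ 5) * Lam) :
    Hr + Hi ≤ 12 * d * Lam := by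
  have hd0 : 0 < d := by linarith
  have e28 : (268435456 : ℝ) ≤ d ^ 28 := by
    calc (268435456 : ℝ) = 2 ^ 28 := by norm_num
      _ ≤ d ^ 28 := pow_le_pow_left₀ (by norm_num) hd 28
  have e26 : (67108864 : ℝ) ≤ d ^ 26 := by
    calc (67108864 : ℝ) = 2 ^ 26 := by norm_num
      _ ≤ d ^ 26 := pow_le_pow_left₀ (by norm_num) hd 26
  have e34 : (17179869184 : ℝ) ≤ d ^ 34 := by
    calc (17179869184 : ℝ) = 2 ^ 34 := by norm_num
      _ ≤ d ^ 34 := pow_le_pow_left₀ (by norm_num) hd 34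
  have e4 : (16 : ℝ) ≤ d ^ 4 := by
    calc (16 : ℝ) = 2 ^ 4 := by norm_num
      _ ≤ d ^ 4 := pow_le_pow_left₀ (by norm_num) hd 4
  have hX' : X ≤ Hr := by
    refine hX.trans ?_
    have : 46080000 / d ^ 26 ≤ 1 := by
      rw [div_le_one (by positivity)]
      linarith
    nlinarith
  have hHi' : 2 * (10 * d ^ 5) * (2 * d - 1) * Hi ≤ Hr := by
    have h3 : 2 * (10 * d ^ 5) * (2 * d - 1) * Hi ≤ 40 * d ^ 6 * Hi := by
      have h4 : 2 * (10 * d ^ 5) * (2 * d - 1) ≤ 40 * d ^ 6 := by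
        have h5 : 0 < d ^ 5 := by positivity
        nlinarith
      exact mul_le_mul_of_nonneg_right h4 hHi
    have h4 : 40 * d ^ 6 * Hi ≤ 40 * d ^ 6 * (4 * Hr / d ^ 34) :=
      mul_le_mul_of_nonneg_left h1 (by positivity)
    have h5 : 40 * d ^ 6 * (4 * Hr / d ^ 34) = 160 / d ^ 28 * Hr := by
      field_simp
      ring
    have h6 : 160 / d ^ 28 ≤ 1 := by
      rw [div_le_one (by positivity)]
      linarith
    nlinarith
  have hHi'' : Hi ≤ Hr / 100 := by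
    refine h1.trans ?_
    rw [div_le_div_iff₀ (by positivity) (by norm_num)]
    nlinarith
  have h7 : 15 / 4 * d ^ 4 * Hr - 2 * Hr ≤ 40 * d ^ 5 * Lam := by linarith
  have h8 : 29 / 8 * d ^ 4 * Hr ≤ 40 * d ^ 5 * Lam := by nlinarith
  have h9 : 29 / 8 * Hr ≤ 40 * d * Lam := by
    have h10 : d ^ 4 * (29 / 8 * Hr) ≤ d ^ 4 * (40 * d * Lam) := by nlinarith
    exact le_of_mul_le_mul_left h10 (by positivity)
  linarith

/-- **The global inequality.** -/
theorem global [CharZero k] (Q : PlaceData k K) (f : K[X]) (hd : 2 ≤ f.natDegree)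
    (P : Finset K) (hst : ∀ x ∈ P, f.eval x ∈ P) (hN : f.natDegree ^ 96 ≤ P.card) :
    ∃ (S : Finset Q.Pl) (t : Q.Pl → ℝ),
      (∀ v, v ∉ S → Q.ord v f.leadingCoeff = 0) ∧
      (∀ v, v ∉ S → ∀ x ∈ P, ∀ y ∈ P, x ≠ y → Q.ord v (x - y) = 0) ∧
      (∀ v, ¬ Bad Q f P v → t v = 0) ∧
      (∀ v, Bad Q f P v → v ∈ S ∧ 1 / ((f.natDegree : ℝ) - 1) ≤ t v ∧
        ∃ χ : K → Fin (f.natDegree ^ 2), ∀ x ∈ P, ∀ y ∈ P, x ≠ y → χ x = χ y →
          VV Q f v < Q.ord v (x - y)) ∧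
      ∑ v ∈ S, (Q.wt v : ℝ) * t v ≤ 12 * f.natDegree * Q.lossT := by
  classical
  set d := f.natDegree with hdd
  have hf0 : f ≠ 0 := by
    rintro rfl
    rw [natDegree_zero] at hdd
    omega
  have hdR : (2 : ℝ) ≤ d := by exact_mod_cast hd
  have hd0 : (0 : ℝ) < d := by linarith
  have hd1 : (0 : ℝ) < (d : ℝ) - 1 := by linarith
  obtain ⟨S, hSl, hSA, hSloss, hSP⟩ := exists_S Q f hf0 P
  have hbadS : ∀ v, Bad Q f P v → v ∈ S := by
    intro v hv
    by_contra hvS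
    obtain ⟨x, hx, y, hy, hxy, hlt⟩ := hv
    unfold VV at hlt
    rw [hSP v hvS x hx y hy hxy, hSA v hvS] at hlt
    simp at hlt
  -- local data
  set N : ℝ := (P.card : ℝ) with hNdef
  have hloc : ∀ v, ∃ t : ℝ, (¬ Bad Q f P v → t = 0) ∧ (Bad Q f P v →
      1 / ((d : ℝ) - 1) ≤ t ∧
      (∀ x ∈ P, ∀ y ∈ P, x ≠ y → VV Q f v - t ≤ Q.ord v (x - y)) ∧
      (-(2 * N ^ 2 * t / (d : ℝ) ^ 48) ≤ exc Q v (VV Q f v) P) ∧
      (N ^ 2 * t / (2 * (d : ℝ) ^ 14) ≤ exc Q v (VV Q f v) P ∨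
        ∃ χ : K → Fin (d ^ 4), ∀ x ∈ P, ∀ y ∈ P, x ≠ y → χ x = χ y →
          VV Q f v + 3 ≤ Q.ord v (x - y) ∧ VV Q f v + t / d ≤ Q.ord v (x - y)) ∧
      ∃ χ : K → Fin (d ^ 2), ∀ x ∈ P, ∀ y ∈ P, x ≠ y → χ x = χ y →
        VV Q f v < Q.ord v (x - y)) := by
    intro v
    by_cases hv : Bad Q f P v
    · obtain ⟨t, ht⟩ := local_bad Q v f d hd rfl P hst (VV Q f v) rfl hv 48 (by norm_num)
        (by exact hN)
      exact ⟨t, fun h => absurd hv h, fun _ => ht⟩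
    · exact ⟨0, fun _ => rfl, fun h => absurd h hv⟩
  choose t ht0 htb using hloc
  refine ⟨S, t, hSA, hSP, ht0, fun v hv => ⟨hbadS v hv, (htb v hv).1, (htb v hv).2.2.2.2⟩, ?_⟩
  have htnn : ∀ v, 0 ≤ t v := by
    intro v
    by_cases hv : Bad Q f P v
    · exact le_trans (by positivity) (htb v hv).1
    · rw [ht0 v hv]
  have hlossT : (∑ v ∈ S, (Q.wt v : ℝ) * Q.loss v) ≤ Q.lossT := by
    have h1 : ∑ v ∈ S, Q.wt v * Q.loss v = ∑ v ∈ Q.lossS, Q.wt v * Q.loss v := by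
      symm
      apply Finset.sum_subset hSl
      intro v _ hv
      rw [Q.loss_supp v hv, mul_zero]
    have h2 := Q.loss_sum
    rw [← h1] at h2
    exact_mod_cast h2
  have hlossT0 : (0 : ℝ) ≤ Q.lossT := by
    refine le_trans (Finset.sum_nonneg fun v _ => ?_) hlossT
    exact mul_nonneg (by exact_mod_cast Q.wt_nonneg v) (by exact_mod_cast Q.loss_nonneg v)
  by_cases hex : ∃ v₀, Bad Q f P v₀
  swap
  · push Not at hex
    have h1 : ∑ v ∈ S, (Q.wt v : ℝ) * t v = 0 :=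
      Finset.sum_eq_zero fun v _ => by rw [ht0 v (hex v), mul_zero]
    rw [h1]
    positivity
  obtain ⟨v₀, hv₀⟩ := hex
  have hPne : P.Nonempty := by
    obtain ⟨x, hx, _⟩ := hv₀
    exact ⟨x, hx⟩
  have hNpos : 0 < N := by
    rw [hNdef]
    exact_mod_cast Finset.card_pos.mpr hPne
  have hwt : ∀ v, (0 : ℝ) ≤ Q.wt v := fun v => by exact_mod_cast Q.wt_nonneg v
  -- classification
  set irr : Q.Pl → Prop := fun v => N ^ 2 * t v / (2 * (d : ℝ) ^ 14) ≤ exc Q v (VV Q f v) P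
    with hirr
  set Sg := S.filter fun v => ¬ Bad Q f P v with hSg
  set Si := S.filter fun v => Bad Q f P v ∧ irr v with hSi
  set Sr := S.filter fun v => Bad Q f P v ∧ ¬ irr v with hSr
  have hsplit : ∀ g : Q.Pl → ℝ, ∑ v ∈ S, g v = ∑ v ∈ Sg, g v + (∑ v ∈ Si, g v + ∑ v ∈ Sr, g v) := by
    intro g
    rw [← Finset.sum_filter_not_add_sum_filter S (fun v => Bad Q f P v) g]
    congr 1
    rw [← Finset.sum_filter_add_sum_filter_not (S.filter fun v => Bad Q f P v) irr g,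
      Finset.filter_filter, Finset.filter_filter]
  set Hi : ℝ := ∑ v ∈ Si, (Q.wt v : ℝ) * t v with hHi
  set Hr : ℝ := ∑ v ∈ Sr, (Q.wt v : ℝ) * t v with hHr
  have hHi0 : 0 ≤ Hi := Finset.sum_nonneg fun v _ => mul_nonneg (hwt v) (htnn v)
  have hHr0 : 0 ≤ Hr := Finset.sum_nonneg fun v _ => mul_nonneg (hwt v) (htnn v)
  have hH : ∑ v ∈ S, (Q.wt v : ℝ) * t v = Hr + Hi := by
    rw [hsplit]
    have h1 : ∑ v ∈ Sg, (Q.wt v : ℝ) * t v = 0 := by
      apply Finset.sum_eq_zero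
      intro v hv
      rw [ht0 v (Finset.mem_filter.mp hv).2, mul_zero]
    rw [h1]
    ring
  -- energy
  set Eg : ℝ := ∑ v ∈ Sg, (Q.wt v : ℝ) * exc Q v (VV Q f v) P with hEg
  have hgoodord : ∀ v, ¬ Bad Q f P v → ∀ x ∈ P, ∀ y ∈ P, x ≠ y → VV Q f v ≤ Q.ord v (x - y) := by
    intro v hv x hx y hy hxy
    by_contra hcon
    push Not at hcon
    exact hv ⟨x, hx, y, hy, hxy, hcon⟩
  have hEg0 : 0 ≤ Eg := by
    apply Finset.sum_nonneg
    intro v hv
    apply mul_nonneg (hwt v)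
    unfold exc
    apply Finset.sum_nonneg
    intro x hx
    apply Finset.sum_nonneg
    intro y hy
    split_ifs with hxy
    · exact le_rfl
    · have := hgoodord v (Finset.mem_filter.mp hv).2 x hx y hy hxy
      linarith
  have hener : Eg + (N ^ 2 / (2 * (d : ℝ) ^ 14) * Hi - 2 * N ^ 2 / (d : ℝ) ^ 48 * Hr) ≤ 0 := by
    have h1 := sum_exc Q f hf0 P S hSA hSP
    rw [hsplit] at h1
    have h2 : N ^ 2 / (2 * (d : ℝ) ^ 14) * Hi ≤ ∑ v ∈ Si, (Q.wt v : ℝ) * exc Q v (VV Q f v) P := by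
      rw [hHi, Finset.mul_sum]
      apply Finset.sum_le_sum
      intro v hv
      have h3 : irr v := (Finset.mem_filter.mp hv).2.2
      have h4 := mul_le_mul_of_nonneg_left h3 (hwt v)
      refine le_trans (le_of_eq ?_) h4
      ring
    have h3 : -(2 * N ^ 2 / (d : ℝ) ^ 48 * Hr) ≤
        ∑ v ∈ Sr, (Q.wt v : ℝ) * exc Q v (VV Q f v) P := by
      rw [hHr, Finset.mul_sum, ← Finset.sum_neg_distrib]
      apply Finset.sum_le_sum
      intro v hv
      have h4 := mul_le_mul_of_nonneg_left (htb v (Finset.mem_filter.mp hv).2.1).2.2.1 (hwt v)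
      refine le_trans (le_of_eq ?_) h4
      ring
    linarith
  have hHiHr : Hi ≤ 4 * Hr / (d : ℝ) ^ 34 := by
    have h1 : N ^ 2 / (2 * (d : ℝ) ^ 14) * Hi ≤ 2 * N ^ 2 / (d : ℝ) ^ 48 * Hr := by linarith
    have h2 : 2 * N ^ 2 / (d : ℝ) ^ 48 * Hr =
        N ^ 2 / (2 * (d : ℝ) ^ 14) * (4 * Hr / (d : ℝ) ^ 34) := by
      field_simp
      ring
    rw [h2] at h1
    exact le_of_mul_le_mul_left h1 (by positivity)
  -- the cost function
  set c : K → K → ℝ := fun x y => if x ∈ P ∧ y ∈ P ∧ x ≠ y then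
    ∑ v ∈ Sg, (Q.wt v : ℝ) * ((Q.ord v (x - y) : ℝ) - VV Q f v) else 0 with hc
  have hc0 : ∀ x y, 0 ≤ c x y := by
    intro x y
    simp only [hc]
    split_ifs with h
    · apply Finset.sum_nonneg
      intro v hv
      apply mul_nonneg (hwt v)
      have := hgoodord v (Finset.mem_filter.mp hv).2 x h.1 y h.2.1 h.2.2
      linarith
    · exact le_rfl
  set W : ℝ := 2 * Hr / (d : ℝ) ^ 48 with hW
  have hW0 : 0 ≤ W := by positivity
  have hcsum : ∑ x ∈ P, ∑ y ∈ P, c x y ≤ W * N ^ 2 := by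
    have h1 : Eg = ∑ x ∈ P, ∑ y ∈ P, c x y := by
      rw [hEg]
      unfold exc
      simp only [Finset.mul_sum]
      rw [Finset.sum_comm]
      apply Finset.sum_congr rfl
      intro x hx
      rw [Finset.sum_comm]
      apply Finset.sum_congr rfl
      intro y hy
      simp only [hc]
      by_cases hxy : x = y
      · rw [if_neg (by simp [hxy])]
        apply Finset.sum_eq_zero
        intro v _
        rw [if_pos hxy, mul_zero]
      · rw [if_pos ⟨hx, hy, hxy⟩]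
        simp only [if_neg hxy]
    rw [← h1]
    have h2 : W * N ^ 2 = 2 * N ^ 2 / (d : ℝ) ^ 48 * Hr := by
      rw [hW]
      ring
    rw [h2]
    have h3 : 0 ≤ N ^ 2 / (2 * (d : ℝ) ^ 14) * Hi := by positivity
    linarith
  -- the selection
  set m : ℕ := 10 * d ^ 5 with hm
  have hmpos : 0 < m := by positivity
  have hmR : (m : ℝ) = 10 * (d : ℝ) ^ 5 := by
    rw [hm]
    push_cast
    ring
  have hVsum := sum_VV Q f hf0 S hSA
  have hna : ∀ T ⊆ P, ∀ α β : K, (∀ x ∈ T, Q.D x = α * x + β) → T.card ≤ d ^ 2 := by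
    intro T hT α β hD
    refine no_affine Q S P (VV Q f) (d ^ 2) hSP hVsum ?_ v₀ (hbadS v₀ hv₀)
      (htb v₀ hv₀).2.2.2.2 T hT α β hD
    intro v _
    by_cases hv : Bad Q f P v
    · exact Or.inr (htb v hv).2.2.2.2
    · exact Or.inl (hgoodord v hv)
  have hbig : 2 * ((m + 1) * d + m) + 2 * d ^ 2 < P.card := by
    refine lt_of_lt_of_le ?_ hN
    have h1 : 2 * ((m + 1) * d + m) + 2 * d ^ 2 ≤ 64 * d ^ 6 := by
      rw [hm]
      have e1 : d ≤ d ^ 6 := Nat.le_self_pow (by norm_num) d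
      have e2 : d ^ 2 ≤ d ^ 6 := Nat.pow_le_pow_right (by omega) (by norm_num)
      have e5 : d ^ 5 ≤ d ^ 6 := Nat.pow_le_pow_right (by omega) (by norm_num)
      have e6 : (10 * d ^ 5 + 1) * d = 10 * d ^ 6 + d := by ring
      rw [e6]
      omega
    have h2 : 64 * d ^ 6 ≤ d ^ 12 := by
      calc 64 * d ^ 6 = 2 ^ 6 * d ^ 6 := by norm_num
        _ ≤ d ^ 6 * d ^ 6 := Nat.mul_le_mul_right _ (Nat.pow_le_pow_left hd 6)
        _ = d ^ 12 := by ring
    have h3 : d ^ 12 < d ^ 96 := Nat.pow_lt_pow_right (by omega) (by norm_num)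
    omega
  set δ : ℝ := 1 / (2 * ((d : ℝ) + 1)) with hδ
  have hδ0 : 0 < δ := by positivity
  have hδ1 : δ ≤ 1 := by
    rw [hδ, div_le_one (by positivity)]
    linarith
  obtain ⟨z, hzP, hzI, hzc⟩ := selection P hPne (2 * m) (by omega) (Phi Q m) c hc0 W hW0 hcsum δ
    hδ0 hδ1 (by
      intro b h0
      have h1 := congrFun h0 ⟨0, by omega⟩
      simp [Phi, mu] at h1)
    (fun b _ F hF => functional_count Q f hd P hst m hna hbig b F hF)
  have hzinj : Function.Injective z := by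
    intro i j hij
    apply hzI.injective
    simp only [hij]
  set b : Fin (2 * m) := ⟨0, by omega⟩ with hb
  have hdet : cdet Q m z b ≠ 0 := cdet_ne Q m z b hzI
  have hzne : ∀ i j, i ≠ j → z i ≠ z j := fun i j hij h => hij (hzinj h)
  -- the local inequalities
  set g : Q.Pl → ℝ := fun v => if Bad Q f P v then
    (if irr v then -(2 * (m : ℝ) * (2 * d - 1) * t v) else 15 / 4 * (d : ℝ) ^ 4 * t v)
    else -(2 * ((m : ℝ) - 1) * Wz Q v (VV Q f v) z) with hg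
  have hplace : ∀ v ∈ S, Wz Q v (VV Q f v) z + 4 * (m : ℝ) ^ 2 * VV Q f v
      - 4 * ((m : ℝ) - 1) * Q.loss v + g v ≤ 4 * (Q.ord v (cdet Q m z b) : ℝ) := by
    intro v _
    by_cases hv : Bad Q f P v
    · have htv := htb v hv
      have hVt : ∀ i j, i ≠ j → VV Q f v - t v ≤ Q.ord v (z i - z j) := fun i j hij =>
        htv.2.1 _ (hzP i) _ (hzP j) (hzne i j hij)
      have htv1 : 1 ≤ ((d : ℝ) - 1) * t v := by
        have := htv.1
        rw [div_le_iff₀ hd1] at this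
        linarith
      by_cases hi : irr v
      · have h1 := place_any m hmpos z hzinj b (VV Q f v) (t v) hVt hdet
        simp only [hg, if_pos hv, if_pos hi]
        have h2 : 4 * (m : ℝ) ≤ 4 * (m : ℝ) * (((d : ℝ) - 1) * t v) := by
          have : (0 : ℝ) ≤ 4 * (m : ℝ) := by positivity
          nlinarith
        nlinarith
      · obtain ⟨χ, hχ⟩ := htv.2.2.2.1.resolve_left hi
        have hd3 : (d : ℝ) ^ 3 ≤ (d : ℝ) ^ 4 := pow_le_pow_right₀ (by linarith) (by norm_num)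
        have h1 := place_reg m hmpos z hzinj b (VV Q f v) (t v) (9 / 4 + t v / (4 * d))
          (htnn v) (by have := htnn v; positivity) (d ^ 4) (by
            rw [hm]
            have : d ^ 4 ≤ d ^ 5 := Nat.pow_le_pow_right (by omega) (by norm_num)
            omega) hVt (fun i => χ (z i)) (by
            intro i j hij hcc
            have h2 := hχ _ (hzP i) _ (hzP j) (hzne i j hij) hcc
            have h3 : t v / (4 * (d : ℝ)) = (t v / d) / 4 := by
              field_simp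
            rw [h3]
            linarith [h2.1, h2.2]) hdet
        simp only [hg, if_pos hv, if_neg hi]
        have h2 : 15 / 4 * (d : ℝ) ^ 4 * t v ≤ -((d ^ 4 : ℕ) : ℝ) * t v +
            (2 * (m : ℝ) - ((d ^ 4 : ℕ) : ℝ)) * (9 / 4 + t v / (4 * d)) - 4 * (m : ℝ) := by
          rw [hmR]
          push_cast
          have h3 : (2 * (10 * (d : ℝ) ^ 5) - (d : ℝ) ^ 4) * (9 / 4 + t v / (4 * d)) =
              45 * (d : ℝ) ^ 5 - 9 / 4 * (d : ℝ) ^ 4 + 5 * (d : ℝ) ^ 4 * t v -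
                (d : ℝ) ^ 3 * t v / 4 := by
            field_simp
            ring
          rw [h3]
          have h4 : (d : ℝ) ^ 3 * t v ≤ (d : ℝ) ^ 4 * t v :=
            mul_le_mul_of_nonneg_right hd3 (htnn v)
          have h5 : 2 * (d : ℝ) ^ 4 ≤ (d : ℝ) ^ 5 := by
            have : (d : ℝ) ^ 5 = d * (d : ℝ) ^ 4 := by ring
            rw [this]
            exact mul_le_mul_of_nonneg_right hdR (by positivity)
          have h6 : 0 ≤ (d : ℝ) ^ 4 := by positivity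
          linarith
        linarith
    · have h1 := place_good m hmpos z hzinj b (VV Q f v) (fun i j hij =>
        hgoodord v hv _ (hzP i) _ (hzP j) (hzne i j hij)) hdet
      simp only [hg, if_neg hv]
      linarith
  have hout : ∀ v, v ∉ S → 0 ≤ Q.ord v (cdet Q m z b) := by
    intro v hv
    have hord0 : ∀ i j, i ≠ j → Q.ord v (z i - z j) = 0 := fun i j hij =>
      hSP v hv _ (hzP i) _ (hzP j) (hzne i j hij)
    have h1 := place_good (Q := Q) (v := v) m hmpos z hzinj b 0 (fun i j hij => by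
      rw [hord0 i j hij]
      simp) hdet
    have h2 : Wz Q v 0 z = 0 := by
      unfold Wz
      apply Finset.sum_eq_zero
      intro i _
      apply Finset.sum_eq_zero
      intro j _
      split_ifs with hij
      · rfl
      · rw [hord0 i j hij]
        simp
    rw [h2, hSloss v hv] at h1
    have h3 : (0 : ℝ) ≤ Q.ord v (cdet Q m z b) := by
      simp only [Int.cast_zero] at h1
      linarith
    exact_mod_cast h3
  have hpf : ∑ v ∈ S, (Q.wt v : ℝ) * Q.ord v (cdet Q m z b) ≤ 0 := by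
    have := Q.prod_formula _ hdet S hout
    exact_mod_cast this
  have htot : ∑ v ∈ S, (Q.wt v : ℝ) * (Wz Q v (VV Q f v) z + 4 * (m : ℝ) ^ 2 * VV Q f v
      - 4 * ((m : ℝ) - 1) * Q.loss v + g v) ≤ 0 := by
    calc _ ≤ ∑ v ∈ S, (Q.wt v : ℝ) * (4 * (Q.ord v (cdet Q m z b) : ℝ)) :=
          Finset.sum_le_sum fun v hv => mul_le_mul_of_nonneg_left (hplace v hv) (hwt v)
      _ = 4 * ∑ v ∈ S, (Q.wt v : ℝ) * Q.ord v (cdet Q m z b) := by
          rw [Finset.mul_sum]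
          apply Finset.sum_congr rfl
          intro v _
          ring
      _ ≤ 0 := by linarith
  have hexp : ∑ v ∈ S, (Q.wt v : ℝ) * (Wz Q v (VV Q f v) z + 4 * (m : ℝ) ^ 2 * VV Q f v
      - 4 * ((m : ℝ) - 1) * Q.loss v + g v) =
      ∑ v ∈ S, (Q.wt v : ℝ) * Wz Q v (VV Q f v) z +
      4 * (m : ℝ) ^ 2 * ∑ v ∈ S, (Q.wt v : ℝ) * VV Q f v -
      4 * ((m : ℝ) - 1) * ∑ v ∈ S, (Q.wt v : ℝ) * Q.loss v +
      ∑ v ∈ S, (Q.wt v : ℝ) * g v := by
    rw [Finset.mul_sum, Finset.mul_sum, ← Finset.sum_add_distrib, ← Finset.sum_sub_distrib,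
      ← Finset.sum_add_distrib]
    apply Finset.sum_congr rfl
    intro v _
    ring
  rw [hexp, sum_Wz Q f hf0 P S hSA hSP z hzinj hzP, hVsum, hsplit (fun v => (Q.wt v : ℝ) * g v)]
    at htot
  have hgi : ∑ v ∈ Si, (Q.wt v : ℝ) * g v = -(2 * (m : ℝ) * (2 * d - 1) * Hi) := by
    rw [hHi, Finset.mul_sum, ← Finset.sum_neg_distrib]
    apply Finset.sum_congr rfl
    intro v hv
    have h1 := (Finset.mem_filter.mp hv).2
    simp only [hg, if_pos h1.1, if_pos h1.2]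
    ring
  have hgr : ∑ v ∈ Sr, (Q.wt v : ℝ) * g v = 15 / 4 * (d : ℝ) ^ 4 * Hr := by
    rw [hHr, Finset.mul_sum]
    apply Finset.sum_congr rfl
    intro v hv
    have h1 := (Finset.mem_filter.mp hv).2
    simp only [hg, if_pos h1.1, if_neg h1.2]
    ring
  have hgg : ∑ v ∈ Sg, (Q.wt v : ℝ) * g v =
      -(2 * ((m : ℝ) - 1) * ∑ v ∈ Sg, (Q.wt v : ℝ) * Wz Q v (VV Q f v) z) := by
    rw [Finset.mul_sum, ← Finset.sum_neg_distrib]
    apply Finset.sum_congr rfl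
    intro v hv
    have h1 := (Finset.mem_filter.mp hv).2
    simp only [hg, if_neg h1]
    ring
  have hcsymm : ∀ x y, c x y = c y x := by
    intro x y
    simp only [hc]
    by_cases hxy : x ∈ P ∧ y ∈ P ∧ x ≠ y
    · rw [if_pos hxy, if_pos ⟨hxy.2.1, hxy.1, hxy.2.2.symm⟩]
      apply Finset.sum_congr rfl
      intro v _
      have h1 : x - y = -(y - x) := by ring
      rw [h1, PlaceData.ord_neg (sub_ne_zero.mpr hxy.2.2.symm)]
    · rw [if_neg hxy, if_neg (fun h => hxy ⟨h.2.1, h.1, h.2.2.symm⟩)]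
  have hWg : ∑ v ∈ Sg, (Q.wt v : ℝ) * Wz Q v (VV Q f v) z = ∑ i, ∑ j, c (z i) (z j) := by
    unfold Wz
    simp only [Finset.mul_sum]
    rw [Finset.sum_comm]
    apply Finset.sum_congr rfl
    intro i _
    rw [Finset.sum_comm]
    apply Finset.sum_congr rfl
    intro j _
    simp only [hc]
    by_cases hij : i = j
    · rw [if_neg (by simp [hij])]
      apply Finset.sum_eq_zero
      intro v _
      rw [if_pos hij, mul_zero]
    · rw [if_pos ⟨hzP i, hzP j, hzne i j hij⟩]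
      simp only [if_neg hij]
  have hκ0 : 0 ≤ 16 * ((2 * m : ℕ) : ℝ) * W / δ ^ 2 := by positivity
  have hcle : ∀ i j, c (z i) (z j) ≤ 16 * ((2 * m : ℕ) : ℝ) * W / δ ^ 2 := by
    intro i j
    rcases lt_trichotomy i j with h | h | h
    · exact hzc i j h
    · rw [h]
      have : c (z j) (z j) = 0 := by
        simp [hc]
      rw [this]
      exact hκ0
    · rw [hcsymm]
      exact hzc j i h
  have hWgle : ∑ v ∈ Sg, (Q.wt v : ℝ) * Wz Q v (VV Q f v) z ≤
      (2 * (m : ℝ)) ^ 2 * (16 * (2 * (m : ℝ)) * W / δ ^ 2) := by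
    rw [hWg]
    calc ∑ i, ∑ j, c (z i) (z j) ≤ ∑ _i : Fin (2 * m), ∑ _j : Fin (2 * m),
        (16 * ((2 * m : ℕ) : ℝ) * W / δ ^ 2) :=
          Finset.sum_le_sum fun i _ => Finset.sum_le_sum fun j _ => hcle i j
      _ = _ := by
          simp only [Finset.sum_const, Finset.card_univ, Fintype.card_fin, nsmul_eq_mul]
          push_cast
          ring
  rw [hH]
  apply arith (d : ℝ) hdR Hr Hi Q.lossT
    (2 * ((m : ℝ) - 1) * ∑ v ∈ Sg, (Q.wt v : ℝ) * Wz Q v (VV Q f v) z) hHr0 hHi0 hHiHr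
  · -- the collision term
    have hm1 : (0 : ℝ) ≤ (m : ℝ) - 1 := by
      have : (1 : ℝ) ≤ m := by exact_mod_cast hmpos
      linarith
    have h1 : 2 * ((m : ℝ) - 1) * ∑ v ∈ Sg, (Q.wt v : ℝ) * Wz Q v (VV Q f v) z ≤
        2 * ((m : ℝ) - 1) * ((2 * (m : ℝ)) ^ 2 * (16 * (2 * (m : ℝ)) * W / δ ^ 2)) :=
      mul_le_mul_of_nonneg_left hWgle (by linarith)
    have h2 : 2 * ((m : ℝ) - 1) * ((2 * (m : ℝ)) ^ 2 * (16 * (2 * (m : ℝ)) * W / δ ^ 2)) ≤
        2 * (m : ℝ) * ((2 * (m : ℝ)) ^ 2 * (16 * (2 * (m : ℝ)) * W / δ ^ 2)) := by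
      apply mul_le_mul_of_nonneg_right (by linarith)
      positivity
    have h3 : 2 * (m : ℝ) * ((2 * (m : ℝ)) ^ 2 * (16 * (2 * (m : ℝ)) * W / δ ^ 2)) =
        20480000 * ((d : ℝ) + 1) ^ 2 / (d : ℝ) ^ 28 * Hr := by
      rw [hmR, hW, hδ]
      field_simp
      ring
    have h4 : 20480000 * ((d : ℝ) + 1) ^ 2 / (d : ℝ) ^ 28 * Hr ≤
        46080000 / (d : ℝ) ^ 26 * Hr := by
      apply mul_le_mul_of_nonneg_right _ hHr0
      rw [div_le_div_iff₀ (by positivity) (by positivity)]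
      have h5 : ((d : ℝ) + 1) ^ 2 ≤ 9 / 4 * (d : ℝ) ^ 2 := by nlinarith
      have h6 : (0 : ℝ) ≤ 20480000 * (d : ℝ) ^ 26 := by positivity
      calc 20480000 * ((d : ℝ) + 1) ^ 2 * (d : ℝ) ^ 26
          = (20480000 * (d : ℝ) ^ 26) * ((d : ℝ) + 1) ^ 2 := by ring
        _ ≤ (20480000 * (d : ℝ) ^ 26) * (9 / 4 * (d : ℝ) ^ 2) :=
            mul_le_mul_of_nonneg_left h5 h6
        _ = 46080000 * (d : ℝ) ^ 28 := by ring
    linarith
  · rw [hgi, hgr, hgg] at htot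
    have h1 : 4 * ((m : ℝ) - 1) * ∑ v ∈ S, (Q.wt v : ℝ) * Q.loss v ≤ 4 * (m : ℝ) * Q.lossT := by
      have hm1 : (0 : ℝ) ≤ (m : ℝ) - 1 := by
        have : (1 : ℝ) ≤ m := by exact_mod_cast hmpos
        linarith
      calc 4 * ((m : ℝ) - 1) * ∑ v ∈ S, (Q.wt v : ℝ) * Q.loss v ≤ 4 * ((m : ℝ) - 1) * Q.lossT :=
            mul_le_mul_of_nonneg_left hlossT (by linarith)
        _ ≤ 4 * (m : ℝ) * Q.lossT := mul_le_mul_of_nonneg_right (by linarith) hlossT0
    rw [hmR] at h1 htot ⊢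
    linarith

end Pool.Agent.W277.UG
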