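import Pool.Agent.W277.UG.B7

/-!
# Selection avoiding an exceptional set; the regular places with partial colourings
-/

namespace Pool.Agent.W277.UG

open Finset Pool.Agent.W277.UB

section

variable {K : Type*} [Field K]

/-- Greedy selection avoiding an exceptional set. -/
theorem selection2 (P : Finset K) (hP : P.Nonempty) (n : ℕ) (hn : 0 < n)
    (Φ : K → K → (Fin n → K)) (c : K → K → ℝ) (hc : ∀ x y, 0 ≤ c x y) (W : ℝ) (hW : 0 ≤ W)
    (hsum : ∑ x ∈ P, ∑ y ∈ P, c x y ≤ W * (P.card : ℝ) ^ 2) (δ : ℝ) (hδ : 0 < δ)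
    (hδ1 : δ ≤ 1) (hΦ : ∀ b, Φ b b ≠ 0)
    (hind : ∀ b ∈ P, ∀ F : (Fin n → K) →ₗ[K] K, F ≠ 0 →
      ∃ C ⊆ P, δ * P.card ≤ (C.card : ℝ) ∧ ∀ z ∈ C, F (Φ b z) ≠ 0)
    (E₁ : Finset K) (hE₁ : (E₁.card : ℝ) ≤ δ * P.card / 4) :
    ∃ z : Fin n → K, (∀ i, z i ∈ P) ∧ (∀ i, z i ∉ E₁) ∧
      LinearIndependent K (fun i => Φ (z ⟨0, hn⟩) (z i)) ∧
      ∀ i j, i < j → c (z i) (z j) ≤ 16 * n * W / δ ^ 2 := by
  classical
  have hN : (0 : ℝ) < P.card := by exact_mod_cast Finset.card_pos.mpr hP
  set N : ℝ := (P.card : ℝ) with hNdef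
  have hnR : (0 : ℝ) < n := by exact_mod_cast hn
  set Rw : K → ℝ := fun x => ∑ y ∈ P, c x y with hRw
  have hR0 : ∀ x, 0 ≤ Rw x := fun x => Finset.sum_nonneg fun y _ => hc x y
  set τ : ℝ := 4 / δ * W * N with hτ
  have hτ0 : 0 ≤ τ := by positivity
  set E₀ := P.filter fun x => τ < Rw x with hE₀
  have hE₀c : (E₀.card : ℝ) ≤ δ * N / 4 := by
    apply markov P Rw hR0 τ (δ * N / 4) hτ0 (by positivity)
    have : τ * (δ * N / 4) = W * N ^ 2 := by
      rw [hτ]
      field_simp
    rw [this]
    exact hsum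
  set κ : ℝ := 16 * n * W / δ ^ 2 with hκ
  have hκ0 : 0 ≤ κ := by positivity
  have hEl : ∀ x, x ∈ P → x ∉ E₀ →
      ((P.filter fun y => κ < c x y).card : ℝ) ≤ δ * N / (4 * n) := by
    intro x hxP hx
    apply markov P (c x) (hc x) κ (δ * N / (4 * n)) hκ0 (by positivity)
    have h1 : κ * (δ * N / (4 * n)) = τ := by
      rw [hκ, hτ]
      field_simp
      ring
    rw [h1]
    by_contra hcon
    push Not at hcon
    exact hx (Finset.mem_filter.mpr ⟨hxP, hcon⟩)
  -- the base point
  have hE₂c : ((E₀ ∪ E₁).card : ℝ) ≤ δ * N / 4 + δ * N / 4 := by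
    have h1 : ((E₀ ∪ E₁).card : ℝ) ≤ (E₀.card : ℝ) + E₁.card := by
      exact_mod_cast Finset.card_union_le _ _
    linarith
  obtain ⟨b, hbP, hbE⟩ : ∃ b ∈ P, b ∉ E₀ ∪ E₁ := by
    by_contra hcon
    push Not at hcon
    have h1 : P.card ≤ (E₀ ∪ E₁).card := Finset.card_le_card hcon
    have h2 : (P.card : ℝ) ≤ (E₀ ∪ E₁).card := by exact_mod_cast h1
    have h3 : δ * N ≤ N := by nlinarith
    linarith
  -- the induction
  have key : ∀ i : ℕ, 1 ≤ i → i ≤ n → ∃ z : ℕ → K, z 0 = b ∧
      (∀ l, l < i → z l ∈ P ∧ z l ∉ E₀ ∪ E₁) ∧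
      LinearIndependent K (fun l : Fin i => Φ b (z l)) ∧
      ∀ l l', l < l' → l' < i → c (z l) (z l') ≤ κ := by
    intro i hi
    induction i, hi using Nat.le_induction with
    | base =>
      intro _
      refine ⟨fun _ => b, rfl, fun l _ => ⟨hbP, hbE⟩, ?_, ?_⟩
      · rw [linearIndependent_unique_iff]
        exact hΦ b
      · intro l l' h1 h2
        omega
    | succ i hi ih =>
      intro hin
      obtain ⟨z, hz0, hzP, hzI, hzc⟩ := ih (by omega)
      set Sp := Submodule.span K (Set.range fun l : Fin i => Φ b (z l)) with hSp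
      have hlt : Sp < ⊤ := by
        rw [lt_top_iff_ne_top]
        intro h
        have h1 : Module.finrank K Sp = i := by
          rw [hSp, finrank_span_eq_card hzI, Fintype.card_fin]
        rw [h, finrank_top, Module.finrank_fin_fun] at h1
        omega
      obtain ⟨F, hF0, hF⟩ := Submodule.exists_le_ker_of_lt_top Sp hlt
      obtain ⟨C, hCP, hCc, hCF⟩ := hind b hbP F hF0
      set Bd : Finset K := (E₀ ∪ E₁) ∪ (Finset.range i).biUnion fun l => P.filter fun y => κ < c (z l) y
        with hBd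
      have hBdc : (Bd.card : ℝ) ≤ (δ * N / 4 + δ * N / 4) + i * (δ * N / (4 * n)) := by
        have h1 : (Bd.card : ℝ) ≤ ((E₀ ∪ E₁).card : ℝ) + (((Finset.range i).biUnion fun l =>
            P.filter fun y => κ < c (z l) y).card : ℝ) := by
          exact_mod_cast Finset.card_union_le _ _
        have h2 : ((((Finset.range i).biUnion fun l =>
            P.filter fun y => κ < c (z l) y).card : ℕ) : ℝ) ≤ i * (δ * N / (4 * n)) := by
          have h3 : ((((Finset.range i).biUnion fun l =>
            P.filter fun y => κ < c (z l) y).card : ℕ) : ℝ) ≤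
              ∑ l ∈ Finset.range i, ((P.filter fun y => κ < c (z l) y).card : ℝ) := by
            exact_mod_cast Finset.card_biUnion_le
          refine h3.trans ?_
          calc ∑ l ∈ Finset.range i, ((P.filter fun y => κ < c (z l) y).card : ℝ)
              ≤ ∑ _l ∈ Finset.range i, (δ * N / (4 * n)) := by
                apply Finset.sum_le_sum
                intro l hl
                rw [Finset.mem_range] at hl
                exact hEl _ (hzP l hl).1 (fun h => (hzP l hl).2 (Finset.mem_union_left _ h))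
            _ = i * (δ * N / (4 * n)) := by
                rw [Finset.sum_const, Finset.card_range, nsmul_eq_mul]
        linarith
      have hin' : (i : ℝ) ≤ n := by exact_mod_cast (by omega : i ≤ n)
      have h4 : (i : ℝ) * (δ * N / (4 * n)) ≤ δ * N / 4 := by
        calc (i : ℝ) * (δ * N / (4 * n)) ≤ n * (δ * N / (4 * n)) := by
              apply mul_le_mul_of_nonneg_right hin'
              positivity
          _ = δ * N / 4 := by field_simp
      have hδN : 0 < δ * N := mul_pos hδ hN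
      obtain ⟨y, hyC, hyB⟩ : ∃ y ∈ C, y ∉ Bd := by
        by_contra hcon
        push Not at hcon
        have h5 : C.card ≤ Bd.card := Finset.card_le_card hcon
        have h6 : (C.card : ℝ) ≤ Bd.card := by exact_mod_cast h5
        linarith
      have hyP : y ∈ P := hCP hyC
      rw [hBd, Finset.mem_union, not_or, Finset.mem_biUnion] at hyB
      push Not at hyB
      have hysp : Φ b y ∉ Sp := fun h => hCF y hyC (hF h)
      refine ⟨Function.update z i y, ?_, ?_, ?_, ?_⟩
      · rw [Function.update_of_ne (by omega)]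
        exact hz0
      · intro l hl
        by_cases hli : l = i
        · rw [hli, Function.update_self]
          exact ⟨hyP, hyB.1⟩
        · rw [Function.update_of_ne hli]
          exact hzP l (by omega)
      · rw [linearIndependent_finSucc']
        have h5 : (Fin.init fun l : Fin (i + 1) => Φ b (Function.update z i y l)) =
            fun l : Fin i => Φ b (z l) := by
          funext l
          show Φ b (Function.update z i y (Fin.castSucc l).1) = Φ b (z l)
          rw [Fin.val_castSucc, Function.update_of_ne (by have := l.2; omega)]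
        rw [h5]
        simp only [Fin.val_last, Function.update_self]
        exact ⟨hzI, hysp⟩
      · intro l l' hll hl'
        rw [Function.update_of_ne (by omega : l ≠ i)]
        by_cases hli : l' = i
        · rw [hli, Function.update_self]
          have h6 := hyB.2 l (Finset.mem_range.mpr (by omega))
          by_contra hcon
          push Not at hcon
          exact h6 (Finset.mem_filter.mpr ⟨hyP, hcon⟩)
        · rw [Function.update_of_ne hli]
          exact hzc l l' hll (by omega)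
  obtain ⟨z, hz0, hzP, hzI, hzc⟩ := key n hn le_rfl
  refine ⟨fun i => z i, fun i => (hzP i i.2).1,
    fun i h => (hzP i i.2).2 (Finset.mem_union_right _ h), ?_, fun i j hij => hzc _ _ hij j.2⟩
  show LinearIndependent K (fun i : Fin n => Φ (z 0) (z i))
  rw [hz0]
  exact hzI



end

variable {k K : Type*} [Field k] [Field K] [Algebra k K] {Q : PlaceData k K} {v : Q.Pl}

/-- at a bad place with a partial colouring -/
lemma place_reg2 (m : ℕ) (hm : 0 < m) (z : Fin (2 * m) → K) (hz : Function.Injective z)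
    (b : Fin (2 * m)) (V t lam : ℝ) (ht : 0 ≤ t) (hlam : 0 ≤ lam) (q : ℕ)
    (hV : ∀ i j, i ≠ j → V - t ≤ Q.ord v (z i - z j)) (χ : Fin (2 * m) → Fin q)
    (Gs : Finset (Fin (2 * m)))
    (hχ : ∀ i ∈ Gs, ∀ j ∈ Gs, i ≠ j → χ i = χ j → V + lam ≤ Q.ord v (z i - z j))
    (hdet : cdet Q m z b ≠ 0) :
    Wz Q v V z + 4 * (m : ℝ) ^ 2 * V - 4 * ((m : ℝ) - 1) * Q.loss v
      - 2 * m * t + (Gs.card - q) * (t + lam) - 4 * (m : ℝ) ≤
      4 * (Q.ord v (cdet Q m z b) : ℝ) := by
  classical
  obtain ⟨h₀, hlow, i₁, j₁, hij₁, ho₁⟩ := exists_h0 (Q := Q) (v := v) m hm z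
  have hVh : V - t ≤ h₀ := by
    rw [← ho₁]
    exact hV _ _ hij₁
  have hmain := cdet_ord (Q := Q) (v := v) m hm z hz b h₀ hlow ⟨i₁, j₁, hij₁, ho₁⟩ 1
    (Or.inr rfl) hdet
  have hmain' : ((∑ i, ∑ j, oz Q v z i j : ℤ) : ℝ) + 2 * m * h₀ +
      ((∑ i, (((Finset.univ.filter fun j => j < i).sup
        (fun j => (Q.ord v (z i - z j) - h₀).toNat) : ℕ) : ℤ) : ℤ) : ℝ)
      - 4 * (Q.loss v + 1) * (m - 1) ≤ 4 * (Q.ord v (cdet Q m z b) : ℝ) := by
    exact_mod_cast hmain
  -- the indices with an earlier index of the same colour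
  set Gd : Finset (Fin (2 * m)) := Gs.filter fun i => ∃ j ∈ Gs, j < i ∧ χ j = χ i with hGd
  have hcompl : (Gs \ Gd).card ≤ q := by
    have h1 : (Gs \ Gd).card ≤ (Finset.univ : Finset (Fin q)).card := by
      apply Finset.card_le_card_of_injOn χ
      · intro i _
        exact Finset.mem_univ _
      · intro i hi j hj hij
        obtain ⟨hi1, hi'⟩ := Finset.mem_sdiff.mp (Finset.mem_coe.mp hi)
        obtain ⟨hj1, hj'⟩ := Finset.mem_sdiff.mp (Finset.mem_coe.mp hj)
        rcases lt_trichotomy i j with h | h | h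
        · exfalso
          exact hj' (Finset.mem_filter.mpr ⟨hj1, i, hi1, h, hij⟩)
        · exact h
        · exfalso
          exact hi' (Finset.mem_filter.mpr ⟨hi1, j, hj1, h, hij.symm⟩)
    rwa [Finset.card_univ, Fintype.card_fin] at h1
  have hcards : (Gs \ Gd).card + Gd.card = Gs.card :=
    Finset.card_sdiff_add_card_eq_card (Finset.filter_subset _ _)
  have hGle' : Gd.card ≤ 2 * m := by
    have := Finset.card_le_card (Finset.subset_univ Gd)
    rwa [Finset.card_univ, Fintype.card_fin] at this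
  have hMM : (Gd.card : ℝ) * (V + lam - h₀) ≤ ((∑ i, (((Finset.univ.filter fun j => j < i).sup
        (fun j => (Q.ord v (z i - z j) - h₀).toNat) : ℕ) : ℤ) : ℤ) : ℝ) := by
    push_cast
    have h1 : ∑ i ∈ Gd, (((Finset.univ.filter fun j => j < i).sup
        (fun j => (Q.ord v (z i - z j) - h₀).toNat) : ℕ) : ℝ) ≤
        ∑ i, (((Finset.univ.filter fun j => j < i).sup
        (fun j => (Q.ord v (z i - z j) - h₀).toNat) : ℕ) : ℝ) :=
      Finset.sum_le_sum_of_subset_of_nonneg (Finset.subset_univ _)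
        fun i _ _ => Nat.cast_nonneg _
    refine le_trans ?_ h1
    rw [← nsmul_eq_mul, ← Finset.sum_const]
    apply Finset.sum_le_sum
    intro i hi
    obtain ⟨hi1, j, hj1, hji, hc⟩ := Finset.mem_filter.mp hi
    have h2 : (Q.ord v (z i - z j) - h₀).toNat ≤ (Finset.univ.filter fun j => j < i).sup
        (fun j => (Q.ord v (z i - z j) - h₀).toNat) :=
      Finset.le_sup (f := fun j => (Q.ord v (z i - z j) - h₀).toNat)
        (Finset.mem_filter.mpr ⟨Finset.mem_univ _, hji⟩)
    have h3 : ((Q.ord v (z i - z j) - h₀ : ℤ) : ℝ) ≤ ((Q.ord v (z i - z j) - h₀).toNat : ℝ) := by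
      exact_mod_cast Int.self_le_toNat _
    have h4 : ((Q.ord v (z i - z j) - h₀).toNat : ℝ) ≤ (((Finset.univ.filter fun j => j < i).sup
        (fun j => (Q.ord v (z i - z j) - h₀).toNat) : ℕ) : ℝ) := by exact_mod_cast h2
    have h5 := hχ i hi1 j hj1 (ne_of_gt hji) hc.symm
    push_cast at h3
    linarith
  rw [oz_sum V z] at hmain'
  have hGq : (Gs.card : ℝ) - q ≤ Gd.card := by
    have : Gs.card ≤ q + Gd.card := by omega
    have h' : (Gs.card : ℝ) ≤ q + Gd.card := by exact_mod_cast this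
    linarith
  have hGle : (Gd.card : ℝ) ≤ 2 * m := by exact_mod_cast hGle'
  have h6 : (2 * (m : ℝ) - Gd.card) * (V - t) ≤ (2 * (m : ℝ) - Gd.card) * h₀ :=
    mul_le_mul_of_nonneg_left hVh (by linarith)
  have h8 : ((Gs.card : ℝ) - q) * (t + lam) ≤ Gd.card * (t + lam) :=
    mul_le_mul_of_nonneg_right hGq (by linarith)
  have h9 : 2 * (m : ℝ) * V - 2 * m * t + ((Gs.card : ℝ) - q) * (t + lam) ≤ 2 * m * h₀ +
      ((∑ i, (((Finset.univ.filter fun j => j < i).sup
        (fun j => (Q.ord v (z i - z j) - h₀).toNat) : ℕ) : ℤ) : ℤ) : ℝ) := by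
    nlinarith
  push_cast at hmain' h9
  nlinarith

end Pool.Agent.W277.UG
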