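import Pool.Agent.W277.UG.D7
import Pool.Agent.W277.UG.D8
import Pool.Agent.W277.UG.B8

/-!
# The strong global inequality
-/

namespace Pool.Agent.W277.UG

open Pool.Agent.W277.UB Finset Polynomial

universe u

variable {k : Type*} {K : Type u} [Field k] [Field K] [Algebra k K]

/-- the final arithmetic -/
lemma arith2 (D m n d Hr Hi L X : ℝ) (hD8 : 8 ≤ D) (hm : m = 2 * D)
    (hnd : 8 * n + 4 * d ≤ D) (hHr : 0 ≤ Hr) (hHi : 0 ≤ Hi)
    (h1 : Hi ≤ 4 / D ^ 3 * Hr) (hX : X ≤ Hr) (hL : L ≤ 2 * n * (Hr + Hi))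
    (h2 : m * (8 * n + 10) * Hr - 2 * m * (2 * d - 1) * Hi - X ≤ 4 * m * L) : Hr = 0 := by
  have hD0 : 0 < D := by linarith
  have hm0 : 0 < m := by linarith
  have h3 : 4 * m * L ≤ 4 * m * (2 * n * (Hr + Hi)) := mul_le_mul_of_nonneg_left hL (by linarith)
  have h4 : 10 * m * Hr ≤ m * (8 * n + 4 * d - 2) * Hi + X := by nlinarith
  have h5 : m * (8 * n + 4 * d - 2) * Hi ≤ m * D * Hi := by
    apply mul_le_mul_of_nonneg_right _ hHi
    apply mul_le_mul_of_nonneg_left _ hm0.le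
    linarith
  have h6 : m * D * Hi ≤ m * D * (4 / D ^ 3 * Hr) := mul_le_mul_of_nonneg_left h1 (by positivity)
  have h7 : m * D * (4 / D ^ 3 * Hr) = 8 / D * Hr := by
    rw [hm]
    field_simp
    ring
  have h8 : 8 / D ≤ 1 := by
    rw [div_le_one hD0]
    exact hD8
  have h9 : 8 / D * Hr ≤ 1 * Hr := mul_le_mul_of_nonneg_right h8 hHr
  have h10 : 10 * m * Hr ≤ 2 * Hr := by linarith
  nlinarith

/-- **The strong global inequality.** -/
theorem global2 [CharZero k] (Q : PlaceData k K) (f : K[X]) (hd : 2 ≤ f.natDegree)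
    (P : Finset K) (hst : ∀ x ∈ P, f.eval x ∈ P) (n κ Cn J : ℕ)
    (hκ : κ = 32 * f.natDegree ^ 2 * (f.natDegree + 1))
    (hCn : Cn = 8 * f.natDegree + 16 * n + 15)
    (hJ : J = 2 * (1 + Cn * f.natDegree ^ κ)) (hN : f.natDegree ^ (12 * J) ≤ P.card)
    (x₀ x₁ : K) (hx₀ : x₀ ∈ P) (hx₁ : x₁ ∈ P) (hne₁ : x₁ ≠ x₀)
    (hΛ : ∀ (S : Finset Q.Pl) (q : Q.Pl → ℝ), (∀ v, 0 ≤ q v) →
      (∀ v, ∀ x ∈ P, x ≠ x₀ → (Q.ord v (x₁ - x₀) : ℝ) - Q.ord v (x - x₀) ≤ q v) →
      (∀ v, v ∉ S → q v = 0) → (Q.lossT : ℝ) ≤ 2 * n * ∑ v ∈ S, (Q.wt v : ℝ) * q v) :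
    ∀ v, ¬ Bad Q f P v := by
  classical
  set d := f.natDegree with hdd
  have hf0 : f ≠ 0 := by
    rintro rfl
    rw [natDegree_zero] at hdd
    omega
  have hdR : (2 : ℝ) ≤ d := by exact_mod_cast hd
  have hd0 : (0 : ℝ) < d := by linarith
  have hd1 : (0 : ℝ) < (d : ℝ) - 1 := by linarith
  have hJpos : 0 < J := by omega
  have hJR : (0 : ℝ) < J := by exact_mod_cast hJpos
  have hdκ : 0 < d ^ κ := pow_pos (by omega) _
  have hCnJ : Cn ≤ J := by
    rw [hJ]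
    have : Cn * 1 ≤ Cn * d ^ κ := Nat.mul_le_mul_left _ hdκ
    omega
  have hJ31 : 31 ≤ J := by omega
  have hJD : J ≤ d ^ J := by
    have h1 : J < 2 ^ J := Nat.lt_two_pow_self
    have h2 : 2 ^ J ≤ d ^ J := Nat.pow_le_pow_left hd J
    omega
  obtain ⟨S, hSl, hSA, hSloss, hSP⟩ := exists_S Q f hf0 P
  have hbadS : ∀ v, Bad Q f P v → v ∈ S := by
    intro v hv
    by_contra hvS
    obtain ⟨x, hx, y, hy, hxy, hlt⟩ := hv
    unfold VV at hlt
    rw [hSP v hvS x hx y hy hxy, hSA v hvS] at hlt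
    simp at hlt
  -- local data
  set N : ℝ := (P.card : ℝ) with hNdef
  have hN96 : d ^ (2 * 48) ≤ P.card := by
    refine le_trans ?_ hN
    exact Nat.pow_le_pow_right (by omega) (by omega)
  have hloc : ∀ v, ∃ t : ℝ, (¬ Bad Q f P v → t = 0) ∧ (Bad Q f P v →
      (1 / ((d : ℝ) - 1) ≤ t ∧
      (∀ x ∈ P, ∀ y ∈ P, x ≠ y → VV Q f v - t ≤ Q.ord v (x - y)) ∧
      (-(2 * N ^ 2 * t / (d : ℝ) ^ (6 * J)) ≤ exc Q v (VV Q f v) P) ∧
      (N ^ 2 * t / (2 * (J : ℝ) ^ 2 * (d : ℝ) ^ J) ≤ exc Q v (VV Q f v) P ∨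
        ∃ (χ : K → Fin (d ^ J)) (B : Finset K), B ⊆ P ∧
          (B.card : ℝ) * κ ≤ 2 * (N * (d : ℝ) ^ 2) ∧
          ∀ x ∈ P, x ∉ B → ∀ y ∈ P, y ∉ B → x ≠ y → χ x = χ y →
            VV Q f v + Cn * t ≤ Q.ord v (x - y))) ∧
      ∃ χ : K → Fin (d ^ 2), ∀ x ∈ P, ∀ y ∈ P, x ≠ y → χ x = χ y →
        VV Q f v < Q.ord v (x - y)) := by
    intro v
    by_cases hv : Bad Q f P v
    · obtain ⟨t, ht⟩ := local_strong Q v f d hd rfl P hst (VV Q f v) rfl hv Cn κ J hJ hN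
      obtain ⟨t', ht'⟩ := local_bad Q v f d hd rfl P hst (VV Q f v) rfl hv 48 (by norm_num) hN96
      exact ⟨t, fun h => absurd hv h, fun _ => ⟨ht, ht'.2.2.2.2⟩⟩
    · exact ⟨0, fun _ => rfl, fun h => absurd h hv⟩
  choose t ht0 htb using hloc
  have htnn : ∀ v, 0 ≤ t v := by
    intro v
    by_cases hv : Bad Q f P v
    · exact le_trans (by positivity) (htb v hv).1.1
    · rw [ht0 v hv]
  have hlossT : (∑ v ∈ S, (Q.wt v : ℝ) * Q.loss v) ≤ Q.lossT := by
    have h1 : ∑ v ∈ S, Q.wt v * Q.loss v = ∑ v ∈ Q.lossS, Q.wt v * Q.loss v := by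
      symm
      apply Finset.sum_subset hSl
      intro v _ hv
      rw [Q.loss_supp v hv, mul_zero]
    have h2 := Q.loss_sum
    rw [← h1] at h2
    exact_mod_cast h2
  have hlossT0 : (0 : ℝ) ≤ Q.lossT := by
    refine le_trans (Finset.sum_nonneg fun v _ => ?_) hlossT
    exact mul_nonneg (by exact_mod_cast Q.wt_nonneg v) (by exact_mod_cast Q.loss_nonneg v)
  intro v₀ hv₀
  have hPne : P.Nonempty := ⟨x₀, hx₀⟩
  have hNpos : 0 < N := by
    rw [hNdef]
    exact_mod_cast Finset.card_pos.mpr hPne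
  have hwt : ∀ v, (0 : ℝ) ≤ Q.wt v := fun v => by exact_mod_cast Q.wt_nonneg v
  -- classification
  set irr : Q.Pl → Prop := fun v =>
    N ^ 2 * t v / (2 * (J : ℝ) ^ 2 * (d : ℝ) ^ J) ≤ exc Q v (VV Q f v) P with hirr
  set Sg := S.filter fun v => ¬ Bad Q f P v with hSg
  set Si := S.filter fun v => Bad Q f P v ∧ irr v with hSi
  set Sr := S.filter fun v => Bad Q f P v ∧ ¬ irr v with hSr
  have hsplit : ∀ g : Q.Pl → ℝ, ∑ v ∈ S, g v = ∑ v ∈ Sg, g v + (∑ v ∈ Si, g v + ∑ v ∈ Sr, g v) := by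
    intro g
    rw [← Finset.sum_filter_not_add_sum_filter S (fun v => Bad Q f P v) g]
    congr 1
    rw [← Finset.sum_filter_add_sum_filter_not (S.filter fun v => Bad Q f P v) irr g,
      Finset.filter_filter, Finset.filter_filter]
  set Hi : ℝ := ∑ v ∈ Si, (Q.wt v : ℝ) * t v with hHi
  set Hr : ℝ := ∑ v ∈ Sr, (Q.wt v : ℝ) * t v with hHr
  have hHi0 : 0 ≤ Hi := Finset.sum_nonneg fun v _ => mul_nonneg (hwt v) (htnn v)
  have hHr0 : 0 ≤ Hr := Finset.sum_nonneg fun v _ => mul_nonneg (hwt v) (htnn v)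
  have hH : ∑ v ∈ S, (Q.wt v : ℝ) * t v = Hr + Hi := by
    rw [hsplit]
    have h1 : ∑ v ∈ Sg, (Q.wt v : ℝ) * t v = 0 := by
      apply Finset.sum_eq_zero
      intro v hv
      rw [ht0 v (Finset.mem_filter.mp hv).2, mul_zero]
    rw [h1]
    ring
  -- energy
  set Eg : ℝ := ∑ v ∈ Sg, (Q.wt v : ℝ) * exc Q v (VV Q f v) P with hEg
  have hgoodord : ∀ v, ¬ Bad Q f P v → ∀ x ∈ P, ∀ y ∈ P, x ≠ y → VV Q f v ≤ Q.ord v (x - y) := by
    intro v hv x hx y hy hxy
    by_contra hcon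
    push Not at hcon
    exact hv ⟨x, hx, y, hy, hxy, hcon⟩
  have hEg0 : 0 ≤ Eg := by
    apply Finset.sum_nonneg
    intro v hv
    apply mul_nonneg (hwt v)
    unfold exc
    apply Finset.sum_nonneg
    intro x hx
    apply Finset.sum_nonneg
    intro y hy
    split_ifs with hxy
    · exact le_rfl
    · have := hgoodord v (Finset.mem_filter.mp hv).2 x hx y hy hxy
      linarith
  set D : ℝ := (d : ℝ) ^ J with hD
  have hD0 : 0 < D := by positivity
  have hD6 : (d : ℝ) ^ (6 * J) = D ^ 6 := by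
    rw [hD, ← pow_mul, mul_comm]
  have hJD' : (J : ℝ) ≤ D := by
    rw [hD]
    exact_mod_cast hJD
  have hener : Eg + (N ^ 2 / (2 * (J : ℝ) ^ 2 * D) * Hi - 2 * N ^ 2 / D ^ 6 * Hr) ≤ 0 := by
    have h1 := sum_exc Q f hf0 P S hSA hSP
    rw [hsplit] at h1
    have h2 : N ^ 2 / (2 * (J : ℝ) ^ 2 * D) * Hi ≤
        ∑ v ∈ Si, (Q.wt v : ℝ) * exc Q v (VV Q f v) P := by
      rw [hHi, Finset.mul_sum]
      apply Finset.sum_le_sum
      intro v hv
      have h3 : irr v := (Finset.mem_filter.mp hv).2.2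
      have h4 := mul_le_mul_of_nonneg_left h3 (hwt v)
      refine le_trans (le_of_eq ?_) h4
      ring
    have h3 : -(2 * N ^ 2 / D ^ 6 * Hr) ≤
        ∑ v ∈ Sr, (Q.wt v : ℝ) * exc Q v (VV Q f v) P := by
      rw [hHr, Finset.mul_sum, ← Finset.sum_neg_distrib]
      apply Finset.sum_le_sum
      intro v hv
      have h4 := mul_le_mul_of_nonneg_left (htb v (Finset.mem_filter.mp hv).2.1).1.2.2.1 (hwt v)
      rw [hD6] at h4
      refine le_trans (le_of_eq ?_) h4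
      ring
    linarith
  have hHiHr : Hi ≤ 4 / D ^ 3 * Hr := by
    have h1 : N ^ 2 / (2 * (J : ℝ) ^ 2 * D) * Hi ≤ 2 * N ^ 2 / D ^ 6 * Hr := by linarith
    have h2 : 2 * N ^ 2 / D ^ 6 * Hr =
        N ^ 2 / (2 * (J : ℝ) ^ 2 * D) * (4 * (J : ℝ) ^ 2 / D ^ 5 * Hr) := by
      field_simp
      ring
    rw [h2] at h1
    have h3 : Hi ≤ 4 * (J : ℝ) ^ 2 / D ^ 5 * Hr := le_of_mul_le_mul_left h1 (by positivity)
    refine h3.trans ?_
    apply mul_le_mul_of_nonneg_right _ hHr0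
    rw [div_le_div_iff₀ (by positivity) (by positivity)]
    have h4 : (J : ℝ) ^ 2 ≤ D ^ 2 := pow_le_pow_left₀ hJR.le hJD' 2
    have h5 : (0 : ℝ) ≤ 4 * D ^ 3 := by positivity
    calc 4 * (J : ℝ) ^ 2 * D ^ 3 = 4 * D ^ 3 * (J : ℝ) ^ 2 := by ring
      _ ≤ 4 * D ^ 3 * D ^ 2 := mul_le_mul_of_nonneg_left h4 h5
      _ = 4 * D ^ 5 := by ring
  -- the cost function
  set c : K → K → ℝ := fun x y => if x ∈ P ∧ y ∈ P ∧ x ≠ y then
    ∑ v ∈ Sg, (Q.wt v : ℝ) * ((Q.ord v (x - y) : ℝ) - VV Q f v) else 0 with hc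
  have hc0 : ∀ x y, 0 ≤ c x y := by
    intro x y
    simp only [hc]
    split_ifs with h
    · apply Finset.sum_nonneg
      intro v hv
      apply mul_nonneg (hwt v)
      have := hgoodord v (Finset.mem_filter.mp hv).2 x h.1 y h.2.1 h.2.2
      linarith
    · exact le_rfl
  set W : ℝ := 2 * Hr / D ^ 6 with hW
  have hW0 : 0 ≤ W := by positivity
  have hcsum : ∑ x ∈ P, ∑ y ∈ P, c x y ≤ W * N ^ 2 := by
    have h1 : Eg = ∑ x ∈ P, ∑ y ∈ P, c x y := by
      rw [hEg]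
      unfold exc
      simp only [Finset.mul_sum]
      rw [Finset.sum_comm]
      apply Finset.sum_congr rfl
      intro x hx
      rw [Finset.sum_comm]
      apply Finset.sum_congr rfl
      intro y hy
      simp only [hc]
      by_cases hxy : x = y
      · rw [if_neg (by simp [hxy])]
        apply Finset.sum_eq_zero
        intro v _
        rw [if_pos hxy, mul_zero]
      · rw [if_pos ⟨hx, hy, hxy⟩]
        simp only [if_neg hxy]
    rw [← h1]
    have h2 : W * N ^ 2 = 2 * N ^ 2 / D ^ 6 * Hr := by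
      rw [hW]
      ring
    rw [h2]
    have h3 : 0 ≤ N ^ 2 / (2 * (J : ℝ) ^ 2 * D) * Hi := by positivity
    linarith
  -- the exceptional sets at the regular places
  have hexB : ∀ v, ∃ B : Finset K, v ∈ Sr →
      ((B.card : ℝ) * κ ≤ 2 * (N * (d : ℝ) ^ 2) ∧ ∃ χ : K → Fin (d ^ J),
        ∀ x ∈ P, x ∉ B → ∀ y ∈ P, y ∉ B → x ≠ y → χ x = χ y →
            VV Q f v + Cn * t v ≤ Q.ord v (x - y)) := by
    intro v
    by_cases hv : v ∈ Sr
    · obtain ⟨hv1, hv2⟩ := (Finset.mem_filter.mp hv).2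
      obtain ⟨χ, B, _, hB, hχ⟩ := (htb v hv1).1.2.2.2.resolve_left hv2
      exact ⟨B, fun _ => ⟨hB, χ, hχ⟩⟩
    · exact ⟨∅, fun h => absurd h hv⟩
  choose Bv hBv using hexB
  set g₁ : K → ℝ := fun x => ∑ v ∈ Sr, if x ∈ Bv v then (Q.wt v : ℝ) * t v else 0 with hg₁
  have hg₁0 : ∀ x, 0 ≤ g₁ x := by
    intro x
    apply Finset.sum_nonneg
    intro v _
    split_ifs
    · exact mul_nonneg (hwt v) (htnn v)
    · exact le_rfl
  set δ : ℝ := 1 / (2 * ((d : ℝ) + 1)) with hδ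
  have hδ0 : 0 < δ := by positivity
  have hδ1 : δ ≤ 1 := by
    rw [hδ, div_le_one (by positivity)]
    linarith
  set E₁ := P.filter fun x => Hr / 2 < g₁ x with hE₁
  have hE₁c : (E₁.card : ℝ) ≤ δ * P.card / 4 := by
    apply markov P g₁ hg₁0 (Hr / 2) (δ * P.card / 4) (by positivity) (by positivity)
    rw [← hNdef]
    have h1 : ∀ v ∈ Sr, ∑ x ∈ P, (if x ∈ Bv v then (Q.wt v : ℝ) * t v else 0) ≤
        (N / (16 * ((d : ℝ) + 1))) * ((Q.wt v : ℝ) * t v) := by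
      intro v hv
      rw [← Finset.sum_filter, Finset.sum_const, nsmul_eq_mul]
      apply mul_le_mul_of_nonneg_right _ (mul_nonneg (hwt v) (htnn v))
      have h2 : ((P.filter fun x => x ∈ Bv v).card : ℝ) ≤ (Bv v).card := by
        have : (P.filter fun x => x ∈ Bv v) ⊆ Bv v := fun x hx => (Finset.mem_filter.mp hx).2
        exact_mod_cast Finset.card_le_card this
      refine h2.trans ?_
      have h3 := (hBv v hv).1
      rw [hκ] at h3
      push_cast at h3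
      rw [le_div_iff₀ (by positivity)]
      have h4 : (2 * (d : ℝ) ^ 2) * ((Bv v).card * (16 * ((d : ℝ) + 1))) ≤
          (2 * (d : ℝ) ^ 2) * N := by linarith
      exact le_of_mul_le_mul_left h4 (by positivity)
    calc ∑ x ∈ P, g₁ x = ∑ v ∈ Sr, ∑ x ∈ P, (if x ∈ Bv v then (Q.wt v : ℝ) * t v else 0) := by
          rw [hg₁, Finset.sum_comm]
      _ ≤ ∑ v ∈ Sr, (N / (16 * ((d : ℝ) + 1))) * ((Q.wt v : ℝ) * t v) := Finset.sum_le_sum h1
      _ = (N / (16 * ((d : ℝ) + 1))) * Hr := by rw [← Finset.mul_sum]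
      _ = Hr / 2 * (δ * N / 4) := by
          rw [hδ]
          field_simp
          ring
      _ ≤ _ := le_rfl
  -- the selection
  set m : ℕ := 2 * d ^ J with hm
  have hmpos : 0 < m := by positivity
  have hmR : (m : ℝ) = 2 * D := by
    rw [hm, hD]
    push_cast
    ring
  have hVsum := sum_VV Q f hf0 S hSA
  have hna : ∀ T ⊆ P, ∀ α β : K, (∀ x ∈ T, Q.D x = α * x + β) → T.card ≤ d ^ 2 := by
    intro T hT α β hDD
    refine no_affine Q S P (VV Q f) (d ^ 2) hSP hVsum ?_ v₀ (hbadS v₀ hv₀)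
      (htb v₀ hv₀).2 T hT α β hDD
    intro v _
    by_cases hv : Bad Q f P v
    · exact Or.inr (htb v hv).2
    · exact Or.inl (hgoodord v hv)
  have hbig : 2 * ((m + 1) * d + m) + 2 * d ^ 2 < P.card := by
    refine lt_of_lt_of_le ?_ hN
    have e0 : 1 ≤ d ^ J := Nat.one_le_pow _ _ (by omega)
    have e1 : d ≤ d ^ J := Nat.le_self_pow (by omega) d
    have e2 : d ^ 2 ≤ d ^ J := Nat.pow_le_pow_right (by omega) (by omega)
    have e3 : (m + 1) * d ≤ 3 * d ^ J * d ^ J := by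
      apply Nat.mul_le_mul _ e1
      rw [hm]
      omega
    have e4 : d ^ J ≤ d ^ J * d ^ J := Nat.le_mul_of_pos_left _ (by omega)
    have h1 : 2 * ((m + 1) * d + m) + 2 * d ^ 2 ≤ 12 * (d ^ J * d ^ J) := by
      have e5 : 3 * d ^ J * d ^ J = 3 * (d ^ J * d ^ J) := by ring
      rw [hm] at e3 ⊢
      omega
    have h2 : 12 * (d ^ J * d ^ J) < d ^ (12 * J) := by
      have e6 : 16 ≤ d ^ 4 := by
        calc 16 = 2 ^ 4 := by norm_num
          _ ≤ d ^ 4 := Nat.pow_le_pow_left hd 4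
      have e7 : d ^ 4 * (d ^ J * d ^ J) ≤ d ^ (12 * J) := by
        rw [← pow_add, ← pow_add]
        exact Nat.pow_le_pow_right (by omega) (by omega)
      have e8 : 16 * (d ^ J * d ^ J) ≤ d ^ 4 * (d ^ J * d ^ J) := Nat.mul_le_mul_right _ e6
      have e9 : 0 < d ^ J * d ^ J := by positivity
      omega
    omega
  obtain ⟨z, hzP, hzE, hzI, hzc⟩ := selection2 P hPne (2 * m) (by omega) (Phi Q m) c hc0 W hW0
    hcsum δ hδ0 hδ1 (by
      intro b h0
      have h1 := congrFun h0 ⟨0, by omega⟩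
      simp [Phi, mu] at h1)
    (fun b _ F hF => functional_count Q f hd P hst m hna hbig b F hF) E₁ hE₁c
  have hzinj : Function.Injective z := by
    intro i j hij
    apply hzI.injective
    simp only [hij]
  set b : Fin (2 * m) := ⟨0, by omega⟩ with hb
  have hdet : cdet Q m z b ≠ 0 := cdet_ne Q m z b hzI
  have hzne : ∀ i j, i ≠ j → z i ≠ z j := fun i j hij h => hij (hzinj h)
  set Gs : Q.Pl → Finset (Fin (2 * m)) := fun v => Finset.univ.filter fun i => z i ∉ Bv v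
    with hGs
  -- the local inequalities
  set g : Q.Pl → ℝ := fun v => if Bad Q f P v then
    (if irr v then -(2 * (m : ℝ) * (2 * d - 1) * t v) else
      -(2 * (m : ℝ) * (2 * d - 1) * t v) + (((Gs v).card : ℝ) - D) * ((1 + Cn) * t v))
    else -(2 * ((m : ℝ) - 1) * Wz Q v (VV Q f v) z) with hg
  have hplace : ∀ v ∈ S, Wz Q v (VV Q f v) z + 4 * (m : ℝ) ^ 2 * VV Q f v
      - 4 * ((m : ℝ) - 1) * Q.loss v + g v ≤ 4 * (Q.ord v (cdet Q m z b) : ℝ) := by
    intro v hvS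
    by_cases hv : Bad Q f P v
    · have htv := (htb v hv).1
      have hVt : ∀ i j, i ≠ j → VV Q f v - t v ≤ Q.ord v (z i - z j) := fun i j hij =>
        htv.2.1 _ (hzP i) _ (hzP j) (hzne i j hij)
      have htv1 : 1 ≤ ((d : ℝ) - 1) * t v := by
        have := htv.1
        rw [div_le_iff₀ hd1] at this
        linarith
      have h2 : 4 * (m : ℝ) ≤ 4 * (m : ℝ) * (((d : ℝ) - 1) * t v) :=
        le_mul_of_one_le_right (by positivity) htv1
      by_cases hi : irr v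
      · have h1 := place_any m hmpos z hzinj b (VV Q f v) (t v) hVt hdet
        simp only [hg, if_pos hv, if_pos hi]
        linarith
      · have hvr : v ∈ Sr := Finset.mem_filter.mpr ⟨hvS, hv, hi⟩
        obtain ⟨_, χ, hχ⟩ := hBv v hvr
        have h1 := place_reg2 m hmpos z hzinj b (VV Q f v) (t v) (Cn * t v) (htnn v)
          (mul_nonneg (Nat.cast_nonneg _) (htnn v)) (d ^ J) hVt (fun i => χ (z i)) (Gs v) (by
            intro i hi j hj hij hcc
            exact hχ _ (hzP i) (Finset.mem_filter.mp hi).2 _ (hzP j) (Finset.mem_filter.mp hj).2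
              (hzne i j hij) hcc) hdet
        have h3 : ((d ^ J : ℕ) : ℝ) = D := by
          rw [hD]
          push_cast
          rfl
        rw [h3] at h1
        simp only [hg, if_pos hv, if_neg hi]
        have h4 : (((Gs v).card : ℝ) - D) * (t v + Cn * t v) =
            (((Gs v).card : ℝ) - D) * ((1 + Cn) * t v) := by ring
        rw [h4] at h1
        linarith
    · have h1 := place_good m hmpos z hzinj b (VV Q f v) (fun i j hij =>
        hgoodord v hv _ (hzP i) _ (hzP j) (hzne i j hij)) hdet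
      simp only [hg, if_neg hv]
      linarith
  have hout : ∀ v, v ∉ S → 0 ≤ Q.ord v (cdet Q m z b) := by
    intro v hv
    have hord0 : ∀ i j, i ≠ j → Q.ord v (z i - z j) = 0 := fun i j hij =>
      hSP v hv _ (hzP i) _ (hzP j) (hzne i j hij)
    have h1 := place_good (Q := Q) (v := v) m hmpos z hzinj b 0 (fun i j hij => by
      rw [hord0 i j hij]
      simp) hdet
    have h2 : Wz Q v 0 z = 0 := by
      unfold Wz
      apply Finset.sum_eq_zero
      intro i _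
      apply Finset.sum_eq_zero
      intro j _
      split_ifs with hij
      · rfl
      · rw [hord0 i j hij]
        simp
    rw [h2, hSloss v hv] at h1
    have h3 : (0 : ℝ) ≤ Q.ord v (cdet Q m z b) := by
      simp only [Int.cast_zero] at h1
      linarith
    exact_mod_cast h3
  have hpf : ∑ v ∈ S, (Q.wt v : ℝ) * Q.ord v (cdet Q m z b) ≤ 0 := by
    have := Q.prod_formula _ hdet S hout
    exact_mod_cast this
  have htot : ∑ v ∈ S, (Q.wt v : ℝ) * (Wz Q v (VV Q f v) z + 4 * (m : ℝ) ^ 2 * VV Q f v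
      - 4 * ((m : ℝ) - 1) * Q.loss v + g v) ≤ 0 := by
    calc _ ≤ ∑ v ∈ S, (Q.wt v : ℝ) * (4 * (Q.ord v (cdet Q m z b) : ℝ)) :=
          Finset.sum_le_sum fun v hv => mul_le_mul_of_nonneg_left (hplace v hv) (hwt v)
      _ = 4 * ∑ v ∈ S, (Q.wt v : ℝ) * Q.ord v (cdet Q m z b) := by
          rw [Finset.mul_sum]
          apply Finset.sum_congr rfl
          intro v _
          ring
      _ ≤ 0 := by linarith
  have hexp : ∑ v ∈ S, (Q.wt v : ℝ) * (Wz Q v (VV Q f v) z + 4 * (m : ℝ) ^ 2 * VV Q f v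
      - 4 * ((m : ℝ) - 1) * Q.loss v + g v) =
      ∑ v ∈ S, (Q.wt v : ℝ) * Wz Q v (VV Q f v) z +
      4 * (m : ℝ) ^ 2 * ∑ v ∈ S, (Q.wt v : ℝ) * VV Q f v -
      4 * ((m : ℝ) - 1) * ∑ v ∈ S, (Q.wt v : ℝ) * Q.loss v +
      ∑ v ∈ S, (Q.wt v : ℝ) * g v := by
    rw [Finset.mul_sum, Finset.mul_sum, ← Finset.sum_add_distrib, ← Finset.sum_sub_distrib,
      ← Finset.sum_add_distrib]
    apply Finset.sum_congr rfl
    intro v _
    ring
  rw [hexp, sum_Wz Q f hf0 P S hSA hSP z hzinj hzP, hVsum, hsplit (fun v => (Q.wt v : ℝ) * g v)]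
    at htot
  have hgi : ∑ v ∈ Si, (Q.wt v : ℝ) * g v = -(2 * (m : ℝ) * (2 * d - 1) * Hi) := by
    rw [hHi, Finset.mul_sum, ← Finset.sum_neg_distrib]
    apply Finset.sum_congr rfl
    intro v hv
    have h1 := (Finset.mem_filter.mp hv).2
    simp only [hg, if_pos h1.1, if_pos h1.2]
    ring
  have hgr : (m : ℝ) * (8 * n + 10) * Hr ≤ ∑ v ∈ Sr, (Q.wt v : ℝ) * g v := by
    have e1 : ∑ v ∈ Sr, (Q.wt v : ℝ) * g v =
        -(2 * (m : ℝ) * (2 * d - 1) * Hr) +
        (1 + Cn) * (∑ v ∈ Sr, ((Gs v).card : ℝ) * ((Q.wt v : ℝ) * t v) - D * Hr) := by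
      rw [hHr, Finset.mul_sum, Finset.mul_sum, ← Finset.sum_sub_distrib, Finset.mul_sum,
        ← Finset.sum_neg_distrib, ← Finset.sum_add_distrib]
      apply Finset.sum_congr rfl
      intro v hv
      have h1 := (Finset.mem_filter.mp hv).2
      simp only [hg, if_pos h1.1, if_neg h1.2]
      ring
    have e2 : (m : ℝ) * Hr ≤ ∑ v ∈ Sr, ((Gs v).card : ℝ) * ((Q.wt v : ℝ) * t v) := by
      have h1 : ∑ v ∈ Sr, ((Gs v).card : ℝ) * ((Q.wt v : ℝ) * t v) =
          ∑ i, (Hr - g₁ (z i)) := by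
        have h2 : ∀ i, Hr - g₁ (z i) = ∑ v ∈ Sr, if z i ∉ Bv v then (Q.wt v : ℝ) * t v else 0 := by
          intro i
          rw [hHr, hg₁, ← Finset.sum_sub_distrib]
          apply Finset.sum_congr rfl
          intro v _
          by_cases h : z i ∈ Bv v
          · rw [if_pos h, if_neg (not_not.mpr h), sub_self]
          · rw [if_neg h, if_pos h, sub_zero]
        simp_rw [h2]
        rw [Finset.sum_comm]
        apply Finset.sum_congr rfl
        intro v _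
        rw [← Finset.sum_filter, Finset.sum_const, nsmul_eq_mul]
      rw [h1]
      calc (m : ℝ) * Hr = ∑ _i : Fin (2 * m), Hr / 2 := by
            rw [Finset.sum_const, Finset.card_univ, Fintype.card_fin, nsmul_eq_mul]
            push_cast
            ring
        _ ≤ _ := by
            apply Finset.sum_le_sum
            intro i _
            have h2 : ¬ Hr / 2 < g₁ (z i) := fun h =>
              hzE i (Finset.mem_filter.mpr ⟨hzP i, h⟩)
            push Not at h2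
            linarith
    rw [e1]
    have hCR : (Cn : ℝ) = 8 * d + 16 * n + 15 := by
      rw [hCn]
      push_cast
      ring
    have e3 : (1 + (Cn : ℝ)) * ((m : ℝ) * Hr - D * Hr) ≤ (1 + Cn) *
        (∑ v ∈ Sr, ((Gs v).card : ℝ) * ((Q.wt v : ℝ) * t v) - D * Hr) := by
      apply mul_le_mul_of_nonneg_left _ (by positivity)
      linarith
    have e4 : (m : ℝ) * (8 * n + 10) * Hr = -(2 * (m : ℝ) * (2 * d - 1) * Hr) +
        (1 + (Cn : ℝ)) * ((m : ℝ) * Hr - D * Hr) := by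
      rw [hmR, hCR]
      ring
    linarith
  have hgg : ∑ v ∈ Sg, (Q.wt v : ℝ) * g v =
      -(2 * ((m : ℝ) - 1) * ∑ v ∈ Sg, (Q.wt v : ℝ) * Wz Q v (VV Q f v) z) := by
    rw [Finset.mul_sum, ← Finset.sum_neg_distrib]
    apply Finset.sum_congr rfl
    intro v hv
    have h1 := (Finset.mem_filter.mp hv).2
    simp only [hg, if_neg h1]
    ring
  have hcsymm : ∀ x y, c x y = c y x := by
    intro x y
    simp only [hc]
    by_cases hxy : x ∈ P ∧ y ∈ P ∧ x ≠ y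
    · rw [if_pos hxy, if_pos ⟨hxy.2.1, hxy.1, hxy.2.2.symm⟩]
      apply Finset.sum_congr rfl
      intro v _
      have h1 : x - y = -(y - x) := by ring
      rw [h1, PlaceData.ord_neg (sub_ne_zero.mpr hxy.2.2.symm)]
    · rw [if_neg hxy, if_neg (fun h => hxy ⟨h.2.1, h.1, h.2.2.symm⟩)]
  have hWg : ∑ v ∈ Sg, (Q.wt v : ℝ) * Wz Q v (VV Q f v) z = ∑ i, ∑ j, c (z i) (z j) := by
    unfold Wz
    simp only [Finset.mul_sum]
    rw [Finset.sum_comm]
    apply Finset.sum_congr rfl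
    intro i _
    rw [Finset.sum_comm]
    apply Finset.sum_congr rfl
    intro j _
    simp only [hc]
    by_cases hij : i = j
    · rw [if_neg (by simp [hij])]
      apply Finset.sum_eq_zero
      intro v _
      rw [if_pos hij, mul_zero]
    · rw [if_pos ⟨hzP i, hzP j, hzne i j hij⟩]
      simp only [if_neg hij]
  have hκ0 : 0 ≤ 16 * ((2 * m : ℕ) : ℝ) * W / δ ^ 2 := by positivity
  have hcle : ∀ i j, c (z i) (z j) ≤ 16 * ((2 * m : ℕ) : ℝ) * W / δ ^ 2 := by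
    intro i j
    rcases lt_trichotomy i j with h | h | h
    · exact hzc i j h
    · rw [h]
      have : c (z j) (z j) = 0 := by
        simp [hc]
      rw [this]
      exact hκ0
    · rw [hcsymm]
      exact hzc j i h
  have hWgle : ∑ v ∈ Sg, (Q.wt v : ℝ) * Wz Q v (VV Q f v) z ≤
      (2 * (m : ℝ)) ^ 2 * (16 * (2 * (m : ℝ)) * W / δ ^ 2) := by
    rw [hWg]
    calc ∑ i, ∑ j, c (z i) (z j) ≤ ∑ _i : Fin (2 * m), ∑ _j : Fin (2 * m),
        (16 * ((2 * m : ℕ) : ℝ) * W / δ ^ 2) :=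
          Finset.sum_le_sum fun i _ => Finset.sum_le_sum fun j _ => hcle i j
      _ = _ := by
          simp only [Finset.sum_const, Finset.card_univ, Fintype.card_fin, nsmul_eq_mul]
          push_cast
          ring
  have hm1 : (0 : ℝ) ≤ (m : ℝ) - 1 := by
    have : (1 : ℝ) ≤ m := by exact_mod_cast hmpos
    linarith
  -- the collision term
  have hXle : 2 * ((m : ℝ) - 1) * ∑ v ∈ Sg, (Q.wt v : ℝ) * Wz Q v (VV Q f v) z ≤ Hr := by
    have h1 : 2 * ((m : ℝ) - 1) * ∑ v ∈ Sg, (Q.wt v : ℝ) * Wz Q v (VV Q f v) z ≤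
        2 * ((m : ℝ) - 1) * ((2 * (m : ℝ)) ^ 2 * (16 * (2 * (m : ℝ)) * W / δ ^ 2)) :=
      mul_le_mul_of_nonneg_left hWgle (by linarith)
    have h2 : 2 * ((m : ℝ) - 1) * ((2 * (m : ℝ)) ^ 2 * (16 * (2 * (m : ℝ)) * W / δ ^ 2)) ≤
        2 * (m : ℝ) * ((2 * (m : ℝ)) ^ 2 * (16 * (2 * (m : ℝ)) * W / δ ^ 2)) := by
      apply mul_le_mul_of_nonneg_right (by linarith)
      positivity
    have h3 : 2 * (m : ℝ) * ((2 * (m : ℝ)) ^ 2 * (16 * (2 * (m : ℝ)) * W / δ ^ 2)) =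
        32768 * ((d : ℝ) + 1) ^ 2 / D ^ 2 * Hr := by
      rw [hmR, hW, hδ]
      field_simp
      ring
    have h4 : 32768 * ((d : ℝ) + 1) ^ 2 / D ^ 2 ≤ 1 := by
      rw [div_le_one (by positivity)]
      have h5 : ((d : ℝ) + 1) ^ 2 ≤ (d : ℝ) ^ 4 := by
        have h6 : (d : ℝ) + 1 ≤ (d : ℝ) ^ 2 := by
          have h7 : 0 ≤ (d : ℝ) * ((d : ℝ) - 2) := mul_nonneg (by linarith) (by linarith)
          have h8 : (d : ℝ) ^ 2 = (d : ℝ) * ((d : ℝ) - 2) + 2 * d := by ring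
          rw [h8]
          linarith
        calc ((d : ℝ) + 1) ^ 2 ≤ ((d : ℝ) ^ 2) ^ 2 := pow_le_pow_left₀ (by linarith) h6 2
          _ = (d : ℝ) ^ 4 := by ring
      have h6 : (32768 : ℝ) ≤ (d : ℝ) ^ 15 := by
        calc (32768 : ℝ) = 2 ^ 15 := by norm_num
          _ ≤ (d : ℝ) ^ 15 := pow_le_pow_left₀ (by norm_num) hdR 15
      calc 32768 * ((d : ℝ) + 1) ^ 2 ≤ (d : ℝ) ^ 15 * (d : ℝ) ^ 4 :=
            mul_le_mul h6 h5 (by positivity) (by positivity)
        _ = (d : ℝ) ^ 19 := by rw [← pow_add]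
        _ ≤ (d : ℝ) ^ (J * 2) := pow_le_pow_right₀ (by linarith) (by omega)
        _ = D ^ 2 := by rw [hD, ← pow_mul]
    have h5 := mul_le_mul_of_nonneg_right h4 hHr0
    linarith
  -- the loss
  have hLle : (Q.lossT : ℝ) ≤ 2 * n * (Hr + Hi) := by
    have h1 := hΛ S (fun v => t v - VV Q f v + Q.ord v (x₁ - x₀)) (by
      intro v
      by_cases hv : Bad Q f P v
      · have := (htb v hv).1.2.1 x₁ hx₁ x₀ hx₀ hne₁
        linarith
      · have h2 := hgoodord v hv x₁ hx₁ x₀ hx₀ hne₁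
        rw [ht0 v hv]
        linarith) (by
      intro v x hx hxne
      by_cases hv : Bad Q f P v
      · have := (htb v hv).1.2.1 x hx x₀ hx₀ hxne
        linarith
      · have h2 := hgoodord v hv x hx x₀ hx₀ hxne
        rw [ht0 v hv]
        linarith) (by
      intro v hv
      have h2 : ¬ Bad Q f P v := fun h => hv (hbadS v h)
      rw [ht0 v h2, hSP v hv x₁ hx₁ x₀ hx₀ hne₁]
      unfold VV
      rw [hSA v hv]
      simp)
    refine h1.trans (le_of_eq ?_)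
    congr 1
    have h2 := prod_zero' Q S (x₁ - x₀) (sub_ne_zero.mpr hne₁)
      (fun v hv => hSP v hv x₁ hx₁ x₀ hx₀ hne₁)
    rw [← hH]
    simp only [mul_add, mul_sub, Finset.sum_add_distrib, Finset.sum_sub_distrib]
    rw [hVsum, h2]
    ring
  have hHrz : Hr = 0 := by
    apply arith2 D m n d Hr Hi Q.lossT
      (2 * ((m : ℝ) - 1) * ∑ v ∈ Sg, (Q.wt v : ℝ) * Wz Q v (VV Q f v) z) ?_ hmR ?_ hHr0 hHi0 hHiHr hXle hLle
    · rw [hgi, hgg] at htot
      have h1 : 4 * ((m : ℝ) - 1) * ∑ v ∈ S, (Q.wt v : ℝ) * Q.loss v ≤ 4 * (m : ℝ) * Q.lossT := by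
        calc 4 * ((m : ℝ) - 1) * ∑ v ∈ S, (Q.wt v : ℝ) * Q.loss v ≤ 4 * ((m : ℝ) - 1) * Q.lossT :=
              mul_le_mul_of_nonneg_left hlossT (by linarith)
          _ ≤ 4 * (m : ℝ) * Q.lossT := mul_le_mul_of_nonneg_right (by linarith) hlossT0
      linarith
    · calc (8 : ℝ) ≤ 31 := by norm_num
        _ ≤ J := by exact_mod_cast hJ31
        _ ≤ D := hJD'
    · have h1 : 8 * n + 4 * d ≤ J := by omega
      have h2 : 8 * (n : ℝ) + 4 * d ≤ J := by exact_mod_cast h1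
      linarith
  have hHiz : Hi = 0 := by
    rw [hHrz, mul_zero] at hHiHr
    linarith
  have hsum0 : ∑ v ∈ S, (Q.wt v : ℝ) * t v = 0 := by
    rw [hH, hHrz, hHiz, add_zero]
  have h1 := (Finset.sum_eq_zero_iff_of_nonneg
    (fun v _ => mul_nonneg (hwt v) (htnn v))).mp hsum0 v₀ (hbadS v₀ hv₀)
  have h2 : (1 : ℝ) ≤ Q.wt v₀ := by exact_mod_cast Q.wt_one v₀
  have h3 : 0 < t v₀ := lt_of_lt_of_le (by positivity) (htb v₀ hv₀).1.1
  have h4 : 0 < (Q.wt v₀ : ℝ) * t v₀ := mul_pos (by linarith) h3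
  linarith

end Pool.Agent.W277.UG
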