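import Mathlib
import Pool.Agent.W277.UD.StrongFin
import Pool.Agent.W277.UG.C1
import Pool.Agent.W277.UG.D9

/-!
# Strong uniform boundedness for all polynomials over function fields
-/

namespace Pool.Agent.W277.UG

open Polynomial Pool.Agent.W277.UB Pool.Agent.W277.UC Pool.Agent.W277.UD Finset PlaceData

/-- The exponent in the bound. -/
def JJ (d n : ℕ) : ℕ := 2 * (1 + (8 * d + 16 * n + 15) * d ^ (32 * d ^ 2 * (d + 1)))

section

variable {K : Type*} [Field K]

lemma aff_aff (y b y' b' : K) (hy : y ≠ 0) (f : K[X]) :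
    aff y' b' (aff y b f) = aff (y * y') (y * b' + b) f := by
  unfold aff
  rw [mul_comp, sub_comp, C_comp, C_comp, comp_assoc]
  have h1 : (C y * X + C b).comp (C y' * X + C b') = C (y * y') * X + C (y * b' + b) := by
    simp only [add_comp, mul_comp, C_comp, X_comp, C_mul, C_add]
    ring
  rw [h1]
  simp only [mul_inv, C_mul, C_add]
  have h2 : C y⁻¹ * C y = (1 : K[X]) := by
    rw [← C_mul, inv_mul_cancel₀ hy, C_1]
  linear_combination (C y'⁻¹ * C b') * h2

lemma aff_map {L : Type*} [Field L] (φ : K →+* L) (y b : K) (f : K[X]) :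
    (aff y b f).map φ = aff (φ y) (φ b) (f.map φ) := by
  unfold aff
  rw [Polynomial.map_mul, Polynomial.map_sub, map_comp, Polynomial.map_add, Polynomial.map_mul,
    map_C, map_C, map_C, map_X, map_inv₀]

lemma aff_eval (y b : K) (hy : y ≠ 0) (f : K[X]) (x : K) :
    (aff y b f).eval (y⁻¹ * (x - b)) = y⁻¹ * (f.eval x - b) := by
  unfold aff
  have h1 : y * (y⁻¹ * (x - b)) + b = x := by
    rw [mul_inv_cancel_left₀ hy]
    ring
  simp only [eval_mul, eval_C, eval_sub, eval_comp, eval_add, eval_X, h1]

lemma aff_natDegree (y b : K) (hy : y ≠ 0) (f : K[X]) : (aff y b f).natDegree = f.natDegree := by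
  unfold aff
  have h1 : (C y * X + C b : K[X]).natDegree = 1 := natDegree_linear hy
  rw [natDegree_C_mul (inv_ne_zero hy), natDegree_sub_C, natDegree_comp, h1, mul_one]

end

section Core

variable {L : Type*} [Field L]
variable {k : Type*} [Field k] [CharZero k] [Algebra k L]
  [Algebra (RatFunc k) L] [IsScalarTower k (RatFunc k) L] [FiniteDimensional (RatFunc k) L]

/-- The bound for stable sets over an extension of `k(t)` of bounded degree. -/
theorem strong_all (halg : ∀ x : L, IsAlgebraic k x → ∃ c : k, algebraMap k L c = x)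
    {n : ℕ} (hn : Module.finrank (RatFunc k) L ≤ n) (f : L[X]) (hd : 2 ≤ f.natDegree)
    (P : Finset L) (hst : ∀ x ∈ P, f.eval x ∈ P)
    (hiso : ¬ ∃ y b : L, y ≠ 0 ∧ ∃ g : k[X], g.map (algebraMap k L) = aff y b f) :
    P.card < f.natDegree ^ (12 * JJ f.natDegree n) := by
  classical
  have : CharZero (RatFunc k) := charZero_of_injective_algebraMap
    (algebraMap k (RatFunc k)).injective
  by_contra hcon
  push Not at hcon
  set d := f.natDegree with hdd
  have hJ2 : 2 ≤ JJ d n := by
    unfold JJ
    omega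
  have hdN : d < P.card := by
    refine lt_of_lt_of_le ?_ hcon
    calc d = d ^ 1 := (pow_one _).symm
      _ < d ^ (12 * JJ d n) := Nat.pow_lt_pow_right (by omega) (by omega)
  obtain ⟨x₀, hx₀, x₁, hx₁, hne⟩ := Finset.one_lt_card.mp (by omega : 1 < P.card)
  set y := x₁ - x₀ with hy
  have hy0 : y ≠ 0 := sub_ne_zero.mpr (Ne.symm hne)
  set f0 := aff y x₀ f with hf0
  set P0 := P.image fun x => y⁻¹ * (x - x₀) with hP0
  have hinj : Function.Injective fun x : L => y⁻¹ * (x - x₀) := by
    intro a b hab
    have h1 := mul_left_cancel₀ (inv_ne_zero hy0) hab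
    exact sub_left_injective h1
  have hcard0 : P0.card = P.card := Finset.card_image_of_injective _ hinj
  have hst0 : ∀ z ∈ P0, f0.eval z ∈ P0 := by
    intro z hz
    obtain ⟨x, hx, rfl⟩ := Finset.mem_image.mp hz
    rw [hf0, aff_eval y x₀ hy0]
    exact Finset.mem_image.mpr ⟨f.eval x, hst x hx, rfl⟩
  have hfd0 : f0.natDegree = d := aff_natDegree y x₀ hy0 f
  have hdc : d < P0.card := by omega
  set L0 := IntermediateField.adjoin (RatFunc k) (P0 : Set L) with hL0
  have hPL : ∀ z ∈ P0, z ∈ L0 := fun z hz => IntermediateField.subset_adjoin _ _ hz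
  obtain ⟨g0, hg0⟩ := const_poly (k := L0) (K := L) (f := f0) (d := d) hfd0.le (P := P0)
    (fun z hz => ⟨⟨z, hPL z hz⟩, rfl⟩) (fun z hz => ⟨⟨_, hPL _ (hst0 z hz)⟩, rfl⟩) hdc
  set P1 : Finset L0 := P0.subtype (fun x => x ∈ L0) with hP1
  have hcard1 : P1.card = P.card := by
    rw [hP1, Finset.card_subtype, Finset.filter_true_of_mem hPL, hcard0]
  have hmem1 : ∀ z : L0, z ∈ P1 ↔ (z : L) ∈ P0 := fun z => Finset.mem_subtype
  have hgd : g0.natDegree = d := by
    rw [← hfd0, ← hg0, natDegree_map]
  have hst1 : ∀ z ∈ P1, g0.eval z ∈ P1 := by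
    intro z hz
    rw [hmem1] at hz ⊢
    have h1 : ((g0.eval z : L0) : L) = f0.eval (z : L) := by
      rw [← hg0]
      exact (eval_map_apply (algebraMap L0 L) z).symm
    rw [h1]
    exact hst0 _ hz
  by_cases hcst : ∀ z ∈ P0, ∃ c : k, algebraMap k L c = z
  · obtain ⟨g, hg⟩ := const_poly (k := k) (f := f0) (d := d) hfd0.le (P := P0) hcst
      (fun z hz => hcst _ (hst0 z hz)) hdc
    exact hiso ⟨y, x₀, hy0, g, hg⟩
  · push Not at hcst
    obtain ⟨z, hz, hzc⟩ := hcst
    have hst' : IsScalarTower k L0 L := IsScalarTower.of_algebraMap_eq fun c => rfl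
    have halg0 : ∀ x : L0, IsAlgebraic k x → ∃ c : k, algebraMap k L0 c = x := by
      intro x hx
      obtain ⟨c, hc⟩ := halg (x : L) (hx.algebraMap (A := L))
      exact ⟨c, Subtype.ext hc⟩
    have hgenP : IntermediateField.adjoin (RatFunc k) (P1 : Set L0) = ⊤ := by
      apply IntermediateField.lift_injective
      rw [IntermediateField.lift_adjoin, IntermediateField.lift_top]
      have h1 : L0.val '' (P1 : Set L0) = (P0 : Set L) := by
        ext x
        constructor
        · rintro ⟨y, hy, rfl⟩
          exact (hmem1 y).mp hy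
        · intro hx
          exact ⟨⟨x, hPL x hx⟩, (hmem1 _).mpr hx, rfl⟩
      have h2 : (Subtype.val : L0 → L) '' (P1 : Set L0) = (P0 : Set L) := h1
      rw [h2]
    obtain ⟨u, huP, hugen, huc⟩ := exists_gen (k := k) (F := RatFunc k) (E := L0) (P1 : Set L0)
      hgenP ⟨z, hPL z hz⟩ ((hmem1 _).mpr hz) (by
        intro c hc
        exact hzc c (congrArg Subtype.val hc).symm)
    obtain ⟨Q, hQ⟩ := exists_placeData_small k L0 halg0 u hugen huc
    have h0P : (0 : L0) ∈ P1 := by
      rw [hmem1, hP0, Finset.mem_image]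
      exact ⟨x₀, hx₀, by simp⟩
    have h1P : (1 : L0) ∈ P1 := by
      rw [hmem1, hP0, Finset.mem_image]
      exact ⟨x₁, hx₁, inv_mul_cancel₀ hy0⟩
    have hu0 : u ≠ 0 := by
      have := huc 0
      rwa [map_zero] at this
    have hn0 : Module.finrank (RatFunc k) L0 ≤ n :=
      le_trans (Submodule.finrank_le L0.toSubalgebra.toSubmodule) hn
    have hno := global2 Q g0 (by rw [hgd]; exact hd) P1 hst1 n _ _ (JJ d n) rfl rfl
      (by rw [hgd]; rfl) (by rw [hgd, hcard1]; exact hcon) 0 1 h0P h1P one_ne_zero (by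
        intro S q hq0 hq hqS
        have hpole : ∀ v, (Q.pole v u : ℝ) ≤ q v := by
          intro v
          have h1 : Q.G v (-⌊q v⌋) u := by
            have hspan : ∀ x : L0, x ∈ Submodule.span k (P1 : Set L0) → Q.G v (-⌊q v⌋) x := by
              intro x hx
              induction hx using Submodule.span_induction with
              | mem x hx =>
                intro hx0
                have h2 := hq v x hx hx0
                rw [sub_zero, sub_zero, ord_one, Int.cast_zero, zero_sub] at h2
                have h3 : -Q.ord v x ≤ ⌊q v⌋ := by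
                  rw [Int.le_floor]
                  push_cast
                  exact h2
                linarith
              | zero => exact G_zero
              | add x y _ _ hx hy => exact G_add hx hy
              | smul c x _ hx =>
                rw [Algebra.smul_def]
                simpa using G_mul (G_alg (Q := Q) (v := v) c) hx
            exact hspan u huP
          have h2 := h1 hu0
          have h3 : Q.pole v u ≤ ⌊q v⌋ := by
            rw [pole_of_ne hu0]
            apply max_le
            · rw [Int.le_floor]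
              simpa using hq0 v
            · linarith
          calc (Q.pole v u : ℝ) ≤ (⌊q v⌋ : ℝ) := by exact_mod_cast h3
            _ ≤ q v := Int.floor_le _
        have h1 := hQ S (by
          intro v hv
          have h2 := hpole v
          rw [hqS v hv] at h2
          have h3 : Q.pole v u ≤ 0 := by exact_mod_cast h2
          exact le_antisymm h3 (pole_nonneg v u))
        have h2 : (Q.lossT : ℝ) ≤ 2 * (Module.finrank (RatFunc k) L0 : ℝ) *
            ∑ v ∈ S, (Q.wt v : ℝ) * (Q.pole v u : ℝ) := by
          exact_mod_cast h1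
        refine h2.trans ?_
        have h3 : ∑ v ∈ S, (Q.wt v : ℝ) * (Q.pole v u : ℝ) ≤ ∑ v ∈ S, (Q.wt v : ℝ) * q v :=
          Finset.sum_le_sum fun v _ => mul_le_mul_of_nonneg_left (hpole v)
            (by exact_mod_cast Q.wt_nonneg v)
        have h4 : (0 : ℝ) ≤ ∑ v ∈ S, (Q.wt v : ℝ) * (Q.pole v u : ℝ) :=
          Finset.sum_nonneg fun v _ => mul_nonneg (by exact_mod_cast Q.wt_nonneg v)
            (by exact_mod_cast pole_nonneg v u)
        have h5 : (Module.finrank (RatFunc k) L0 : ℝ) ≤ n := by exact_mod_cast hn0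
        apply mul_le_mul _ h3 h4 (by positivity)
        linarith)
    have hg00 : g0 ≠ 0 := by
      rintro rfl
      rw [natDegree_zero] at hgd
      omega
    obtain ⟨S, -, hSA, -, hSP⟩ := exists_S Q g0 hg00 P1
    obtain ⟨y', b', hy', g, hg⟩ := iso_of_no_bad Q g0 hg00 P1 hst1 S hSA hSP hno
      (by omega) (by omega)
    refine hiso ⟨y * (y' : L), y * (b' : L) + x₀, mul_ne_zero hy0 (by simpa using hy'), g, ?_⟩
    rw [← aff_aff y x₀ (y' : L) (b' : L) hy0 f, ← hf0, ← hg0]
    have h2 := aff_map (algebraMap L0 L) y' b' g0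
    rw [← hg, Polynomial.map_map] at h2
    exact h2

end Core

/-- **Strong uniform boundedness for all polynomials.** -/
theorem sub_all (k L : Type*) [Field k] [CharZero k] [Field L] [Algebra k L] (t : L)
    (ht : Transcendental k t) [FiniteDimensional (IntermediateField.adjoin k {t}) L]
    (n : ℕ) (hn : Module.finrank (IntermediateField.adjoin k {t}) L ≤ n)
    (f : L[X]) (hd : 2 ≤ f.natDegree)
    (hiso : ¬ ∃ y b : L, y ≠ 0 ∧ ∀ m, IsAlgebraic k ((aff y b f).coeff m)) :
    (PrePer f).encard < ((f.natDegree ^ (12 * JJ f.natDegree n) : ℕ) : ℕ∞) := by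
  classical
  obtain ⟨inst, hst, hfin, hle⟩ := exists_ratAlg k L t ht
  have : CharZero (algebraicClosure k L) := charZero_of_injective_algebraMap
    (algebraMap k (algebraicClosure k L)).injective
  have halg : ∀ x : L, IsAlgebraic (algebraicClosure k L) x →
      ∃ c : algebraicClosure k L, algebraMap (algebraicClosure k L) L c = x := by
    intro y hy
    have h1 : IsAlgebraic k y := hy.restrictScalars k
    exact ⟨⟨y, h1.isIntegral⟩, rfl⟩
  have hiso1 : ¬ ∃ y b : L, y ≠ 0 ∧ ∃ g : (algebraicClosure k L)[X],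
      g.map (algebraMap (algebraicClosure k L) L) = aff y b f := by
    rintro ⟨y, b, hy, g, hg⟩
    refine hiso ⟨y, b, hy, fun m => ?_⟩
    rw [← hg, coeff_map]
    exact mem_algebraicClosure_iff.mp (g.coeff m).2
  by_contra hcon
  push Not at hcon
  obtain ⟨T, hTs, hT⟩ := Set.exists_subset_encard_eq hcon
  have hTf : T.Finite := by
    apply Set.finite_of_encard_eq_coe (k := f.natDegree ^ (12 * JJ f.natDegree n))
    rw [hT]
  lift T to Finset L using hTf
  obtain ⟨P, hTP, hP⟩ := exists_stab f T fun z hz => hTs (by simpa using hz)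
  have h1 := strong_all (k := algebraicClosure k L) halg (hle.trans hn) f hd P hP hiso1
  have h2 := Finset.card_le_card hTP
  rw [Set.encard_coe_eq_coe_finsetCard] at hT
  have h3 : T.card = f.natDegree ^ (12 * JJ f.natDegree n) := by
    exact_mod_cast hT
  omega

end Pool.Agent.W277.UG
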