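import Mathlib
import Pool.Agent.W277.UG.D10

/-!
# The final statement
-/

namespace Pool.Agent.W277.UG

open Polynomial Pool.Agent.W277.UB Pool.Agent.W277.UC Pool.Agent.W277.UD

/-- A finite extension of `k(t)` is finitely generated. -/
lemma fg_of_fin (k L : Type*) [Field k] [Field L] [Algebra k L] (t : L)
    [FiniteDimensional (IntermediateField.adjoin k {t}) L] :
    (⊤ : IntermediateField k L).FG := by
  classical
  let b := Module.finBasis (IntermediateField.adjoin k {t}) L
  refine ⟨insert t (Finset.univ.image b), ?_⟩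
  rw [eq_top_iff]
  intro x _
  rw [← b.sum_repr x]
  refine sum_mem fun i _ => ?_
  rw [Algebra.smul_def]
  apply mul_mem
  · have h1 : IntermediateField.adjoin k {t} ≤
        IntermediateField.adjoin k (↑(insert t (Finset.univ.image b)) : Set L) :=
      IntermediateField.adjoin.mono k _ _ (by simp)
    exact h1 (b.repr x i).2
  · exact IntermediateField.subset_adjoin _ _ (by simp)

universe u1 u2

/-- The final statement. -/
theorem final_poly (k : Type u1) (L : Type u2) [Field k] [CharZero k] [Field L] [Algebra k L]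
    (t : L) (ht : Transcendental k t) [FiniteDimensional (IntermediateField.adjoin k {t}) L] :
    ∃ c : ℕ, ((∃ t' : L, IntermediateField.adjoin k {t'} = ⊤) → c = 0) ∧
      ∀ (n d : ℕ) (f : L[X]), Module.finrank (IntermediateField.adjoin k {t}) L ≤ n →
        2 ≤ d → f.natDegree = d →
        (¬ ∃ y b : L, y ≠ 0 ∧ ∀ m, IsAlgebraic k ((aff y b f).coeff m)) →
        (PrePer f).encard <
          ((d ^ (24 * (1 + (8 * d + 16 * n + 15) * d ^ (32 * d ^ 2 * (d + 1)))) : ℕ) : ℕ∞) ∧
        (PrePer f).encard ≤ ((max (d ^ 96) (d ^ (c * d ^ 2)) : ℕ) : ℕ∞) ∧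
        ∀ (e : ℕ) (A b : L), A ≠ 0 → (f.comp (X + C b) - C A * X ^ d).natDegree ≤ e →
          n * (e + 2) ^ 4 ≤ d → (PrePer f).encard ≤ ((d ^ 2 + 1 : ℕ) : ℕ∞) := by
  obtain ⟨c, hc0, hc⟩ := ubp_all k L (fg_of_fin k L t) ⟨t, ht, inferInstance⟩
  refine ⟨c, hc0, fun n d f hn hd hf hiso => ⟨?_, ?_, ?_⟩⟩
  · have h := sub_all k L t ht n hn f (by rw [hf]; exact hd) hiso
    rw [hf] at h
    have h2 : 12 * JJ d n = 24 * (1 + (8 * d + 16 * n + 15) * d ^ (32 * d ^ 2 * (d + 1))) := by
      unfold JJ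
      ring
    rwa [h2] at h
  · have h := hc f (by rw [hf]; exact hd) hiso
    rwa [hf] at h
  · intro e A b hA he hne
    exact poly_strong k L t ht n e d hn hne f A b hA he hiso

end Pool.Agent.W277.UG
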