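import Mathlib
import Pool.Agent.W277.UG.D11

/-!
# Geometric uniform boundedness for polynomials
-/

namespace Pool.Agent.W277.UG

open Polynomial Pool.Agent.W277.UB Pool.Agent.W277.UC Pool.Agent.W277.UD

/-- The first bound. -/
def Bdn (d n : ℕ) : ℕ := d ^ (24 * (1 + (8 * d + 16 * n + 15) * d ^ (32 * d ^ 2 * (d + 1))))

/-- `F` is a function field over `k` of gonality at most `D`. -/
def GonLE (k F : Type*) [Field k] [Field F] [Algebra k F] (D : ℕ) : Prop :=
  ∃ t : F, Transcendental k t ∧ FiniteDimensional (IntermediateField.adjoin k {t}) F ∧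
    Module.finrank (IntermediateField.adjoin k {t}) F ≤ D

/-- The orbit of a preperiodic point over a field of bounded gonality is short. -/
lemma short_orbit (k L : Type*) [Field k] [CharZero k] [Field L] [Algebra k L] (D d : ℕ)
    (hL : GonLE k L D) (f : L[X]) (hd : 2 ≤ d) (hf : f.natDegree = d)
    (hiso : ¬ ∃ y b : L, y ≠ 0 ∧ ∀ m, IsAlgebraic k ((aff y b f).coeff m)) (x : L)
    (hx : (Set.range fun m : ℕ => (fun z => f.eval z)^[m] x).Finite) :
    ∃ b a : ℕ, b < a ∧ a < Bdn d D ∧
      (fun z => f.eval z)^[a] x = (fun z => f.eval z)^[b] x := by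
  classical
  obtain ⟨t, ht, hfin, hn⟩ := hL
  have h1 := sub_all k L t ht D hn f (by rw [hf]; exact hd) hiso
  rw [hf] at h1
  have h2 : 12 * JJ d D = 24 * (1 + (8 * d + 16 * D + 15) * d ^ (32 * d ^ 2 * (d + 1))) := by
    unfold JJ
    ring
  rw [h2] at h1
  by_contra hcon
  push Not at hcon
  have hinj : Set.InjOn (fun m : ℕ => (fun z => f.eval z)^[m] x) (Finset.range (Bdn d D)) := by
    intro a ha b hb hab
    rw [Finset.coe_range, Set.mem_Iio] at ha hb
    rcases lt_trichotomy a b with h | h | h
    · exact absurd hab.symm (hcon a b h hb)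
    · exact h
    · exact absurd hab (hcon b a h ha)
  have hsub : ((Finset.range (Bdn d D)).image fun m : ℕ => (fun z => f.eval z)^[m] x :
      Finset L) ≤ (hx.toFinset) := by
    intro y hy
    rw [Set.Finite.mem_toFinset]
    obtain ⟨m, _, rfl⟩ := Finset.mem_image.mp hy
    exact ⟨m, rfl⟩
  have hpre : ((hx.toFinset : Finset L) : Set L) ⊆ PrePer f := by
    intro y hy
    rw [Set.Finite.coe_toFinset] at hy
    obtain ⟨m, rfl⟩ := hy
    apply hx.subset
    rintro w ⟨n, rfl⟩
    refine ⟨n + m, ?_⟩
    simp only
    rw [Function.iterate_add_apply]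
  have h3 := Set.encard_le_encard hpre
  rw [Set.encard_coe_eq_coe_finsetCard] at h3
  have h4 := Finset.card_le_card hsub
  rw [Finset.card_image_of_injOn hinj, Finset.card_range] at h4
  have h5 := h3.trans_lt h1
  have h6 : hx.toFinset.card < Bdn d D := by
    unfold Bdn
    exact_mod_cast h5
  omega

/-- **Geometric uniform boundedness for polynomials.** -/
theorem geom_bound (k K Ω : Type*) [Field k] [CharZero k] [Field K] [Field Ω] [Algebra k K]
    [Algebra K Ω] [Algebra k Ω] [IsScalarTower k K Ω] (D d : ℕ) (f : K[X]) (hd : 2 ≤ d)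
    (hf : f.natDegree = d)
    (hiso : ¬ ∃ y b : Ω, y ≠ 0 ∧
      ∀ m, IsAlgebraic k ((aff y b (f.map (algebraMap K Ω))).coeff m)) :
    {x : Ω | (Set.range fun m : ℕ => (fun z => (f.map (algebraMap K Ω)).eval z)^[m] x).Finite ∧
      GonLE k (IntermediateField.adjoin K {x}) D}.encard ≤
        ((Bdn d D * d ^ Bdn d D : ℕ) : ℕ∞) := by
  classical
  set g := f.map (algebraMap K Ω) with hg
  have hgd : g.natDegree = d := by rw [hg, natDegree_map, hf]
  set G : ℕ → ℕ → Polynomial Ω := fun a b => (g.comp^[a] X) - (g.comp^[b] X) with hG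
  have hit : ∀ a, (g.comp^[a] X).natDegree = d ^ a := by
    intro a
    rw [natDegree_iterate_comp, natDegree_X, mul_one, hgd]
  have hev : ∀ a x, (g.comp^[a] X).eval x = (fun z => g.eval z)^[a] x := by
    intro a x
    rw [iterate_comp_eval, eval_X]
  set U : Finset Ω := (Finset.range (Bdn d D)).biUnion fun a =>
    (Finset.range a).biUnion fun b => (G a b).roots.toFinset with hU
  have hUc : U.card ≤ Bdn d D * d ^ Bdn d D := by
    have h1 : ∀ a b, b < a → (G a b).roots.toFinset.card ≤ d ^ a := by
      intro a b hab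
      refine (Multiset.toFinset_card_le _).trans ((card_roots' _).trans ?_)
      refine (natDegree_sub_le _ _).trans ?_
      rw [hit, hit]
      exact max_le le_rfl (Nat.pow_le_pow_right (by omega) hab.le)
    have h2 : ∀ a, ((Finset.range a).biUnion fun b => (G a b).roots.toFinset).card ≤
        a * d ^ a := by
      intro a
      refine Finset.card_biUnion_le.trans ?_
      calc ∑ b ∈ Finset.range a, (G a b).roots.toFinset.card ≤ ∑ _b ∈ Finset.range a, d ^ a :=
            Finset.sum_le_sum fun b hb => h1 a b (Finset.mem_range.mp hb)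
        _ = a * d ^ a := by rw [Finset.sum_const, Finset.card_range, smul_eq_mul]
    refine Finset.card_biUnion_le.trans ?_
    have h3 : ∀ n, ∑ a ∈ Finset.range n, d ^ a ≤ d ^ n := by
      intro n
      induction n with
      | zero => simp
      | succ n ih =>
        rw [Finset.sum_range_succ, pow_succ]
        have : d ^ n * 2 ≤ d ^ n * d := Nat.mul_le_mul_left _ hd
        omega
    calc ∑ a ∈ Finset.range (Bdn d D),
          ((Finset.range a).biUnion fun b => (G a b).roots.toFinset).card
        ≤ ∑ a ∈ Finset.range (Bdn d D), Bdn d D * d ^ a := by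
          apply Finset.sum_le_sum
          intro a ha
          exact (h2 a).trans (Nat.mul_le_mul_right _ (Finset.mem_range.mp ha).le)
      _ = Bdn d D * ∑ a ∈ Finset.range (Bdn d D), d ^ a := by rw [Finset.mul_sum]
      _ ≤ _ := Nat.mul_le_mul_left _ (h3 _)
  have hsub : {x : Ω | (Set.range fun m : ℕ => (fun z => g.eval z)^[m] x).Finite ∧
      GonLE k (IntermediateField.adjoin K {x}) D} ⊆ (U : Set Ω) := by
    rintro x ⟨hx, hgon⟩
    set L := IntermediateField.adjoin K {x} with hL
    let x' : L := ⟨x, IntermediateField.mem_adjoin_simple_self K x⟩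
    set fL := f.map (algebraMap K L) with hfL
    have hmap : fL.map (algebraMap L Ω) = g := by
      rw [hfL, Polynomial.map_map, ← IsScalarTower.algebraMap_eq K L Ω]
    have hiter : ∀ m (z : L), (((fun z => fL.eval z)^[m] z : L) : Ω) =
        (fun z => g.eval z)^[m] (z : Ω) := by
      intro m
      induction m with
      | zero => intro z; rfl
      | succ m ih =>
        intro z
        rw [Function.iterate_succ_apply, Function.iterate_succ_apply, ih]
        congr 1
        show ((fL.eval z : L) : Ω) = g.eval (z : Ω)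
        rw [← hmap]
        exact (eval_map_apply (algebraMap L Ω) z).symm
    have hx' : (Set.range fun m : ℕ => (fun z => fL.eval z)^[m] x').Finite := by
      apply Set.Finite.of_finite_image (f := (Subtype.val : L → Ω)) _
        Subtype.val_injective.injOn
      apply hx.subset
      rintro w ⟨_, ⟨m, rfl⟩, rfl⟩
      exact ⟨m, (hiter m x').symm⟩
    have htow : IsScalarTower k L Ω := IsScalarTower.of_algebraMap_eq fun c => rfl
    have hiso' : ¬ ∃ y b : L, y ≠ 0 ∧ ∀ m, IsAlgebraic k ((aff y b fL).coeff m) := by
      rintro ⟨y, b, hy, h⟩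
      refine hiso ⟨(y : Ω), (b : Ω), by simpa using hy, fun m => ?_⟩
      have h1 := aff_map (algebraMap L Ω) y b fL
      rw [hmap] at h1
      have h2 : (aff (y : Ω) (b : Ω) g) = (aff y b fL).map (algebraMap L Ω) := h1.symm
      rw [h2, coeff_map]
      exact (h m).algebraMap
    obtain ⟨b, a, hba, haB, heq⟩ := short_orbit k L D d hgon fL hd
      (by rw [hfL, natDegree_map, hf]) hiso' x' hx'
    have heq' : (fun z => g.eval z)^[a] x = (fun z => g.eval z)^[b] x := by
      have h1 := congrArg (Subtype.val : L → Ω) heq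
      rw [hiter, hiter] at h1
      exact h1
    rw [hU, Finset.mem_coe, Finset.mem_biUnion]
    refine ⟨a, Finset.mem_range.mpr haB, Finset.mem_biUnion.mpr ⟨b, Finset.mem_range.mpr hba, ?_⟩⟩
    rw [Multiset.mem_toFinset, mem_roots']
    constructor
    · intro h0
      have h1 : (g.comp^[a] X) = (g.comp^[b] X) := sub_eq_zero.mp h0
      have h2 := congrArg natDegree h1
      rw [hit, hit] at h2
      have h3 := Nat.pow_right_injective hd h2
      omega
    · show (G a b).eval x = 0
      rw [hG]
      simp only
      rw [eval_sub, hev, hev, heq', sub_self]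
  refine (Set.encard_le_encard hsub).trans ?_
  rw [Set.encard_coe_eq_coe_finsetCard]
  exact_mod_cast hUc

end Pool.Agent.W277.UG
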