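import Pool.Agent.W277.UG.A1
import Pool.Agent.W277.UG.A6

/-!
# The system attached to a bad place
-/

namespace Pool.Agent.W277.UG

open Pool.Agent.W277.UB Finset Polynomial

universe u

lemma exists_root_family {Ω : Type*} [Field Ω] [IsAlgClosed Ω] (g : Polynomial Ω) :
    ∃ ζ : Fin g.natDegree → Ω, ∀ z, g.eval z = g.leadingCoeff * ∏ l, (z - ζ l) := by
  have hs := IsAlgClosed.splits g
  have hcard : g.roots.toList.length = g.natDegree := by
    rw [Multiset.length_toList]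
    exact hs.natDegree_eq_card_roots.symm
  refine ⟨fun i => g.roots.toList[(finCongr hcard.symm i).1], fun z => ?_⟩
  rw [hs.eval_eq_prod_roots z]
  congr 1
  have h1 : ∏ l : Fin g.natDegree, (z - g.roots.toList[(finCongr hcard.symm l).1]) =
      ∏ l : Fin g.roots.toList.length, (z - g.roots.toList[l.1]) :=
    Equiv.prod_comp (finCongr hcard.symm) fun l => (z - g.roots.toList[l.1])
  rw [h1]
  have h2 := Fin.prod_univ_fun_getElem g.roots.toList (fun a => z - a)
  rw [h2, ← Multiset.prod_coe, ← Multiset.map_coe, Multiset.coe_toList]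

lemma dense_of_algClosed {Ω : Type*} [NormedField Ω] [IsAlgClosed Ω] (w₀ : Ω) (hw : 1 < ‖w₀‖)
    (a b : ℝ) (ha : 0 < a) (hab : a < b) : ∃ w : Ω, a < ‖w‖ ∧ ‖w‖ < b := by
  have hL : 0 < Real.log ‖w₀‖ := Real.log_pos hw
  have hlog : Real.log a / Real.log ‖w₀‖ < Real.log b / Real.log ‖w₀‖ :=
    div_lt_div_of_pos_right (Real.log_lt_log ha hab) hL
  obtain ⟨q, hq1, hq2⟩ := exists_rat_btwn hlog
  obtain ⟨w, hw'⟩ := IsAlgClosed.exists_pow_nat_eq (w₀ ^ q.num) q.pos
  have hw₀ : w₀ ≠ 0 := by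
    rintro rfl
    rw [norm_zero] at hw
    linarith
  have hn : ‖w‖ ^ q.den = ‖w₀‖ ^ q.num := by
    rw [← norm_pow, hw', norm_zpow]
  have hwpos : 0 < ‖w‖ := by
    apply norm_pos_iff.mpr
    rintro rfl
    rw [zero_pow q.pos.ne'] at hw'
    exact (zpow_ne_zero _ hw₀) hw'.symm
  have hlogw : Real.log ‖w‖ = q * Real.log ‖w₀‖ := by
    have h1 := congrArg Real.log hn
    rw [Real.log_pow, Real.log_zpow] at h1
    have hden : (q.den : ℝ) ≠ 0 := by exact_mod_cast q.pos.ne'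
    have h2 : (q : ℝ) = q.num / q.den := by exact_mod_cast (Rat.num_div_den q).symm
    rw [h2]
    field_simp
    linarith
  refine ⟨w, ?_, ?_⟩
  · rw [← Real.log_lt_log_iff ha hwpos, hlogw]
    rwa [div_lt_iff₀ hL] at hq1
  · rw [← Real.log_lt_log_iff hwpos (ha.trans hab), hlogw]
    rwa [lt_div_iff₀ hL] at hq2

variable {k : Type*} {K : Type u} [Field k] [Field K] [Algebra k K]

/-- The system attached to a bad place. -/
theorem exists_sys [CharZero k] (Q : PlaceData k K) (v : Q.Pl) (f : K[X]) (d : ℕ)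
    (hd : 2 ≤ d) (hf : f.natDegree = d) (P : Finset K) (hst : ∀ x ∈ P, f.eval x ∈ P)
    (x₁ y₁ : K) (hx₁ : x₁ ∈ P) (hy₁ : y₁ ∈ P) (hxy : x₁ ≠ y₁)
    (hbad : (Q.ord v (x₁ - y₁) : ℝ) < -(Q.ord v f.leadingCoeff) / ((d : ℝ) - 1)) :
    ∃ (Ω : Type u) (_ : NormedField Ω) (_ : IsUltrametricDist Ω) (ι : K →+* Ω) (S : Sys Ω),
      (∀ x : K, x ≠ 0 → ‖ι x‖ = Real.exp (-(Q.ord v x : ℝ))) ∧
      (∀ x : K, S.F (ι x) = ι (f.eval x)) ∧ S.d = d ∧
      S.V = -(Q.ord v f.leadingCoeff) / ((d : ℝ) - 1) ∧ (∀ x ∈ P, S.D (ι x)) ∧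
      -(Q.ord v (x₁ - y₁) : ℝ) ≤ Real.log S.R := by
  classical
  set V : ℝ := -(Q.ord v f.leadingCoeff) / ((d : ℝ) - 1) with hV
  have hf0 : f ≠ 0 := by
    rintro rfl
    rw [natDegree_zero] at hf
    omega
  have hA0 : f.leadingCoeff ≠ 0 := leadingCoeff_ne_zero.mpr hf0
  have hd1 : (0 : ℝ) < (d : ℝ) - 1 := by
    have : (2 : ℝ) ≤ d := by exact_mod_cast hd
    linarith
  have hdV : ((d : ℝ) - 1) * V = -(Q.ord v f.leadingCoeff) := by
    rw [hV]
    field_simp
  have hxy0 : x₁ - y₁ ≠ 0 := sub_ne_zero.mpr hxy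
  -- a nontrivial element
  obtain ⟨π, hπ0, hπ⟩ : ∃ π : K, π ≠ 0 ∧ Q.ord v π ≠ 0 := by
    by_cases h : Q.ord v (x₁ - y₁) = 0
    · refine ⟨f.leadingCoeff, hA0, fun h' => ?_⟩
      rw [hV, h, h'] at hbad
      simp at hbad
    · exact ⟨x₁ - y₁, hxy0, h⟩
  obtain ⟨Ω, i1, i2, i3, ι, hι⟩ := exists_ext Q v π hπ0 hπ
  have hιinj : Function.Injective ι := ι.injective
  set g : Polynomial Ω := f.map ι with hg
  have hgd : g.natDegree = d := by rw [hg, natDegree_map, hf]
  have hgl : g.leadingCoeff = ι f.leadingCoeff := by rw [hg, leadingCoeff_map]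
  have hnl : ‖g.leadingCoeff‖ = Real.exp (((d : ℝ) - 1) * V) := by
    rw [hgl, hι _ hA0, hdV]
  have hgdeg : g.degree = d := by
    rw [degree_eq_natDegree (by
      intro h
      rw [h, natDegree_zero] at hgd
      omega), hgd]
  -- root families for `g - q` with `deg q ≤ 1`
  have hfam : ∀ q : Polynomial Ω, q.degree < g.degree → ∃ ζ : Fin d → Ω, ∀ z,
      ‖g.eval z - q.eval z‖ = Real.exp (((d : ℝ) - 1) * V) * ∏ l, ‖z - ζ l‖ := by
    intro q hq
    have h1 : (g - q).natDegree = d := by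
      rw [← hgd]
      exact natDegree_eq_of_degree_eq (degree_sub_eq_left_of_degree_lt hq)
    have h2 : (g - q).leadingCoeff = g.leadingCoeff := leadingCoeff_sub_of_degree_lt hq
    obtain ⟨ζ, hζ⟩ := exists_root_family (g - q)
    refine ⟨ζ ∘ finCongr h1.symm, fun z => ?_⟩
    rw [← eval_sub, hζ z, norm_mul, h2, hnl, norm_prod]
    congr 1
    exact (Equiv.prod_comp (finCongr h1.symm) fun l => ‖z - ζ l‖).symm
  obtain ⟨ξ, hξ⟩ := hfam X (by
    rw [degree_X, hgdeg]
    exact_mod_cast (by omega : 1 < d))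
  simp only [eval_X] at hξ
  have hfix : ∀ l, g.eval (ξ l) = ξ l := by
    intro l
    have h1 := hξ (ξ l)
    have h2 : ∏ l', ‖ξ l - ξ l'‖ = 0 := by
      apply Finset.prod_eq_zero (Finset.mem_univ l)
      simp
    rw [h2, mul_zero, norm_eq_zero, sub_eq_zero] at h1
    exact h1
  -- the radius
  have hne : (P ×ˢ (Finset.univ : Finset (Fin d))).Nonempty :=
    ⟨(x₁, ⟨0, by omega⟩), Finset.mem_product.mpr ⟨hx₁, Finset.mem_univ _⟩⟩
  obtain ⟨⟨a₀, l₀⟩, hmem, hmax⟩ := Finset.exists_max_image _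
    (fun q : K × Fin d => ‖ι q.1 - ξ q.2‖) hne
  rw [Finset.mem_product] at hmem
  have hmax' : ∀ x ∈ P, ∀ l, ‖ι x - ξ l‖ ≤ ‖ι a₀ - ξ l₀‖ := fun x hx l =>
    hmax (x, l) (Finset.mem_product.mpr ⟨hx, Finset.mem_univ _⟩)
  set R : ℝ := ‖ι a₀ - ξ l₀‖ with hR
  have hPP : ∀ x ∈ P, ∀ y ∈ P, ‖ι x - ι y‖ ≤ R := by
    intro x hx y hy
    refine tri_le (hmax' x hx l₀) ?_
    rw [nsc]
    exact hmax' y hy l₀
  have hxyR : Real.exp (-(Q.ord v (x₁ - y₁) : ℝ)) ≤ R := by
    rw [← hι _ hxy0, map_sub]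
    exact hPP _ hx₁ _ hy₁
  have hRpos : 0 < R := lt_of_lt_of_le (Real.exp_pos _) hxyR
  have hlogR : -(Q.ord v (x₁ - y₁) : ℝ) ≤ Real.log R := by
    have := Real.log_le_log (Real.exp_pos _) hxyR
    rwa [Real.log_exp] at this
  have ht : 0 < V + Real.log R := by linarith
  have hgι : ∀ x : K, g.eval (ι x) = ι (f.eval x) := by
    intro x
    rw [hg, eval_map, eval₂_at_apply]
  have hiter : ∀ n, ∀ x ∈ P, ∃ y ∈ P, (fun z => g.eval z)^[n] (ι x) = ι y := by
    intro n
    induction n with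
    | zero => intro x hx; exact ⟨x, hx, rfl⟩
    | succ n ih =>
      intro x hx
      obtain ⟨y, hy, h⟩ := ih x hx
      exact ⟨f.eval y, hst y hy, by rw [Function.iterate_succ_apply', h, hgι]⟩
  obtain ⟨w₀, hw₀⟩ : ∃ w₀ : Ω, 1 < ‖w₀‖ := by
    rcases lt_or_gt_of_ne hπ with h | h
    · refine ⟨ι π, ?_⟩
      rw [hι _ hπ0]
      apply Real.one_lt_exp_iff.mpr
      have : (Q.ord v π : ℝ) < 0 := by exact_mod_cast h
      linarith
    · refine ⟨ι π⁻¹, ?_⟩
      rw [map_inv₀, norm_inv, hι _ hπ0, one_lt_inv₀ (Real.exp_pos _)]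
      apply Real.exp_lt_one_iff.mpr
      have : (0 : ℝ) < Q.ord v π := by exact_mod_cast h
      linarith
  let S : Sys Ω :=
    { F := fun z => g.eval z
      d := d
      hd := hd
      V := V
      R := R
      hR := hRpos
      x₀ := ι a₀
      z₀ := ξ l₀
      hxz := rfl
      ht := ht
      back := by
        intro z hz
        by_contra hcon
        push Not at hcon
        set ρ := ‖z - ι a₀‖ with hρ
        have h1 : ∀ l, ‖z - ξ l‖ = ρ := by
          intro l
          have h2 : ‖ξ l - ι a₀‖ < ‖ι a₀ - z‖ := by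
            rw [nsc (ξ l), nsc (ι a₀) z]
            exact (hmax' a₀ hmem.1 l).trans_lt hcon
          rw [nsc, tri_lt h2, nsc]
        have h2 := hξ z
        simp_rw [h1] at h2
        rw [Finset.prod_const, Finset.card_univ, Fintype.card_fin] at h2
        have hρpos : 0 < ρ := hRpos.trans hcon
        have h3 : ρ < ‖g.eval z - z‖ := by
          rw [h2, ← Real.log_lt_log_iff hρpos (by positivity),
            Real.log_mul (Real.exp_pos _).ne' (by positivity), Real.log_exp, Real.log_pow]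
          have h4 : Real.log R < Real.log ρ := Real.log_lt_log hRpos hcon
          have h5 : 0 < ((d : ℝ) - 1) * (V + Real.log ρ) := mul_pos hd1 (by linarith)
          nlinarith
        have h4 : ‖ι a₀ - g.eval z‖ = ‖z - g.eval z‖ := by
          apply tri_lt
          rw [nsc, nsc z (g.eval z)]
          exact h3
        rw [nsc, h4, nsc] at hz
        linarith
      orbx := by
        intro n
        obtain ⟨y, hy, h⟩ := hiter n a₀ hmem.1
        rw [h]
        exact hPP y hy a₀ hmem.1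
      fixz := hfix l₀
      roots := by
        intro b
        obtain ⟨ζ, hζ⟩ := hfam (C b) (by
          rw [hgdeg]
          refine lt_of_le_of_lt degree_C_le ?_
          exact_mod_cast (by omega : 0 < d))
        simp only [eval_C] at hζ
        exact ⟨ζ, hζ⟩
      dense := fun a b => dense_of_algClosed w₀ hw₀ a b
      nat := by
        intro n hn
        have h1 : (n : Ω) = ι (algebraMap k K (n : k)) := by simp
        have h2 : (n : k) ≠ 0 := Nat.cast_ne_zero.mpr hn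
        rw [h1, hι _ ((_root_.map_ne_zero _).mpr h2), Q.ord_alg v _ h2]
        simp }
  exact ⟨Ω, i1, i3, ι, S, hι, hgι, rfl, rfl, fun x hx => hPP x hx a₀ hmem.1, hlogR⟩

end Pool.Agent.W277.UG
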