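import Pool.Agent.W277.UG.A7

/-!
# The local theorem at a bad place
-/

namespace Pool.Agent.W277.UG

open Pool.Agent.W277.UB Finset Polynomial

universe u

variable {k : Type*} {K : Type u} [Field k] [Field K] [Algebra k K]

/-- the pairwise excess of a finite set at a place -/
noncomputable def exc (Q : PlaceData k K) (v : Q.Pl) (V : ℝ) (P : Finset K) : ℝ := by
  classical
  exact ∑ x ∈ P, ∑ y ∈ P, if x = y then 0 else ((Q.ord v (x - y) : ℝ) - V)

/-- The local theorem at a bad place. -/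
theorem local_bad [CharZero k] (Q : PlaceData k K) (v : Q.Pl) (f : K[X]) (d : ℕ)
    (hd : 2 ≤ d) (hf : f.natDegree = d) (P : Finset K) (hst : ∀ x ∈ P, f.eval x ∈ P)
    (V : ℝ) (hV : V = -(Q.ord v f.leadingCoeff) / ((d : ℝ) - 1))
    (hbad : ∃ x ∈ P, ∃ y ∈ P, x ≠ y ∧ (Q.ord v (x - y) : ℝ) < V) (k₀ : ℕ) (hk₀ : 16 ≤ k₀)
    (hN : d ^ (2 * k₀) ≤ P.card) :
    ∃ t : ℝ, 1 / ((d : ℝ) - 1) ≤ t ∧
      (∀ x ∈ P, ∀ y ∈ P, x ≠ y → V - t ≤ Q.ord v (x - y)) ∧
      (-(2 * (P.card : ℝ) ^ 2 * t / (d : ℝ) ^ k₀) ≤ exc Q v V P) ∧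
      ((P.card : ℝ) ^ 2 * t / (2 * (d : ℝ) ^ 14) ≤ exc Q v V P ∨
        ∃ χ : K → Fin (d ^ 4), ∀ x ∈ P, ∀ y ∈ P, x ≠ y → χ x = χ y →
          V + 3 ≤ Q.ord v (x - y) ∧ V + t / d ≤ Q.ord v (x - y)) ∧
      ∃ χ : K → Fin (d ^ 2), ∀ x ∈ P, ∀ y ∈ P, x ≠ y → χ x = χ y → V < Q.ord v (x - y) := by
  classical
  obtain ⟨x₁, hx₁, y₁, hy₁, hxy, hb⟩ := hbad
  obtain ⟨Ω, i1, i2, ι, S, hι, hF, hSd, hSV, hPD, hR⟩ :=
    exists_sys Q v f d hd hf P hst x₁ y₁ hx₁ hy₁ hxy (by rw [← hV]; exact hb)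
  rw [← hV] at hSV
  have hdR : (2 : ℝ) ≤ d := by exact_mod_cast hd
  have hd1 : (0 : ℝ) < (d : ℝ) - 1 := by linarith
  have ht := S.t_pos
  set t := S.t with htdef
  have htR : Real.log S.R = t - V := by
    rw [htdef, ← hSV]
    unfold Sys.t
    ring
  -- the lower bound for `t`
  have ht1 : 1 / ((d : ℝ) - 1) ≤ t := by
    have h1 : V - Q.ord v (x₁ - y₁) ≤ t := by linarith
    refine le_trans ?_ h1
    have h2 : V - Q.ord v (x₁ - y₁) =
        ((-(Q.ord v f.leadingCoeff) - ((d : ℤ) - 1) * Q.ord v (x₁ - y₁) : ℤ) : ℝ) /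
          ((d : ℝ) - 1) := by
      rw [hV]
      push_cast
      field_simp
    rw [h2]
    apply div_le_div_of_nonneg_right _ hd1.le
    have h3 : (0 : ℝ) < V - Q.ord v (x₁ - y₁) := by linarith
    rw [h2] at h3
    have h4 := (div_pos_iff_of_pos_right hd1).mp h3
    have h5 : (0 : ℤ) < (-(Q.ord v f.leadingCoeff) - ((d : ℤ) - 1) * Q.ord v (x₁ - y₁) : ℤ) := by
      exact_mod_cast h4
    exact_mod_cast (by omega :
      (1 : ℤ) ≤ (-(Q.ord v f.leadingCoeff) - ((d : ℤ) - 1) * Q.ord v (x₁ - y₁) : ℤ))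
  -- the family of points
  have hιinj : Function.Injective ι := ι.injective
  let p : {x // x ∈ P} → Ω := fun x => ι x.1
  have hp : Function.Injective p := fun x y h => Subtype.ext (hιinj h)
  have hpD : ∀ i, S.D (p i) := fun i => hPD i.1 i.2
  have hpst : ∀ i, ∃ i', S.F (p i) = p i' := fun i =>
    ⟨⟨f.eval i.1, hst _ i.2⟩, hF i.1⟩
  haveI : Nonempty {x // x ∈ P} := ⟨⟨x₁, hx₁⟩⟩
  have hcard : Fintype.card {x // x ∈ P} = P.card := Fintype.card_coe P
  have hlog : ∀ x y : {x // x ∈ P}, x ≠ y → -Real.log ‖p x - p y‖ = Q.ord v (x.1 - y.1) := by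
    intro x y hxy
    have h1 : p x - p y = ι (x.1 - y.1) := by simp only [p, map_sub]
    rw [h1, hι _ (sub_ne_zero.mpr fun h => hxy (Subtype.ext h)), Real.log_exp]
    ring
  set N : ℝ := (P.card : ℝ) with hNdef
  have hN1 : (d : ℝ) ^ (2 * k₀) ≤ N := by
    rw [hNdef]
    exact_mod_cast hN
  have hd0 : (0 : ℝ) < d := by linarith
  have hNpos : 0 < N := lt_of_lt_of_le (by positivity) hN1
  -- the excess in terms of the pair energy
  have hexc : exc Q v V P = Sys.pairE p - (N ^ 2 - N) * V := by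
    unfold exc Sys.pairE
    have h1 : ∀ x : K, ∑ y ∈ P, (if x = y then 0 else ((Q.ord v (x - y) : ℝ) - V)) =
        ∑ y : {x // x ∈ P}, (if x = y.1 then 0 else ((Q.ord v (x - y.1) : ℝ) - V)) := by
      intro x
      exact (Finset.sum_coe_sort P (fun y => if x = y then (0 : ℝ) else
        ((Q.ord v (x - y) : ℝ) - V))).symm
    simp_rw [h1]
    rw [← Finset.sum_coe_sort P (fun x => ∑ y : {x // x ∈ P}, (if x = y.1 then (0 : ℝ) else
      ((Q.ord v (x - y.1) : ℝ) - V)))]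
    have h2 : (N ^ 2 - N) * V = ∑ x : {x // x ∈ P}, ∑ y : {x // x ∈ P},
        (if x = y then (0 : ℝ) else V) := by
      have h3 : ∀ x : {x // x ∈ P}, ∑ y : {x // x ∈ P}, (if x = y then (0 : ℝ) else V) =
          (N - 1) * V := by
        intro x
        have h4 : ∑ y : {x // x ∈ P}, (if x = y then (0 : ℝ) else V) =
            ∑ y : {x // x ∈ P}, (V - if x = y then V else 0) := by
          apply Finset.sum_congr rfl
          intro y _
          split_ifs <;> ring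
        rw [h4, Finset.sum_sub_distrib, Finset.sum_const, Finset.card_univ, hcard,
          Finset.sum_ite_eq, if_pos (Finset.mem_univ _), nsmul_eq_mul]
        ring
      simp_rw [h3]
      rw [Finset.sum_const, Finset.card_univ, hcard, nsmul_eq_mul]
      ring
    rw [h2, ← Finset.sum_sub_distrib]
    apply Finset.sum_congr rfl
    intro x _
    rw [← Finset.sum_sub_distrib]
    apply Finset.sum_congr rfl
    intro y _
    by_cases h : x = y
    · rw [if_pos h, if_pos h, if_pos (by rw [h]), sub_zero]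
    · rw [if_neg h, if_neg h, if_neg (fun h' => h (Subtype.ext h')), hlog x y h]
  have hdS : (S.d : ℝ) = d := by rw [hSd]
  have hpowN : (d : ℝ) ^ k₀ * t * N ≤ N ^ 2 * t / (d : ℝ) ^ k₀ := by
    rw [le_div_iff₀ (by positivity)]
    calc (d : ℝ) ^ k₀ * t * N * (d : ℝ) ^ k₀ = (d : ℝ) ^ (2 * k₀) * (t * N) := by ring
      _ ≤ N * (t * N) := mul_le_mul_of_nonneg_right hN1 (by positivity)
      _ = N ^ 2 * t := by ring
  have hbase : ∀ X : ℝ, V - t / (d : ℝ) ^ k₀ + X - (V + (d : ℝ) ^ k₀ * t) / N ≤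
      Sys.pairE p / N ^ 2 → N ^ 2 * X - 2 * N ^ 2 * t / (d : ℝ) ^ k₀ ≤ exc Q v V P := by
    intro X hX
    rw [le_div_iff₀ (by positivity)] at hX
    have h1 : (V - t / (d : ℝ) ^ k₀ + X - (V + (d : ℝ) ^ k₀ * t) / N) * N ^ 2 =
        N ^ 2 * V - N ^ 2 * t / (d : ℝ) ^ k₀ + N ^ 2 * X - N * V - (d : ℝ) ^ k₀ * t * N := by
      field_simp
      ring
    rw [h1] at hX
    rw [hexc]
    have h2 : 2 * N ^ 2 * t / (d : ℝ) ^ k₀ = N ^ 2 * t / (d : ℝ) ^ k₀ + N ^ 2 * t / (d : ℝ) ^ k₀ := by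
      ring
    rw [h2]
    linarith
  refine ⟨t, ht1, ?_, ?_, ?_, ?_⟩
  · intro x hx y hy hxy
    have h1 : ‖p ⟨x, hx⟩ - p ⟨y, hy⟩‖ ≤ S.R := Sys.D_sub (hpD _) (hpD _)
    have hne : (⟨x, hx⟩ : {x // x ∈ P}) ≠ ⟨y, hy⟩ := fun h => hxy (congrArg Subtype.val h)
    have h2 : 0 < ‖p ⟨x, hx⟩ - p ⟨y, hy⟩‖ := norm_pos_iff.mpr (sub_ne_zero.mpr fun h => hne (hp h))
    have h3 := Real.log_le_log h2 h1
    have h4 := hlog _ _ hne
    simp only at h4
    linarith
  · have h1 := Sys.pairE_ge p hp hpD hpst k₀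
    rw [hdS, hSV, ← htdef, hcard, ← hNdef] at h1
    have h2 := hbase 0 (by linarith)
    linarith
  · -- irregular or regular
    by_cases hirr : ∃ i₀ : {x // x ∈ P}, ∃ j : ℕ, j ≤ 4 ∧ ∀ i, ‖p i - p i₀‖ ≠ S.r j (p i₀)
    · left
      obtain ⟨i₀, j, hj, hi₀⟩ := hirr
      have h1 := Sys.pairE_ge_irr p hp hpD hpst k₀ j (by omega) i₀ hi₀
      rw [hdS, hSV, ← htdef, hcard, ← hNdef] at h1
      have h2 := hbase (t / ((d : ℝ) ^ j * ((d : ℝ) ^ (j + 1)) ^ 2)) (by linarith)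
      have h3 : (d : ℝ) ^ j * ((d : ℝ) ^ (j + 1)) ^ 2 ≤ (d : ℝ) ^ 14 := by
        rw [← pow_mul, ← pow_add]
        apply pow_le_pow_right₀ (by linarith)
        omega
      have h4 : t / (d : ℝ) ^ 14 ≤ t / ((d : ℝ) ^ j * ((d : ℝ) ^ (j + 1)) ^ 2) :=
        div_le_div_of_nonneg_left ht.le (by positivity) h3
      have h5 : N ^ 2 * (t / (d : ℝ) ^ 14) ≤
          N ^ 2 * (t / ((d : ℝ) ^ j * ((d : ℝ) ^ (j + 1)) ^ 2)) :=
        mul_le_mul_of_nonneg_left h4 (by positivity)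
      have h6 : 2 * N ^ 2 * t / (d : ℝ) ^ k₀ ≤ N ^ 2 * t / (2 * (d : ℝ) ^ 14) := by
        rw [div_le_div_iff₀ (by positivity) (by positivity)]
        have h7 : (4 : ℝ) ≤ (d : ℝ) ^ 2 := by nlinarith
        have h8 : 0 ≤ N ^ 2 * t * (d : ℝ) ^ 14 := by positivity
        calc 2 * N ^ 2 * t * (2 * (d : ℝ) ^ 14) = 4 * (N ^ 2 * t * (d : ℝ) ^ 14) := by ring
          _ ≤ (d : ℝ) ^ 2 * (N ^ 2 * t * (d : ℝ) ^ 14) := mul_le_mul_of_nonneg_right h7 h8
          _ = N ^ 2 * t * (d : ℝ) ^ 16 := by ring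
          _ ≤ N ^ 2 * t * (d : ℝ) ^ k₀ :=
              mul_le_mul_of_nonneg_left (pow_le_pow_right₀ (by linarith) hk₀) (by positivity)
      have h9 : N ^ 2 * t / (2 * (d : ℝ) ^ 14) = N ^ 2 * (t / (d : ℝ) ^ 14) / 2 := by
        field_simp
      rw [h9] at h6 ⊢
      linarith
    · right
      push Not at hirr
      have hFD : ∀ j i, S.D (S.F^[j] (p i)) := by
        intro j i
        obtain ⟨i', hi'⟩ := Sys.orb_mem hpst j i
        rw [hi']
        exact hpD i'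
      -- the closeness functions take integral values
      have hint : ∀ i : {x // x ∈ P}, ∀ j, j ≤ 4 → ∃ n : ℤ, S.h j (p i) = n := by
        intro i j hj
        obtain ⟨i', hi'⟩ := hirr i j hj
        have hne : i' ≠ i := by
          intro h
          rw [h, sub_self, norm_zero] at hi'
          exact absurd (Sys.r_pos (hFD j i)) (not_lt.mpr hi'.symm.le)
        refine ⟨Q.ord v (i'.1 - i.1), ?_⟩
        unfold Sys.h
        rw [← hi', hlog _ _ hne]
      have hstep : ∀ (i : {x // x ∈ P}) j, j + 1 ≤ 4 → S.h j (p i) + 1 ≤ S.h (j + 1) (p i) := by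
        intro i j hj
        obtain ⟨n, hn⟩ := hint i j (by omega)
        obtain ⟨m, hm⟩ := hint i (j + 1) hj
        have h1 := Sys.h_succ (hFD j i) (hFD (j + 1) i)
        have h2 : 0 < S.t / (S.d : ℝ) ^ j := div_pos ht (S.dpow_pos j)
        rw [hn, hm] at h1 ⊢
        have h3 : (n : ℝ) < m := by linarith
        have h4 : n < m := by exact_mod_cast h3
        exact_mod_cast (by omega : n + 1 ≤ m)
      have h14 : ∀ i, V + 3 ≤ S.h 4 (p i) ∧ V + t / d ≤ S.h 4 (p i) := by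
        intro i
        have h1 := Sys.h_one (hpD i) (hFD 1 i)
        rw [hSV] at h1
        have h2 := hstep i 1 (by omega)
        have h3 := hstep i 2 (by omega)
        have h4 := hstep i 3 (by omega)
        have h5 := Sys.h_succ (hFD 1 i) (hFD (1 + 1) i)
        rw [hdS, pow_one, ← htdef] at h5
        norm_num at h2 h3 h4 h5
        constructor
        · linarith
        · linarith
      obtain ⟨χ, hχ⟩ := Sys.coloring p hpD hpst 4
      refine ⟨fun x => if h : x ∈ P then finCongr (by rw [hSd]) (χ ⟨x, h⟩) else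
        ⟨0, by positivity⟩, ?_⟩
      intro x hx y hy hxy hc
      simp only [hx, hy, dif_pos] at hc
      have hc' := (finCongr (by rw [hSd] : S.d ^ 4 = d ^ 4)).injective hc
      have hne : (⟨x, hx⟩ : {x // x ∈ P}) ≠ ⟨y, hy⟩ := fun h => hxy (congrArg Subtype.val h)
      have h1 := hχ _ _ (fun h => hne (hp h)) hc'
      rw [hlog _ _ hne] at h1
      have h2 := h14 ⟨x, hx⟩
      have h3 := h14 ⟨y, hy⟩
      constructor
      · exact (le_min h2.1 h3.1).trans h1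
      · exact (le_min h2.2 h3.2).trans h1
  · have hFD : ∀ j i, S.D (S.F^[j] (p i)) := by
      intro j i
      obtain ⟨i', hi'⟩ := Sys.orb_mem hpst j i
      rw [hi']
      exact hpD i'
    have h2V : ∀ i, V + t / d ≤ S.h 2 (p i) := by
      intro i
      have h1 := Sys.h_one (hpD i) (hFD 1 i)
      rw [hSV] at h1
      have h5 := Sys.h_succ (hFD 1 i) (hFD (1 + 1) i)
      rw [hdS, pow_one, ← htdef] at h5
      norm_num at h5
      linarith
    obtain ⟨χ, hχ⟩ := Sys.coloring p hpD hpst 2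
    refine ⟨fun x => if h : x ∈ P then finCongr (by rw [hSd]) (χ ⟨x, h⟩) else
      ⟨0, by positivity⟩, ?_⟩
    intro x hx y hy hxy hc
    simp only [hx, hy, dif_pos] at hc
    have hc' := (finCongr (by rw [hSd] : S.d ^ 2 = d ^ 2)).injective hc
    have hne : (⟨x, hx⟩ : {x // x ∈ P}) ≠ ⟨y, hy⟩ := fun h => hxy (congrArg Subtype.val h)
    have h1 := hχ _ _ (fun h => hne (hp h)) hc'
    rw [hlog _ _ hne] at h1
    have h2 := h2V ⟨x, hx⟩
    have h3 := h2V ⟨y, hy⟩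
    have h4 : 0 < t / (d : ℝ) := div_pos ht hd0
    have h5 := (le_min h2 h3).trans h1
    simp only at h5
    linarith

end Pool.Agent.W277.UG
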