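import Pool.Agent.W277.UB.Pl

/-!
# Rigidity: differential relations on a finite invariant set
-/

namespace Pool.Agent.W277.UG

open Pool.Agent.W277.UB Finset Polynomial

variable {k K : Type*} [Field k] [Field K] [Algebra k K]

/-- the coefficientwise derivative -/
noncomputable def cD (D : Derivation k K K) (f : K[X]) : K[X] := f.sum fun i a => monomial i (D a)

lemma cD_add (D : Derivation k K K) (f g : K[X]) : cD D (f + g) = cD D f + cD D g := by
  unfold cD
  apply Polynomial.sum_add_index
  · intro i
    simp
  · intro i a b
    simp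

lemma cD_monomial (D : Derivation k K K) (n : ℕ) (a : K) :
    cD D (monomial n a) = monomial n (D a) := by
  unfold cD
  rw [Polynomial.sum_monomial_index]
  simp

lemma cD_coeff (D : Derivation k K K) (f : K[X]) (i : ℕ) : (cD D f).coeff i = D (f.coeff i) := by
  induction f using Polynomial.induction_on' with
  | add p q hp hq => rw [cD_add, coeff_add, coeff_add, hp, hq, map_add]
  | monomial n a =>
    rw [cD_monomial, coeff_monomial, coeff_monomial]
    split_ifs
    · rfl
    · simp

lemma cD_natDegree (D : Derivation k K K) (f : K[X]) : (cD D f).natDegree ≤ f.natDegree := by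
  rw [natDegree_le_iff_coeff_eq_zero]
  intro i hi
  rw [cD_coeff, coeff_eq_zero_of_natDegree_lt hi, map_zero]

lemma D_eval (D : Derivation k K K) (f : K[X]) (x : K) :
    D (f.eval x) = (cD D f).eval x + f.derivative.eval x * D x := by
  induction f using Polynomial.induction_on' with
  | add p q hp hq =>
    rw [eval_add, map_add, hp, hq, cD_add, derivative_add, eval_add, eval_add]
    ring
  | monomial n a =>
    rw [cD_monomial, eval_monomial, eval_monomial, derivative_monomial, eval_monomial,
      Derivation.leibniz, Derivation.leibniz_pow]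
    simp only [smul_eq_mul, nsmul_eq_mul]
    ring

/-- The algebraic part of the rigidity statement. -/
lemma rigid_poly (f fD A B : K[X]) (hd : 2 ≤ f.natDegree) (hfD : fD.natDegree ≤ f.natDegree)
    (hA : A ≠ 0) (hco : IsCoprime A B)
    (h : A.comp f * (fD * A + derivative f * B) = B.comp f * A) :
    A.natDegree = 0 ∧ B.natDegree ≤ 1 := by
  have hA0 : A.natDegree = 0 := by
    have h1 : A.comp f ∣ B.comp f * A := ⟨_, h.symm⟩
    have h2 : IsCoprime (A.comp f) (B.comp f) := by
      have := hco.map (Polynomial.compRingHom f)
      simpa using this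
    have h3 : A.comp f ∣ A := h2.dvd_of_dvd_mul_left h1
    have h4 := natDegree_le_of_dvd h3 hA
    rw [natDegree_comp] at h4
    by_contra hne
    have h5 : 0 < A.natDegree := Nat.pos_of_ne_zero hne
    nlinarith
  refine ⟨hA0, ?_⟩
  obtain ⟨a, ha⟩ := natDegree_eq_zero.mp hA0
  have ha0 : a ≠ 0 := by
    rintro rfl
    apply hA
    rw [← ha, C_0]
  rw [← ha, C_comp] at h
  have h1 : fD * C a + derivative f * B = B.comp f := by
    have h2 : C a ≠ 0 := C_ne_zero.mpr ha0
    apply mul_left_cancel₀ h2
    rw [h, mul_comm]
  by_contra hcon
  push Not at hcon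
  have h2 : (B.comp f).natDegree = B.natDegree * f.natDegree := natDegree_comp
  have h3 : (fD * C a + derivative f * B).natDegree ≤
      max f.natDegree (f.natDegree - 1 + B.natDegree) := by
    refine (natDegree_add_le _ _).trans (max_le_max ?_ ?_)
    · refine natDegree_mul_le.trans ?_
      rw [natDegree_C, add_zero]
      exact hfD
    · refine natDegree_mul_le.trans ?_
      exact add_le_add (natDegree_derivative_le f) le_rfl
  rw [h1, h2] at h3
  have h4 : f.natDegree < B.natDegree * f.natDegree := by nlinarith
  have h5 : f.natDegree - 1 + B.natDegree < B.natDegree * f.natDegree := by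
    obtain ⟨c, hc⟩ := Nat.exists_eq_add_of_le hd
    rw [hc]
    have : 2 + c - 1 = c + 1 := by omega
    rw [this]
    nlinarith
  exact absurd h3 (not_le.mpr (max_lt h4 h5))

/-- **Rigidity.** -/
theorem rigidity [DecidableEq K] (Q : PlaceData k K) (f : K[X]) (hd : 2 ≤ f.natDegree) (P : Finset K)
    (hst : ∀ x ∈ P, f.eval x ∈ P) (m : ℕ) (A B : K[X]) (hne : A ≠ 0 ∨ B ≠ 0)
    (hA : A.natDegree ≤ m) (hB : B.natDegree ≤ m) (T : Finset K) (hTP : T ⊆ P)
    (hT : ∀ x ∈ T, A.eval x * Q.D x = B.eval x)
    (hbig : 2 * (f.natDegree + 1) * (P \ T).card < P.card)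
    (hN : 2 * ((m + 1) * f.natDegree + m) ≤ P.card) :
    ∃ α β : K, ∃ T' ⊆ T, T.card ≤ T'.card + m ∧ ∀ x ∈ T', Q.D x = α * x + β := by
  set d := f.natDegree with hdd
  have hTc : (P \ T).card + T.card = P.card := by
    rw [Finset.card_sdiff_of_subset hTP]
    have := Finset.card_le_card hTP
    omega
  have hTm : m < T.card := by
    have h1 : (P \ T).card * 6 ≤ 2 * (d + 1) * (P \ T).card := by
      rw [mul_comm]
      apply Nat.mul_le_mul_right
      omega
    have h2 : m * 2 ≤ (m + 1) * d := by nlinarith
    omega
  have hA0 : A ≠ 0 := by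
    rintro rfl
    have hB0 : B ≠ 0 := by
      rcases hne with h | h
      · exact absurd rfl h
      · exact h
    apply hB0
    apply eq_zero_of_natDegree_lt_card_of_eval_eq_zero' B T
    · intro x hx
      have := hT x hx
      rw [eval_zero, zero_mul] at this
      exact this.symm
    · omega
  -- points whose image is again in `T`
  set T₁ := T.filter fun x => f.eval x ∈ T with hT₁
  have hT₁c : P.card < 2 * T₁.card := by
    have h1 : (P \ T₁).card ≤ (P \ T).card + d * (P \ T).card := by
      have h2 : P \ T₁ ⊆ (P \ T) ∪ P.filter fun x => f.eval x ∈ P \ T := by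
        intro x hx
        rw [Finset.mem_sdiff] at hx
        rw [Finset.mem_union]
        by_cases hxT : x ∈ T
        · right
          rw [Finset.mem_filter, Finset.mem_sdiff]
          refine ⟨hx.1, hst x hx.1, fun h => hx.2 ?_⟩
          rw [hT₁, Finset.mem_filter]
          exact ⟨hxT, h⟩
        · left
          rw [Finset.mem_sdiff]
          exact ⟨hx.1, hxT⟩
      refine (Finset.card_le_card h2).trans ((Finset.card_union_le _ _).trans ?_)
      apply Nat.add_le_add_left
      apply Finset.card_le_mul_card_image_of_maps_to (f := fun x => f.eval x)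
      · intro x hx
        exact (Finset.mem_filter.mp hx).2
      · intro y _
        have hfy : f - C y ≠ 0 := by
          intro h0
          have h3 := natDegree_sub_C (p := f) (a := y)
          rw [h0, natDegree_zero] at h3
          omega
        have h3 : ((P.filter fun x => f.eval x ∈ P \ T).filter fun x => f.eval x = y) ⊆
            (f - C y).roots.toFinset := by
          intro x hx
          rw [Finset.mem_filter] at hx
          rw [Multiset.mem_toFinset, mem_roots hfy, IsRoot.def, eval_sub, eval_C, hx.2, sub_self]
        refine (Finset.card_le_card h3).trans ((Multiset.toFinset_card_le _).trans ?_)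
        refine (card_roots' _).trans ?_
        rw [natDegree_sub_C]
    have h4 : (P \ T₁).card + T₁.card = P.card := by
      have hsub : T₁ ⊆ P := (Finset.filter_subset _ _).trans hTP
      rw [Finset.card_sdiff_of_subset hsub]
      have := Finset.card_le_card hsub
      omega
    have h5 : 2 * (d + 1) * (P \ T).card = 2 * ((P \ T).card + d * (P \ T).card) := by ring
    omega
  -- the reduced pair
  obtain ⟨A', B', g, hrel, hgA, hgB⟩ := UniqueFactorizationMonoid.exists_reduced_factors A hA0 B
  have hco : IsCoprime A' B' := hrel.isCoprime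
  have hg0 : g ≠ 0 := left_ne_zero_of_mul (hgA ▸ hA0 : g * A' ≠ 0)
  have hA'0 : A' ≠ 0 := right_ne_zero_of_mul (hgA ▸ hA0 : g * A' ≠ 0)
  -- the functional equation
  have hfun : A.comp f * (cD Q.D f * A + derivative f * B) = B.comp f * A := by
    rw [← sub_eq_zero]
    apply eq_zero_of_natDegree_lt_card_of_eval_eq_zero' _ T₁
    · intro x hx
      rw [hT₁, Finset.mem_filter] at hx
      have h1 := hT x hx.1
      have h2 := hT _ hx.2
      rw [D_eval] at h2
      simp only [eval_sub, eval_mul, eval_add, eval_comp]
      linear_combination (eval x A) * h2 - (eval (eval x f) A * eval x (derivative f)) * h1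
    · have h1 : (A.comp f).natDegree ≤ m * d := by
        rw [natDegree_comp]
        exact Nat.mul_le_mul_right _ hA
      have h2 : (B.comp f).natDegree ≤ m * d := by
        rw [natDegree_comp]
        exact Nat.mul_le_mul_right _ hB
      have h3 : (cD Q.D f * A + derivative f * B).natDegree ≤ d + m := by
        refine (natDegree_add_le _ _).trans (max_le ?_ ?_)
        · exact natDegree_mul_le.trans (add_le_add (cD_natDegree _ _) hA)
        · refine natDegree_mul_le.trans (add_le_add ?_ hB)
          exact (natDegree_derivative_le f).trans (by omega)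
      have h4 : (A.comp f * (cD Q.D f * A + derivative f * B) - B.comp f * A).natDegree ≤
          m * d + (d + m) := by
        refine (natDegree_sub_le _ _).trans (max_le ?_ ?_)
        · exact natDegree_mul_le.trans (add_le_add h1 h3)
        · exact natDegree_mul_le.trans (add_le_add h2 (hA.trans (by omega)))
      refine lt_of_le_of_lt h4 ?_
      have h5 : (m + 1) * d = m * d + d := by ring
      omega
  have hfun' : A'.comp f * (cD Q.D f * A' + derivative f * B') = B'.comp f * A' := by
    have hgf : g.comp f ≠ 0 := by
      intro h0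
      have h1 : (A.comp f) = 0 := by rw [← hgA, mul_comp, h0, zero_mul]
      have h2 := comp_eq_zero_iff.mp h1
      rcases h2 with h2 | h2
      · exact hA0 h2
      · have := h2.2
        rw [this, natDegree_C] at hdd
        omega
    apply mul_left_cancel₀ (mul_ne_zero hgf hg0)
    rw [← hgA, ← hgB, mul_comp, mul_comp] at hfun
    linear_combination hfun
  obtain ⟨h1, h2⟩ := rigid_poly f (cD Q.D f) A' B' hd (cD_natDegree _ _) hA'0 hco hfun'
  obtain ⟨a, ha⟩ := natDegree_eq_zero.mp h1
  have ha0 : a ≠ 0 := by
    rintro rfl
    apply hA'0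
    rw [← ha, C_0]
  have hBe : ∀ x, B'.eval x = B'.coeff 1 * x + B'.coeff 0 := by
    intro x
    rw [eval_eq_sum_range' (n := 2) (by omega)]
    rw [Finset.sum_range_succ, Finset.sum_range_one]
    ring
  refine ⟨B'.coeff 1 / a, B'.coeff 0 / a, T.filter fun x => g.eval x ≠ 0,
    Finset.filter_subset _ _, ?_, ?_⟩
  · have h3 : T ⊆ (T.filter fun x => g.eval x ≠ 0) ∪ g.roots.toFinset := by
      intro x hx
      rw [Finset.mem_union]
      by_cases h4 : g.eval x = 0
      · right
        rw [Multiset.mem_toFinset, mem_roots hg0]
        exact h4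
      · left
        exact Finset.mem_filter.mpr ⟨hx, h4⟩
    refine (Finset.card_le_card h3).trans ((Finset.card_union_le _ _).trans ?_)
    apply Nat.add_le_add_left
    refine (Multiset.toFinset_card_le _).trans ((card_roots' _).trans ?_)
    have : g ∣ A := ⟨A', hgA.symm⟩
    exact (natDegree_le_of_dvd this hA0).trans hA
  · intro x hx
    rw [Finset.mem_filter] at hx
    have h3 := hT x hx.1
    rw [← hgA, ← hgB, eval_mul, eval_mul, ← ha, eval_C, hBe] at h3
    have h4 : a * Q.D x = B'.coeff 1 * x + B'.coeff 0 := by
      apply mul_left_cancel₀ hx.2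
      linear_combination h3
    field_simp
    linear_combination h4

end Pool.Agent.W277.UG
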