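import Pool.Agent.W277.UG.B3
import Pool.Agent.W277.UG.B4
import Pool.Agent.W277.UG.B5

/-!
# Non-degeneracy of the interpolation functionals
-/

namespace Pool.Agent.W277.UG

open Pool.Agent.W277.UB Finset Polynomial

variable {k K : Type*} [Field k] [Field K] [Algebra k K]

lemma prod_zero (Q : PlaceData k K) (S : Finset Q.Pl) (x : K) (hx : x ≠ 0)
    (hS : ∀ v, v ∉ S → Q.ord v x = 0) : ∑ v ∈ S, Q.wt v * Q.ord v x = 0 := by
  have h1 := Q.prod_formula x hx S fun v hv => (hS v hv).ge
  have h2 := Q.prod_formula x⁻¹ (inv_ne_zero hx) S fun v hv => by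
    rw [PlaceData.ord_inv hx, hS v hv]
    simp
  have h3 : ∑ v ∈ S, Q.wt v * Q.ord v x⁻¹ = -∑ v ∈ S, Q.wt v * Q.ord v x := by
    rw [← Finset.sum_neg_distrib]
    apply Finset.sum_congr rfl
    intro v _
    rw [PlaceData.ord_inv hx]
    ring
  linarith

/-- No affine relation on a large subset. -/
lemma no_affine (Q : PlaceData k K) (S : Finset Q.Pl) (P : Finset K) (V : Q.Pl → ℝ) (n : ℕ)
    (hS : ∀ v, v ∉ S → ∀ x ∈ P, ∀ y ∈ P, x ≠ y → Q.ord v (x - y) = 0)
    (hV : ∑ v ∈ S, (Q.wt v : ℝ) * V v = 0)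
    (hloc : ∀ v ∈ S, (∀ x ∈ P, ∀ y ∈ P, x ≠ y → V v ≤ Q.ord v (x - y)) ∨
      ∃ χ : K → Fin n, ∀ x ∈ P, ∀ y ∈ P, x ≠ y → χ x = χ y → V v < Q.ord v (x - y))
    (v₀ : Q.Pl) (hv₀ : v₀ ∈ S)
    (hbad : ∃ χ : K → Fin n, ∀ x ∈ P, ∀ y ∈ P, x ≠ y → χ x = χ y → V v₀ < Q.ord v₀ (x - y))
    (T : Finset K) (hT : T ⊆ P) (α β : K) (hD : ∀ x ∈ T, Q.D x = α * x + β) : T.card ≤ n := by
  classical
  by_contra hcon
  push Not at hcon
  have hratio : ∀ v, ∀ x ∈ T, ∀ y ∈ T, ∀ z ∈ T, x ≠ z → y ≠ z →
      Q.ord v (x - z) = Q.ord v (y - z) := by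
    intro v x hx y hy z hz hxz hyz
    have hxz0 : x - z ≠ 0 := sub_ne_zero.mpr hxz
    have hyz0 : y - z ≠ 0 := sub_ne_zero.mpr hyz
    have h1 : Q.D ((x - z) / (y - z)) = 0 := by
      rw [Derivation.leibniz_div]
      rw [map_sub, map_sub, hD x hx, hD y hy, hD z hz]
      simp only [smul_eq_mul]
      apply mul_eq_zero_of_right
      ring
    obtain ⟨c, hc⟩ := Q.D_ker _ h1
    have hc0 : c ≠ 0 := by
      rintro rfl
      rw [map_zero] at hc
      exact div_ne_zero hxz0 hyz0 hc.symm
    have h2 := PlaceData.ord_div (Q := Q) (v := v) hxz0 hyz0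
    rw [← hc, Q.ord_alg v c hc0] at h2
    omega
  have hpair : ∀ v, ∀ x ∈ T, ∀ y ∈ T, ∀ x' ∈ T, ∀ y' ∈ T, x ≠ y → x' ≠ y' →
      Q.ord v (x - y) = Q.ord v (x' - y') := by
    intro v x hx y hy x' hx' y' hy' hxy hxy'
    have hneg : ∀ a b : K, a ≠ b → Q.ord v (a - b) = Q.ord v (b - a) := by
      intro a b hab
      have : a - b = -(b - a) := by ring
      rw [this, PlaceData.ord_neg (sub_ne_zero.mpr hab.symm)]
    by_cases h : y = x'
    · subst h
      rw [hneg y y' hxy']
      exact hratio v x hx y' hy' y hy hxy hxy'.symm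
    · rw [hratio v x hx x' hx' y hy hxy (Ne.symm h), hneg _ _ (Ne.symm h),
        hratio v y hy y' hy' x' hx' h hxy'.symm, hneg _ _ hxy'.symm]
  have hpig : ∀ χ : K → Fin n, ∃ x ∈ T, ∃ y ∈ T, x ≠ y ∧ χ x = χ y := by
    intro χ
    apply Finset.exists_ne_map_eq_of_card_lt_of_maps_to (t := Finset.univ)
    · rw [Finset.card_univ, Fintype.card_fin]
      exact hcon
    · intro x _
      exact Finset.mem_univ _
  obtain ⟨χ, hχ⟩ := hbad
  obtain ⟨x, hx, y, hy, hxy, hc⟩ := hpig χ
  have h0 := hχ x (hT hx) y (hT hy) hxy hc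
  have hall : ∀ v ∈ S, V v ≤ Q.ord v (x - y) := by
    intro v hv
    rcases hloc v hv with h | ⟨χ', hχ'⟩
    · exact h x (hT hx) y (hT hy) hxy
    · obtain ⟨x', hx', y', hy', hxy', hc'⟩ := hpig χ'
      rw [hpair v x hx y hy x' hx' y' hy' hxy hxy']
      exact (hχ' x' (hT hx') y' (hT hy') hxy' hc').le
  have hsum : ∑ v ∈ S, (Q.wt v : ℝ) * V v < ∑ v ∈ S, (Q.wt v : ℝ) * Q.ord v (x - y) := by
    apply Finset.sum_lt_sum
    · intro v hv
      apply mul_le_mul_of_nonneg_left (hall v hv)
      exact_mod_cast Q.wt_nonneg v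
    · refine ⟨v₀, hv₀, ?_⟩
      apply mul_lt_mul_of_pos_left h0
      have := Q.wt_one v₀
      exact_mod_cast (by omega : 0 < Q.wt v₀)
  have hz := prod_zero Q S (x - y) (sub_ne_zero.mpr hxy)
    (fun v hv => hS v hv x (hT hx) y (hT hy) hxy)
  have hz' : ∑ v ∈ S, (Q.wt v : ℝ) * Q.ord v (x - y) = 0 := by exact_mod_cast hz
  rw [hz', hV] at hsum
  exact lt_irrefl _ hsum

/-- the vector of monomials -/
noncomputable def Phi (Q : PlaceData k K) (m : ℕ) (b z : K) : Fin (2 * m) → K := fun j =>
  (z - b) ^ (mu m j).1 * (Q.D (z - b)) ^ (mu m j).2.toNat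

lemma mu_fst_le (m : ℕ) (j : Fin (2 * m)) : (mu m j).1 ≤ m := by
  unfold mu
  split_ifs with h
  · exact h
  · have := j.2
    simp only
    omega

/-- Functionals are nonzero at many points. -/
lemma functional_count (Q : PlaceData k K) (f : K[X]) (hd : 2 ≤ f.natDegree)
    (P : Finset K) (hst : ∀ x ∈ P, f.eval x ∈ P) (m : ℕ)
    (hna : ∀ T ⊆ P, ∀ α β : K, (∀ x ∈ T, Q.D x = α * x + β) → T.card ≤ f.natDegree ^ 2)
    (hN : 2 * ((m + 1) * f.natDegree + m) + 2 * f.natDegree ^ 2 < P.card)
    (b : K) (F : (Fin (2 * m) → K) →ₗ[K] K) (hF : F ≠ 0) :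
    ∃ C ⊆ P, (1 / (2 * ((f.natDegree : ℝ) + 1))) * (P.card : ℝ) ≤ (C.card : ℝ) ∧
      ∀ z ∈ C, F (Phi Q m b z) ≠ 0 := by
  classical
  set c : Fin (2 * m) → K := fun j => F (fun j' => if j = j' then 1 else 0) with hc
  have hFc : ∀ u : Fin (2 * m) → K, F u = ∑ j, u j * c j := by
    intro u
    rw [LinearMap.pi_apply_eq_sum_univ]
    rfl
  set A₀ : K[X] := ∑ j, if (mu m j).2 then C (c j) * X ^ (mu m j).1 else 0 with hA₀
  set B₀ : K[X] := ∑ j, if (mu m j).2 then 0 else C (c j) * X ^ (mu m j).1 with hB₀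
  set A : K[X] := A₀.comp (X - C b) with hA
  set B : K[X] := C (Q.D b) * A - B₀.comp (X - C b) with hB
  have hval : ∀ z, F (Phi Q m b z) = A.eval z * Q.D z - B.eval z := by
    intro z
    have h1 : A.eval z = ∑ j, if (mu m j).2 then c j * (z - b) ^ (mu m j).1 else 0 := by
      rw [hA, eval_comp, hA₀, eval_finsetSum]
      apply Finset.sum_congr rfl
      intro j _
      split_ifs <;> simp
    have h2 : (B₀.comp (X - C b)).eval z =
        ∑ j, if (mu m j).2 then 0 else c j * (z - b) ^ (mu m j).1 := by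
      rw [eval_comp, hB₀, eval_finsetSum]
      apply Finset.sum_congr rfl
      intro j _
      split_ifs <;> simp
    have h3 : F (Phi Q m b z) = A.eval z * Q.D (z - b) + (B₀.comp (X - C b)).eval z := by
      rw [hFc, h1, h2, Finset.sum_mul, ← Finset.sum_add_distrib]
      apply Finset.sum_congr rfl
      intro j _
      unfold Phi
      obtain ⟨⟨a, e⟩, hae⟩ : ∃ q, mu m j = q := ⟨_, rfl⟩
      rw [hae]
      cases e
      · simp
        ring
      · simp
        ring
    rw [h3, hB, eval_sub, eval_mul, eval_C, map_sub]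
    ring
  have hdegA₀ : A₀.natDegree ≤ m := by
    rw [hA₀]
    apply natDegree_sum_le_of_forall_le
    intro j _
    split_ifs
    · exact (natDegree_C_mul_X_pow_le _ _).trans (mu_fst_le m j)
    · simp
  have hdegB₀ : B₀.natDegree ≤ m := by
    rw [hB₀]
    apply natDegree_sum_le_of_forall_le
    intro j _
    split_ifs
    · simp
    · exact (natDegree_C_mul_X_pow_le _ _).trans (mu_fst_le m j)
  have hdegA : A.natDegree ≤ m := by
    rw [hA, natDegree_comp, natDegree_X_sub_C, mul_one]
    exact hdegA₀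
  have hdegB : B.natDegree ≤ m := by
    rw [hB]
    refine (natDegree_sub_le _ _).trans (max_le ?_ ?_)
    · exact (natDegree_C_mul_le _ _).trans hdegA
    · rw [natDegree_comp, natDegree_X_sub_C, mul_one]
      exact hdegB₀
  have hcomp0 : ∀ G : K[X], G.comp (X - C b) = 0 → G = 0 := by
    intro G hG
    have h1 := congrArg (fun q : K[X] => q.comp (X + C b)) hG
    simp only [comp_assoc, sub_comp, X_comp, C_comp, add_sub_cancel_right, comp_X,
      zero_comp] at h1
    exact h1
  have hne : A ≠ 0 ∨ B ≠ 0 := by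
    by_contra hcon
    push Not at hcon
    obtain ⟨h1, h2⟩ := hcon
    have hA₀z : A₀ = 0 := hcomp0 _ h1
    have hB₀z : B₀ = 0 := by
      apply hcomp0
      rw [hB, h1, mul_zero, zero_sub, neg_eq_zero] at h2
      exact h2
    apply hF
    have hcz : ∀ j, c j = 0 := by
      intro j
      by_cases hj : (mu m j).2 = true
      · have h3 : A₀.coeff (mu m j).1 = c j := by
          rw [hA₀, finsetSum_coeff, Finset.sum_eq_single j]
          · rw [if_pos hj, coeff_C_mul, coeff_X_pow, if_pos rfl, mul_one]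
          · intro j' _ hne
            split_ifs with hj'
            · rw [coeff_C_mul, coeff_X_pow, if_neg, mul_zero]
              intro he
              apply hne
              apply mu_inj m
              exact Prod.ext he.symm (by rw [hj, hj'])
            · simp
          · intro h
            exact absurd (Finset.mem_univ _) h
        rw [hA₀z, coeff_zero] at h3
        exact h3.symm
      · have h3 : B₀.coeff (mu m j).1 = c j := by
          rw [hB₀, finsetSum_coeff, Finset.sum_eq_single j]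
          · rw [if_neg hj, coeff_C_mul, coeff_X_pow, if_pos rfl, mul_one]
          · intro j' _ hne
            split_ifs with hj'
            · simp
            · rw [coeff_C_mul, coeff_X_pow, if_neg, mul_zero]
              intro he
              apply hne
              apply mu_inj m
              exact Prod.ext he.symm (by
                rw [Bool.not_eq_true] at hj hj'
                rw [hj, hj'])
          · intro h
            exact absurd (Finset.mem_univ _) h
        rw [hB₀z, coeff_zero] at h3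
        exact h3.symm
    ext u
    simp only [LinearMap.comp_apply, LinearMap.zero_apply]
    rw [hFc]
    apply Finset.sum_eq_zero
    intro j _
    rw [hcz j, mul_zero]
  set T := P.filter fun z => F (Phi Q m b z) = 0 with hT
  have hTP : T ⊆ P := Finset.filter_subset _ _
  refine ⟨P \ T, Finset.sdiff_subset, ?_, ?_⟩
  · by_contra hcon
    push Not at hcon
    have hd0 : (0 : ℝ) < 2 * ((f.natDegree : ℝ) + 1) := by positivity
    rw [one_div, ← div_eq_inv_mul, lt_div_iff₀ hd0] at hcon
    have hbig : 2 * (f.natDegree + 1) * (P \ T).card < P.card := by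
      have h1 : (((P \ T).card * (2 * (f.natDegree + 1)) : ℕ) : ℝ) < (P.card : ℝ) := by
        push_cast
        exact hcon
      have h2 : (P \ T).card * (2 * (f.natDegree + 1)) < P.card := by exact_mod_cast h1
      rw [mul_comm]
      exact h2
    obtain ⟨α, β, T', hT'T, hT'c, hT'⟩ := rigidity Q f hd P hst m A B hne hdegA hdegB T hTP
      (fun x hx => by
        have h1 := (Finset.mem_filter.mp hx).2
        rw [hval] at h1
        exact sub_eq_zero.mp h1) hbig (by omega)
    have h1 := hna T' (hT'T.trans hTP) α β hT'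
    have h2 : (P \ T).card + T.card = P.card := by
      rw [Finset.card_sdiff_of_subset hTP]
      have := Finset.card_le_card hTP
      omega
    have h3 : (P \ T).card * 6 ≤ 2 * (f.natDegree + 1) * (P \ T).card := by
      rw [mul_comm]
      apply Nat.mul_le_mul_right
      omega
    have h4 : m ≤ (m + 1) * f.natDegree := by nlinarith
    omega
  · intro z hz h0
    rw [Finset.mem_sdiff] at hz
    exact hz.2 (Finset.mem_filter.mpr ⟨hz.1, h0⟩)

/-- Independence of the monomial vectors means that the determinant does not vanish. -/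
lemma cdet_ne (Q : PlaceData k K) (m : ℕ) (z : Fin (2 * m) → K) (b : Fin (2 * m))
    (h : LinearIndependent K fun i => Phi Q m (z b) (z i)) : cdet Q m z b ≠ 0 := by
  have h1 : LinearIndependent K (Matrix.of fun i j => Phi Q m (z b) (z i) j).row := h
  rw [Matrix.linearIndependent_rows_iff_isUnit, Matrix.isUnit_iff_isUnit_det] at h1
  have h2 : cdet Q m z b = (Matrix.of fun i j => Phi Q m (z b) (z i) j).det := by
    unfold cdet
    rw [← Matrix.det_transpose]
    rfl
  rw [h2]
  exact h1.ne_zero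

end Pool.Agent.W277.UG
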