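import Pool.Agent.W277.UG.A6

/-!
# Multiplicities and the refined growth of closeness
-/

namespace Pool.Agent.W277.UG

open Finset

/-- Cauchy-Schwarz for weights of mass zero. -/
lemma cs_zero {J J' : Type*} [Fintype J] [Fintype J'] (k : J ⊕ J' → J ⊕ J' → ℝ) (σ : J → ℝ)
    (τ : J' → ℝ) (c : ℝ) (hσ : ∑ i, σ i = 0) (hτ : ∑ i, τ i = 0)
    (hs : ∀ i j, k i j = k j i) (hu : ∀ i j l, min (k i l) (k l j) ≤ k i j)
    (h0 : ∀ i j, c ≤ k i j) :
    (∑ i, ∑ j, σ i * τ j * k (Sum.inl i) (Sum.inr j)) ^ 2 ≤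
      (∑ i, ∑ j, σ i * σ j * k (Sum.inl i) (Sum.inl j)) *
        (∑ i, ∑ j, τ i * τ j * k (Sum.inr i) (Sum.inr j)) := by
  set A := ∑ i, ∑ j, σ i * σ j * k (Sum.inl i) (Sum.inl j) with hA
  set B := ∑ i, ∑ j, τ i * τ j * k (Sum.inr i) (Sum.inr j) with hB
  set X := ∑ i, ∑ j, σ i * τ j * k (Sum.inl i) (Sum.inr j) with hX
  have key : ∀ l : ℝ, 0 ≤ A - 2 * l * X + l ^ 2 * B := by
    intro l
    have h := psd_zero k (Sum.elim σ fun j => -(l * τ j)) c (by
      rw [Fintype.sum_sum_type]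
      simp only [Sum.elim_inl, Sum.elim_inr]
      rw [Finset.sum_neg_distrib, ← Finset.mul_sum, hσ, hτ]
      ring) hs hu h0
    rw [Fintype.sum_sum_type] at h
    simp only [Fintype.sum_sum_type, Sum.elim_inl, Sum.elim_inr, Finset.sum_add_distrib] at h
    have e1 : ∑ i, ∑ j, σ i * -(l * τ j) * k (Sum.inl i) (Sum.inr j) = -(l * X) := by
      rw [hX, Finset.mul_sum, ← Finset.sum_neg_distrib]
      apply Finset.sum_congr rfl
      intro i _
      rw [Finset.mul_sum, ← Finset.sum_neg_distrib]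
      apply Finset.sum_congr rfl
      intro j _
      ring
    have e2 : ∑ i, ∑ j, -(l * τ i) * σ j * k (Sum.inr i) (Sum.inl j) = -(l * X) := by
      rw [Finset.sum_comm, hX, Finset.mul_sum, ← Finset.sum_neg_distrib]
      apply Finset.sum_congr rfl
      intro i _
      rw [Finset.mul_sum, ← Finset.sum_neg_distrib]
      apply Finset.sum_congr rfl
      intro j _
      rw [hs (Sum.inr j) (Sum.inl i)]
      ring
    have e3 : ∑ i, ∑ j, -(l * τ i) * -(l * τ j) * k (Sum.inr i) (Sum.inr j) = l ^ 2 * B := by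
      rw [hB, Finset.mul_sum]
      apply Finset.sum_congr rfl
      intro i _
      rw [Finset.mul_sum]
      apply Finset.sum_congr rfl
      intro j _
      ring
    rw [e1, e2, e3] at h
    linarith
  have hA0 : 0 ≤ A := by simpa using key 0
  have hB0 : 0 ≤ B := by
    have := psd_zero (fun i j => k (Sum.inr i) (Sum.inr j)) τ c hτ (fun _ _ => hs _ _)
      (fun _ _ _ => hu _ _ _) (fun _ _ => h0 _ _)
    exact this
  by_cases hBz : B = 0
  · have hX0 : X = 0 := by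
      by_contra hne
      have h1 := key ((A + 1) / (2 * X))
      rw [hBz] at h1
      have h2 : 2 * ((A + 1) / (2 * X)) * X = A + 1 := by field_simp
      rw [h2] at h1
      linarith
    rw [hX0, hBz]
    simp
  · have hBpos : 0 < B := lt_of_le_of_ne hB0 (Ne.symm hBz)
    have h1 := key (X / B)
    have h2 : A - 2 * (X / B) * X + (X / B) ^ 2 * B = A - X ^ 2 / B := by
      field_simp
      ring
    rw [h2] at h1
    have h3 : X ^ 2 / B ≤ A := by linarith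
    rwa [div_le_iff₀ hBpos] at h3

namespace Sys

variable {Ω : Type*} [NormedField Ω] [IsUltrametricDist Ω] {S : Sys Ω}
variable {j : ℕ} {b b' z : Ω} {I I' : Type} [Fintype I] [Fintype I']

/-- Generic points of a ball. -/
lemma exists_generic_ball (S : Sys Ω) (y u : Ω) (hu : u ≠ 0) (T : Finset Ω) :
    ∃ β : ℕ → Ω, (∀ i, ‖β i - y‖ ≤ ‖u‖) ∧ (∀ i, ∀ s ∈ T, ‖β i - s‖ = max ‖s - y‖ ‖u‖) ∧
      ∀ i j, i ≠ j → ‖β i - β j‖ = ‖u‖ := by
  classical
  have hupos : 0 < ‖u‖ := norm_pos_iff.mpr hu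
  have hub : ∀ n : ℕ, n ≠ 0 → ‖(n : Ω) * u‖ = ‖u‖ := by
    intro n hn
    rw [norm_mul, S.nat n hn, one_mul]
  have hle : ∀ n : ℕ, ‖(y + n * u) - y‖ ≤ ‖u‖ := by
    intro n
    rw [add_sub_cancel_left]
    by_cases hn : n = 0
    · subst hn
      simp [hupos.le]
    · rw [hub n hn]
  have hdiff : ∀ n m : ℕ, n < m → ‖(y + n * u) - (y + m * u)‖ = ‖u‖ := by
    intro n m hnm
    have h1 : (y + n * u) - (y + m * u) = -(((m - n : ℕ) : Ω) * u) := by
      rw [Nat.cast_sub hnm.le]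
      ring
    rw [h1, norm_neg, hub _ (by omega)]
  have hone : ∀ s, ∃ n₀ : ℕ, ∀ n, n₀ ≤ n → ‖(y + n * u) - s‖ = max ‖s - y‖ ‖u‖ := by
    intro s
    rcases lt_or_ge ‖u‖ ‖s - y‖ with hs | hs
    · refine ⟨0, fun n _ => ?_⟩
      rw [max_eq_left hs.le, nsc s y]
      apply tri_lt
      rw [nsc y s]
      exact (hle n).trans_lt hs
    · rw [max_eq_right hs]
      by_cases hbad : ∃ m : ℕ, ‖(y + m * u) - s‖ ≠ ‖u‖
      · obtain ⟨m, hm⟩ := hbad
        refine ⟨m + 1, fun n hn => ?_⟩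
        have h0 : ‖(y + m * u) - s‖ ≤ ‖u‖ := by
          refine tri_le (hle m) ?_
          rw [nsc]
          exact hs
        have h1 : ‖(y + m * u) - s‖ < ‖u‖ := lt_of_le_of_ne h0 hm
        have h2 : ‖s - (y + m * u)‖ < ‖(y + m * u) - (y + n * u)‖ := by
          rw [nsc s, hdiff m n (by omega)]
          exact h1
        rw [nsc, tri_lt h2, hdiff m n (by omega)]
      · push Not at hbad
        exact ⟨0, fun n _ => hbad n⟩
  choose N hN using hone
  refine ⟨fun i => y + ((T.sup N + i : ℕ) : Ω) * u, fun i => hle _, fun i s hs =>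
    hN s _ ((Finset.le_sup hs).trans (by omega)), ?_⟩
  intro i j hij
  rcases lt_or_gt_of_ne hij with h | h
  · exact hdiff _ _ (by omega)
  · show ‖(y + ((T.sup N + i : ℕ) : Ω) * u) - (y + ((T.sup N + j : ℕ) : Ω) * u)‖ = ‖u‖
    rw [nsc]
    exact hdiff _ _ (by omega)

/-- A comparison of two fibres at a radius. -/
lemma core_eq {ζ : I → Ω} {ζ' : I' → Ω} (h : S.IsRS j b ζ) (h' : S.IsRS j b' ζ')
    (hbb : ‖b - b'‖ ≤ S.R) (hz : ‖S.F^[j] z - b‖ = S.R) (l₀ : I) (α β : ℝ)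
    (hα : ‖z - ζ l₀‖ ≤ α) (hαβ : α < β) :
    ∃ w : Ω, α < ‖w‖ ∧ ‖w‖ < β ∧ S.R < ‖S.F^[j] (z + w) - b'‖ ∧
      ∏ l, max ‖w‖ ‖z - ζ l‖ = ∏ l, max ‖w‖ ‖z - ζ' l‖ := by
  classical
  have hprod := h.2 z
  rw [hz] at hprod
  have hpos : ∀ l, 0 < ‖z - ζ l‖ := rs_pos h (by rw [hz]; exact S.hR)
  obtain ⟨w, hw1, hw2, hw3⟩ := dense' S (Finset.univ.image (fun l => ‖z - ζ l‖) ∪
    Finset.univ.image (fun l => ‖z - ζ' l‖)) _ _ ((hpos l₀).trans_le hα) hαβ
  rw [Finset.mem_union, not_or] at hw3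
  simp only [Finset.mem_image, Finset.mem_univ, true_and, not_exists] at hw3
  have hzw : ‖(z + w) - z‖ = ‖w‖ := by rw [add_sub_cancel_left]
  have hm : ∀ x, ‖z - x‖ ≠ ‖w‖ → ‖(z + w) - x‖ = max ‖w‖ ‖z - x‖ := by
    intro x hx
    rw [tri_ne (y := z) (by rw [hzw]; exact hx.symm), hzw]
  have h1 : ‖S.F^[j] (z + w) - b‖ = S.e j * ∏ l, max ‖w‖ ‖z - ζ l‖ := by
    rw [h.2]
    congr 1
    exact Finset.prod_congr rfl fun l _ => hm _ (hw3.1 l)
  have h2 : ‖S.F^[j] (z + w) - b'‖ = S.e j * ∏ l, max ‖w‖ ‖z - ζ' l‖ := by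
    rw [h'.2]
    congr 1
    exact Finset.prod_congr rfl fun l _ => hm _ (hw3.2 l)
  have h3 : S.R < ‖S.F^[j] (z + w) - b‖ := by
    rw [h1, hprod]
    apply mul_lt_mul_of_pos_left _ (S.e_pos j)
    apply Finset.prod_lt_prod (fun l _ => hpos l) (fun l _ => le_max_right _ _)
    exact ⟨l₀, Finset.mem_univ _, lt_max_of_lt_left (hα.trans_lt hw1)⟩
  have h4 : ‖S.F^[j] (z + w) - b'‖ = ‖S.F^[j] (z + w) - b‖ := by
    have h5 : ‖b' - b‖ < ‖b - S.F^[j] (z + w)‖ := by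
      rw [nsc b' b, nsc b (S.F^[j] (z + w))]
      exact hbb.trans_lt h3
    rw [nsc _ b', tri_lt h5, nsc]
  refine ⟨w, hw1, hw2, by rw [h4]; exact h3, ?_⟩
  rw [h1, h2] at h4
  exact (mul_left_cancel₀ (S.e_pos j).ne' h4).symm

/-- the number of points of a family in a closed ball -/
noncomputable def cnt (ζ : I → Ω) (z : Ω) (ρ : ℝ) : ℕ := by
  classical
  exact (Finset.univ.filter fun l => ‖z - ζ l‖ ≤ ρ).card

/-- products of truncated distances at radii slightly above `ρ` -/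
lemma prod_max (ζ : I → Ω) (z : Ω) (ρ : ℝ) : ∃ ρ' : ℝ, ρ < ρ' ∧ ∃ C : ℝ, 0 < C ∧
    ∀ s, ρ < s → s < ρ' → 0 < s → ∏ l, max s ‖z - ζ l‖ = s ^ cnt ζ z ρ * C := by
  classical
  set A : Finset I := Finset.univ.filter fun l => ‖z - ζ l‖ ≤ ρ with hA
  set B : Finset I := Finset.univ.filter fun l => ¬ ‖z - ζ l‖ ≤ ρ with hB
  obtain ⟨ρ', hρ', hB'⟩ : ∃ ρ' : ℝ, ρ < ρ' ∧ ∀ l ∈ B, ρ' ≤ ‖z - ζ l‖ := by
    by_cases hne : B.Nonempty
    · obtain ⟨l₁, hl₁, hmin⟩ := Finset.exists_min_image B (fun l => ‖z - ζ l‖) hne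
      refine ⟨‖z - ζ l₁‖, not_le.mp (Finset.mem_filter.mp hl₁).2, hmin⟩
    · rw [Finset.not_nonempty_iff_eq_empty] at hne
      refine ⟨ρ + 1, by linarith, ?_⟩
      rw [hne]
      simp
  refine ⟨ρ', hρ', max 1 0 * ∏ l ∈ B, (if ‖z - ζ l‖ ≤ 0 then 1 else ‖z - ζ l‖), ?_, ?_⟩
  · apply mul_pos (by norm_num)
    apply Finset.prod_pos
    intro l _
    split_ifs with h
    · norm_num
    · exact not_le.mp h
  · intro s hs1 hs2 hs0
    rw [← Finset.prod_filter_mul_prod_filter_not Finset.univ (fun l => ‖z - ζ l‖ ≤ ρ)]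
    congr 1
    · have h1 : ∏ l ∈ A, max s ‖z - ζ l‖ = ∏ _l ∈ A, s := by
        apply Finset.prod_congr rfl
        intro l hl
        exact max_eq_left ((Finset.mem_filter.mp hl).2.trans hs1.le)
      rw [h1, Finset.prod_const]
      rfl
    · rw [max_eq_left (by norm_num : (0 : ℝ) ≤ 1), one_mul]
      apply Finset.prod_congr rfl
      intro l hl
      have h2 := hB' l hl
      rw [if_neg (by linarith), max_eq_right (by linarith)]

/-- Equality of counts from equality of products. -/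
lemma cnt_eq_of_prod (ζ : I → Ω) (ζ' : I' → Ω) (z : Ω) (ρ : ℝ) (hρ : 0 ≤ ρ)
    (h : ∀ α β, ρ ≤ α → α < β → ∃ s, α < s ∧ s < β ∧
      ∏ l, max s ‖z - ζ l‖ = ∏ l, max s ‖z - ζ' l‖) : cnt ζ z ρ = cnt ζ' z ρ := by
  obtain ⟨ρ₁, h1, C₁, hC₁, hp₁⟩ := prod_max ζ z ρ
  obtain ⟨ρ₂, h2, C₂, hC₂, hp₂⟩ := prod_max ζ' z ρ
  set ρ' := min ρ₁ ρ₂ with hρ'
  have hlt : ρ < ρ' := lt_min h1 h2
  obtain ⟨s, hs1, hs2, hs⟩ := h ρ ((ρ + ρ') / 2) le_rfl (by linarith)
  obtain ⟨s', hs1', hs2', hs'⟩ := h ((ρ + ρ') / 2) ρ' (by linarith) (by linarith)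
  have hs0 : 0 < s := lt_of_le_of_lt hρ hs1
  have hs0' : 0 < s' := by linarith
  have hss : s < s' := by linarith
  rw [hp₁ s hs1 (by linarith [min_le_left ρ₁ ρ₂]) hs0,
    hp₂ s hs1 (by linarith [min_le_right ρ₁ ρ₂]) hs0] at hs
  rw [hp₁ s' (by linarith) (by linarith [min_le_left ρ₁ ρ₂]) hs0',
    hp₂ s' (by linarith) (by linarith [min_le_right ρ₁ ρ₂]) hs0'] at hs'
  have e1 := congrArg Real.log hs
  have e2 := congrArg Real.log hs'
  rw [Real.log_mul (pow_ne_zero _ hs0.ne') hC₁.ne', Real.log_mul (pow_ne_zero _ hs0.ne') hC₂.ne',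
    Real.log_pow, Real.log_pow] at e1
  rw [Real.log_mul (pow_ne_zero _ hs0'.ne') hC₁.ne',
    Real.log_mul (pow_ne_zero _ hs0'.ne') hC₂.ne', Real.log_pow, Real.log_pow] at e2
  have hlog : Real.log s < Real.log s' := Real.log_lt_log hs0 hss
  have e3 : ((cnt ζ z ρ : ℝ) - cnt ζ' z ρ) * (Real.log s' - Real.log s) = 0 := by linarith
  rcases mul_eq_zero.mp e3 with h3 | h3
  · have : (cnt ζ z ρ : ℝ) = cnt ζ' z ρ := by linarith
    exact_mod_cast this
  · linarith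

/-- the multiplicity -/
noncomputable def mul (S : Sys Ω) (j : ℕ) (z : Ω) : ℕ :=
  cnt (Classical.choose (exists_rs S j S.x₀)) z (S.r j z)

/-- The multiplicity can be computed with every fibre. -/
lemma mul_eq (h : S.D (S.F^[j] z)) {ζ' : I' → Ω} (h' : S.IsRS j b' ζ') (hb' : S.D b') :
    cnt ζ' z (S.r j z) = S.mul j z := by
  have hgen : ∀ {I₁ : Type} [Fintype I₁] {b₁ : Ω} {ζ₁ : I₁ → Ω}, S.IsRS j b₁ ζ₁ → S.D b₁ →
      ∀ {b₀ : Ω} {ζ₀ : Fin (S.d ^ j) → Ω} {l₀ : Fin (S.d ^ j)}, S.D b₀ →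
      ‖S.F^[j] z - b₀‖ = S.R → S.IsRS j b₀ ζ₀ → S.r j z = ‖z - ζ₀ l₀‖ →
      cnt ζ₀ z (S.r j z) = cnt ζ₁ z (S.r j z) := by
    intro I₁ _ b₁ ζ₁ h₁ hb₁ b₀ ζ₀ l₀ hb₀ hb hζ₀ hr
    apply cnt_eq_of_prod _ _ _ _ (r_pos h).le
    intro α β hα hαβ
    obtain ⟨w, hw1, hw2, _, hw3⟩ := core_eq hζ₀ h₁ (D_sub hb₀ hb₁) hb l₀ α β
      (by rw [← hr]; exact hα) hαβ
    exact ⟨‖w‖, hw1, hw2, hw3⟩
  obtain ⟨b₀, ζ₀, l₀, hb₀, hb, hζ₀, hr, _⟩ := r_spec h
  unfold Sys.mul
  rw [← hgen h' hb' hb₀ hb hζ₀ hr,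
    ← hgen (Classical.choose_spec (exists_rs S j S.x₀)) D_x₀ hb₀ hb hζ₀ hr]

/-- The refined growth of the closeness. -/
lemma h_succ_mul (h0 : S.D (S.F^[j] z)) (h1 : S.D (S.F^[j + 1] z)) :
    S.t ≤ S.mul j z * (S.h (j + 1) z - S.h j z) := by
  classical
  set w := S.F^[j] z with hw
  have hFw : S.F^[1] w = S.F^[j + 1] z := by
    rw [hw, Function.iterate_one, Function.iterate_succ_apply']
  have h1w : S.D (S.F^[1] w) := by rw [hFw]; exact h1
  obtain ⟨b, η, l₀, hbD, hb, hη, hr, hmin⟩ := r_spec h1w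
  choose ζ hζ using exists_rs S j
  have hcomp := rs_comp hη (fun i => hζ (η i)) (by simp)
  rw [add_comm 1 j] at hcomp
  have hωD : S.D (η l₀) := rs_D hη hbD l₀
  obtain ⟨l₁, hl₁⟩ := r_near h0 hωD (hζ (η l₀))
  haveI : Nonempty (Fin (S.d ^ j)) := ⟨l₁⟩
  obtain ⟨l₂, _, hl₂⟩ := Finset.exists_min_image (Finset.univ : Finset (Fin (S.d ^ j)))
    (fun l => ‖z - ζ (η l₀) l‖) Finset.univ_nonempty
  set s := ‖z - ζ (η l₀) l₂‖ with hs
  have hs1 : s ≤ S.r j z := (hl₂ l₁ (Finset.mem_univ _)).trans hl₁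
  have hwη : ‖w - η l₀‖ = S.r 1 w := hr.symm
  have hwpos : 0 < ‖w - η l₀‖ := by rw [hwη]; exact r_pos h1w
  have hspos : 0 < s := rs_pos (hζ (η l₀)) (by rw [← hw]; exact hwpos) l₂
  have hs2 : S.r (j + 1) z ≤ s := r_far h1 hcomp hbD (by rw [← hFw]; exact hb) (l₀, l₂)
  obtain ⟨b₁, ζ₁, l₃, hb₁D, hb₁, hζ₁, hr₁, hmin₁⟩ := r_spec h0
  have hrj := r_pos h0
  set m := S.mul j z with hm
  have hmc : cnt (ζ (η l₀)) z (S.r j z) = m := mul_eq h0 (hζ (η l₀)) hωD
  obtain ⟨ρ', hρ', C, hC, hp⟩ := prod_max (ζ (η l₀)) z (S.r j z)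
  -- the product at radius `r` equals `r ^ m * C`, and the actual product is at least `s ^ m * C`
  have hprodge : s ^ m * C ≤ ∏ l, ‖z - ζ (η l₀) l‖ := by
    -- compare with radii slightly above r
    set A : Finset (Fin (S.d ^ j)) := Finset.univ.filter fun l => ‖z - ζ (η l₀) l‖ ≤ S.r j z with hA
    have hAc : A.card = m := hmc
    have hCeq : C = ∏ l ∈ Finset.univ.filter (fun l => ¬ ‖z - ζ (η l₀) l‖ ≤ S.r j z),
        ‖z - ζ (η l₀) l‖ := by
      -- evaluate at a radius close to `r`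
      obtain ⟨ρ₂, hρ₂, hB₂⟩ : ∃ ρ₂ : ℝ, S.r j z < ρ₂ ∧ ρ₂ ≤ ρ' ∧ ∀ l,
          ¬ ‖z - ζ (η l₀) l‖ ≤ S.r j z → ρ₂ ≤ ‖z - ζ (η l₀) l‖ := by
        by_cases hne : (Finset.univ.filter
            (fun l => ¬ ‖z - ζ (η l₀) l‖ ≤ S.r j z)).Nonempty
        · obtain ⟨l₄, hl₄, hmin₄⟩ := Finset.exists_min_image _
            (fun l => ‖z - ζ (η l₀) l‖) hne
          refine ⟨min ρ' ‖z - ζ (η l₀) l₄‖, lt_min hρ' (not_le.mp (Finset.mem_filter.mp hl₄).2),
            min_le_left _ _, fun l hl => (min_le_right _ _).trans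
              (hmin₄ l (Finset.mem_filter.mpr ⟨Finset.mem_univ _, hl⟩))⟩
        · rw [Finset.not_nonempty_iff_eq_empty] at hne
          refine ⟨ρ', hρ', le_rfl, fun l hl => ?_⟩
          have : l ∈ Finset.univ.filter (fun l => ¬ ‖z - ζ (η l₀) l‖ ≤ S.r j z) :=
            Finset.mem_filter.mpr ⟨Finset.mem_univ _, hl⟩
          rw [hne] at this
          exact absurd this (Finset.notMem_empty _)
      have hx1 : S.r j z < (S.r j z + ρ₂) / 2 := by linarith
      have hx2 : (S.r j z + ρ₂) / 2 < ρ' := by linarith [hB₂.1]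
      have h2 := hp _ hx1 hx2 (by linarith)
      rw [← Finset.prod_filter_mul_prod_filter_not Finset.univ
        (fun l => ‖z - ζ (η l₀) l‖ ≤ S.r j z)] at h2
      have h3 : ∏ l ∈ Finset.univ.filter (fun l => ‖z - ζ (η l₀) l‖ ≤ S.r j z),
          max ((S.r j z + ρ₂) / 2) ‖z - ζ (η l₀) l‖ =
          ((S.r j z + ρ₂) / 2) ^ cnt (ζ (η l₀)) z (S.r j z) := by
        have h4 : ∏ l ∈ A, max ((S.r j z + ρ₂) / 2) ‖z - ζ (η l₀) l‖ =
            ∏ _l ∈ A, ((S.r j z + ρ₂) / 2) := by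
          apply Finset.prod_congr rfl
          intro l hl
          exact max_eq_left ((Finset.mem_filter.mp hl).2.trans hx1.le)
        rw [h4, Finset.prod_const]
        rfl
      rw [h3] at h2
      have h5 := mul_left_cancel₀ (pow_ne_zero _ (by linarith : (S.r j z + ρ₂) / 2 ≠ 0)) h2
      rw [← h5]
      apply Finset.prod_congr rfl
      intro l hl
      have h6 := hB₂.2 l (Finset.mem_filter.mp hl).2
      exact max_eq_right (by linarith)
    rw [← Finset.prod_filter_mul_prod_filter_not Finset.univ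
      (fun l => ‖z - ζ (η l₀) l‖ ≤ S.r j z), ← hCeq]
    apply mul_le_mul_of_nonneg_right _ hC.le
    calc s ^ m = ∏ _l ∈ A, s := by rw [Finset.prod_const, hAc]
      _ ≤ ∏ l ∈ A, ‖z - ζ (η l₀) l‖ :=
          Finset.prod_le_prod (fun _ _ => hspos.le) fun l _ => hl₂ l (Finset.mem_univ _)
  -- for radii slightly above `r`
  have hkey : ∀ s', S.r j z < s' → s' < ρ' → S.R < S.e j * (s' ^ m * C) := by
    intro s' h2 h3
    have hc := core hζ₁ (hζ (η l₀)) (D_sub hb₁D hωD) hb₁ l₃ s' (by rw [← hr₁]; exact h2)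
    rw [hp s' h2 h3 (hrj.trans h2), hmc] at hc
    exact hc
  have hprod : S.e j * ∏ l, ‖z - ζ (η l₀) l‖ = S.r 1 w := by
    rw [← (hζ (η l₀)).2 z, ← hwη, ← hw]
  have hsC : S.e j * (s ^ m * C) ≤ S.r 1 w := by
    rw [← hprod]
    exact mul_le_mul_of_nonneg_left hprodge (S.e_pos j).le
  have hlog1 : Real.log (S.e j) + (m * Real.log s + Real.log C) ≤ Real.log (S.r 1 w) := by
    have h2 := Real.log_le_log (by have := S.e_pos j; positivity) hsC
    rwa [Real.log_mul (S.e_pos j).ne' (by positivity), Real.log_mul (by positivity) hC.ne',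
      Real.log_pow] at h2
  have hlog2 : Real.log S.R ≤ Real.log (S.e j) + (m * Real.log (S.r j z) + Real.log C) := by
    by_contra hcon
    push Not at hcon
    set gap := Real.log S.R - (Real.log (S.e j) + (m * Real.log (S.r j z) + Real.log C)) with hgap
    have hgap0 : 0 < gap := by linarith
    -- choose a radius
    set ε := min (gap / (m + 1)) (Real.log ρ' - Real.log (S.r j z)) / 2 with hε
    have hlρ : 0 < Real.log ρ' - Real.log (S.r j z) := by
      have := Real.log_lt_log hrj hρ'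
      linarith
    have hmin0 : 0 < min (gap / ((m : ℝ) + 1)) (Real.log ρ' - Real.log (S.r j z)) :=
      lt_min (by positivity) hlρ
    have hε0 : 0 < ε := by
      rw [hε]
      linarith
    have h2 : S.r j z < S.r j z * Real.exp ε := by
      have : 1 < Real.exp ε := Real.one_lt_exp_iff.mpr hε0
      nlinarith
    have h3 : S.r j z * Real.exp ε < ρ' := by
      rw [← Real.log_lt_log_iff (by positivity) (hrj.trans hρ'),
        Real.log_mul hrj.ne' (Real.exp_pos _).ne', Real.log_exp]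
      have : ε < Real.log ρ' - Real.log (S.r j z) := by
        rw [hε]
        have := min_le_right (gap / ((m : ℝ) + 1)) (Real.log ρ' - Real.log (S.r j z))
        linarith
      linarith
    have h4 := hkey _ h2 h3
    have h5 := Real.log_lt_log S.hR h4
    rw [Real.log_mul (S.e_pos j).ne' (by positivity), Real.log_mul (by positivity) hC.ne',
      Real.log_pow, Real.log_mul hrj.ne' (Real.exp_pos _).ne', Real.log_exp] at h5
    have h6 : (m : ℝ) * ε ≤ gap / 2 := by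
      have h7 : ε ≤ gap / ((m : ℝ) + 1) / 2 := by
        rw [hε]
        have := min_le_left (gap / ((m : ℝ) + 1)) (Real.log ρ' - Real.log (S.r j z))
        linarith
      calc (m : ℝ) * ε ≤ m * (gap / ((m : ℝ) + 1) / 2) :=
            mul_le_mul_of_nonneg_left h7 (Nat.cast_nonneg _)
        _ = (m / ((m : ℝ) + 1)) * (gap / 2) := by ring
        _ ≤ 1 * (gap / 2) := by
            apply mul_le_mul_of_nonneg_right _ (by linarith)
            rw [div_le_one (by positivity)]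
            linarith
        _ = gap / 2 := one_mul _
    have h8 : (m : ℝ) * (Real.log (S.r j z) + ε) = m * Real.log (S.r j z) + m * ε := by ring
    rw [h8] at h5
    linarith
  have hV : S.V ≤ S.h 1 w := h_one h0 h1w
  have hlogs : Real.log (S.r (j + 1) z) ≤ Real.log s := Real.log_le_log (r_pos h1) hs2
  unfold Sys.h at hV ⊢
  unfold Sys.t
  have h9 : (m : ℝ) * Real.log (S.r (j + 1) z) ≤ m * Real.log s :=
    mul_le_mul_of_nonneg_left hlogs (Nat.cast_nonneg _)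
  have h10 : (m : ℝ) * (-Real.log (S.r (j + 1) z) - -Real.log (S.r j z)) =
      m * Real.log (S.r j z) - m * Real.log (S.r (j + 1) z) := by ring
  rw [h10]
  linarith

end Sys

end Pool.Agent.W277.UG
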