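import Pool.Agent.W277.UG.D3

/-!
# Concentration in closeness balls costs energy
-/

namespace Pool.Agent.W277.UG

open Finset

namespace Sys

variable {Ω : Type*} [NormedField Ω] [IsUltrametricDist Ω] {S : Sys Ω}
variable {a j k : ℕ} {b b' x y z ω : Ω} {I I' : Type} [Fintype I] [Fintype I'] {ι : Type*}
  [Fintype ι]

/-- The pairing with the test measure, at one point. -/
lemma pairing_point {M : ℕ} (hM : 0 < M) {β β' : Fin M → Ω} {ω ω' : Fin M → I → Ω}
    (hω : ∀ m, S.IsRS a (β m) (ω m)) (hω' : ∀ m, S.IsRS a (β' m) (ω' m))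
    (hβD : ∀ m, S.D (β m)) (hβD' : ∀ m, S.D (β' m)) {r₁ r₂ : ℝ} (hr₂ : 0 < r₂) (hr : r₂ ≤ r₁)
    (hzD : S.D z) (h1 : ∀ m, ‖S.F^[a] z - β m‖ = max ‖S.F^[a] z - y‖ r₂)
    (h2 : ∀ m, ‖S.F^[a] z - β' m‖ = max ‖S.F^[a] z - y‖ r₁) {T : ℝ}
    (hT : ((S.d : ℝ) ^ a - 1) * S.t - Real.log r₂ ≤ T) :
    ∑ q, tau M I q * ker T z
        (Sum.elim (fun q : Fin M × I => ω q.1 q.2) (fun q : Fin M × I => ω' q.1 q.2) q) =
      psi y r₁ r₂ (S.F^[a] z) := by
  classical
  have hM' : (0 : ℝ) < M := by exact_mod_cast hM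
  have hr₁ : 0 < r₁ := hr₂.trans_le hr
  have e1 : Real.log r₂ ≤ Real.log (max ‖S.F^[a] z - y‖ r₂) :=
    Real.log_le_log hr₂ (le_max_right _ _)
  have e2 : Real.log r₂ ≤ Real.log (max ‖S.F^[a] z - y‖ r₁) :=
    Real.log_le_log hr₂ (hr.trans (le_max_right _ _))
  have s1 := row_sum hω hβD hzD (lt_max_of_lt_right hr₂) h1 (T := T) (by linarith)
  have s2 := row_sum hω' hβD' hzD (lt_max_of_lt_right hr₁) h2 (T := T) (by linarith)
  rw [Fintype.sum_sum_type]
  simp only [tau, Sum.elim_inl, Sum.elim_inr]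
  rw [← Finset.mul_sum, ← Finset.mul_sum, s1, s2]
  unfold psi
  field_simp
  ring

/-- Concentration in closeness balls costs energy. -/
lemma test [Nonempty ι] (p : ι → Ω) (hp : Function.Injective p) (hpD : ∀ i, S.D (p i))
    (hst : ∀ i, ∃ i', S.F (p i) = p i') (kk i a : ℕ) (y : Ω)
    (hy : ∀ n, S.D (S.F^[n] y)) (hk : 1 ≤ kk) (η : ℝ) (hη : 0 ≤ η) (A : Finset ι)
    (hA : ∀ q ∈ A, ‖S.F^[a] (p q) - y‖ ≤ S.r (i + 1) y)
    (hcard : (Fintype.card ι : ℝ) * (S.mul i y / (S.d : ℝ) ^ i + η) ≤ A.card) :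
    S.V - S.t / (S.d : ℝ) ^ (kk + i + a) + S.t * η ^ 2 / (S.d : ℝ) ^ (i + a) -
      (S.V + (S.d : ℝ) ^ (kk + i + a) * S.t) / Fintype.card ι ≤
      pairE p / (Fintype.card ι : ℝ) ^ 2 := by
  classical
  set k := kk + i + a with hkdef
  set T : ℝ := S.V + (S.d : ℝ) ^ k * S.t with hTdef
  have ht := S.t_pos
  have hT : S.V + ((S.d : ℝ) ^ k - 2) * S.t ≤ T := by
    rw [hTdef]
    nlinarith
  have hTR : -Real.log S.R ≤ T := by
    rw [hTdef]
    have := S.dpow_pos k
    have h2 : -Real.log S.R = S.V - S.t := by unfold Sys.t; ring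
    rw [h2]
    have : 0 < (S.d : ℝ) ^ k * S.t := mul_pos this ht
    linarith
  obtain ⟨β₀, hβ₀D, hβ₀T, hββ₀⟩ := exists_generic S (Finset.univ.image p) (by
    intro s hs
    simp only [Finset.mem_image, Finset.mem_univ, true_and] at hs
    obtain ⟨i, rfl⟩ := hs
    exact hpD i)
  -- the radii
  set r₁ := S.r i y with hr₁
  set r₂ := S.r (i + 1) y with hr₂
  have hr₁0 : 0 < r₁ := r_pos (hy i)
  have hr₂0 : 0 < r₂ := r_pos (hy (i + 1))
  have hsuc := h_succ (hy i) (hy (i + 1))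
  have hDi := S.dpow_pos i
  have hDa := S.dpow_pos a
  have hDk := S.dpow_pos k
  have hti : 0 < S.t / (S.d : ℝ) ^ i := div_pos ht hDi
  have hΔ : S.t / (S.d : ℝ) ^ i ≤ Real.log r₁ - Real.log r₂ := by
    unfold Sys.h at hsuc
    linarith
  set Δ := Real.log r₁ - Real.log r₂ with hΔdef
  have hΔ0 : 0 < Δ := hti.trans_le hΔ
  have hr : r₂ ≤ r₁ := by
    rw [← Real.log_le_log_iff hr₂0 hr₁0]
    linarith
  have hyD : S.D y := hy 0
  have hr₁R : r₁ ≤ S.R := r_le_R hyD (hy i)
  have hTa : ((S.d : ℝ) ^ a - 1) * S.t - Real.log r₂ ≤ T := by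
    have h1 := h_le hyD (hy (i + 1))
    unfold Sys.h at h1
    have h2 : (S.d : ℝ) ^ a + (S.d : ℝ) ^ (i + 1) ≤ (S.d : ℝ) ^ k + 1 := by
      have h3 : (1 : ℝ) ≤ (S.d : ℝ) ^ a := S.one_le_dpow a
      have h4 : (1 : ℝ) ≤ (S.d : ℝ) ^ (i + 1) := S.one_le_dpow (i + 1)
      have h5 : (S.d : ℝ) ^ (i + 1 + a) ≤ (S.d : ℝ) ^ k :=
        pow_le_pow_right₀ (by linarith [S.dR]) (by omega)
      have h6 : (S.d : ℝ) ^ (i + 1 + a) = (S.d : ℝ) ^ a * (S.d : ℝ) ^ (i + 1) := by
        rw [← pow_add, add_comm]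
      nlinarith
    have h3 : ((S.d : ℝ) ^ a - 1 + ((S.d : ℝ) ^ (i + 1) - 2)) * S.t ≤ (S.d : ℝ) ^ k * S.t :=
      mul_le_mul_of_nonneg_right (by linarith) ht.le
    rw [hTdef]
    linarith
  obtain ⟨u₂, hu₂, hu₂n⟩ := exists_u (hy (i + 1))
  obtain ⟨u₁, hu₁, hu₁n⟩ := exists_u (hy i)
  rw [← hr₂] at hu₂n
  rw [← hr₁] at hu₁n
  have hballD : ∀ w : Ω, ‖w - y‖ ≤ r₁ → S.D w := fun w hw => tri_le (hw.trans hr₁R) hyD
  choose fk hfk using exists_rs S kk
  choose fi hfi using exists_rs S i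
  choose fa hfa using exists_rs S a
  have hNpos : (0 : ℝ) < Fintype.card ι := by exact_mod_cast Fintype.card_pos
  set N : ℝ := (Fintype.card ι : ℝ) with hNdef
  have hkey : ∀ M : ℕ, 0 < M → Δ * η ^ 2 / (S.d : ℝ) ^ a ≤ (pairE p / N ^ 2 +
      T / N - (S.V - S.t / (S.d : ℝ) ^ k)) + (T - (S.V - S.t / (S.d : ℝ) ^ k)) / M := by
    intro M hM
    have hM' : (0 : ℝ) < M := by exact_mod_cast hM
    let IK := (Fin (S.d ^ kk) × Fin (S.d ^ i)) × Fin (S.d ^ a)
    let w : Fin M → Fin (S.d ^ kk) × Fin (S.d ^ i) → Ω := fun m q => fi (fk (β₀ m) q.1) q.2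
    let ζ : Fin M → IK → Ω := fun m q => fa (w m q.1) q.2
    have hw : ∀ m : Fin M, S.IsRS (kk + i) (β₀ m) (w m) := fun m =>
      rs_comp (hfk (β₀ m)) (fun q => hfi _) (by simp)
    have hζ : ∀ m : Fin M, S.IsRS k (β₀ m) (ζ m) := fun m =>
      rs_comp (hw m) (fun q => hfa _) (by simp)
    have hgen : ∀ i (m : Fin M), ‖S.F^[k] (p i) - β₀ m‖ = S.R := by
      intro i m
      obtain ⟨i', hi'⟩ := orb_mem hst k i
      rw [hi', nsc]
      exact hβ₀T m _ (Finset.mem_image_of_mem _ (Finset.mem_univ _))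
    have hen := energy_le hM p hp hpD (fun m : Fin M => β₀ m) (fun m => hβ₀D m) hgen
      (fun m m' h => hββ₀ _ _ (fun h' => h (Fin.ext h'))) ζ hζ hT
    set pt : ι ⊕ (Fin M × IK) → Ω := Sum.elim p (fun q : Fin M × IK => ζ q.1 q.2) with hpt
    have hptD : ∀ q, S.D (pt q) := by
      rintro (i | q)
      · exact hpD i
      · exact rs_D (hζ q.1) (hβ₀D _) q.2
    set σ := S.wgt ι k M IK with hσ
    have hσ0 : ∑ q, σ q = 0 := wgt_sum hM (hζ ⟨0, hM⟩).1
    set EA := ∑ q, ∑ q', σ q * σ q' * ker T (pt q) (pt q') with hEA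
    have hEA0 : 0 ≤ EA := psd_zero (fun q q' => ker T (pt q) (pt q')) σ (-Real.log S.R) hσ0
      (fun _ _ => ker_symm _ _ _) (fun _ _ _ => ker_ultra _ _ _ _)
      (fun q q' => ker_ge (hptD q) (hptD q') hTR)
    -- the pairing with the window
    have hpair : Δ * η ≤ ∑ q, σ q * psi y r₁ r₂ (S.F^[a] (pt q)) := by
      rw [Fintype.sum_sum_type]
      have h1 : Δ * (A.card / N) ≤
          ∑ q : ι, σ (Sum.inl q) * psi y r₁ r₂ (S.F^[a] (pt (Sum.inl q))) := by
        have h2 : ∀ q : ι, σ (Sum.inl q) = 1 / N := fun q => rfl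
        simp only [h2, hpt, Sum.elim_inl]
        rw [← Finset.mul_sum]
        have h3 : (A.card : ℝ) * Δ ≤ ∑ q : ι, psi y r₁ r₂ (S.F^[a] (p q)) := by
          calc (A.card : ℝ) * Δ = ∑ q ∈ A, psi y r₁ r₂ (S.F^[a] (p q)) := by
                rw [← nsmul_eq_mul, ← Finset.sum_const]
                apply Finset.sum_congr rfl
                intro q hq
                rw [psi_top hr (hA q hq)]
            _ ≤ _ := Finset.sum_le_sum_of_subset_of_nonneg (Finset.subset_univ _)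
                fun q _ _ => psi_nonneg hr₂0 hr _
        calc Δ * (A.card / N) = 1 / N * (A.card * Δ) := by ring
          _ ≤ _ := mul_le_mul_of_nonneg_left h3 (by positivity)
      have h2 : -(Δ * (S.mul i y / (S.d : ℝ) ^ i)) ≤
          ∑ q : Fin M × IK, σ (Sum.inr q) * psi y r₁ r₂ (S.F^[a] (pt (Sum.inr q))) := by
        have h3 : ∀ q : Fin M × IK, σ (Sum.inr q) = -(1 / (M * (S.d : ℝ) ^ k)) := fun q => rfl
        simp only [h3, hpt, Sum.elim_inr]
        rw [← Finset.mul_sum]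
        have h4 : ∑ q : Fin M × IK, psi y r₁ r₂ (S.F^[a] (ζ q.1 q.2)) ≤
            M * ((S.d : ℝ) ^ kk * ((S.mul i y * Δ) * (S.d : ℝ) ^ a)) := by
          rw [Fintype.sum_prod_type]
          have h5 : ∀ m : Fin M, ∑ q : IK, psi y r₁ r₂ (S.F^[a] (ζ m q)) ≤
              (S.d : ℝ) ^ kk * ((S.mul i y * Δ) * (S.d : ℝ) ^ a) := by
            intro m
            have h6 : ∀ q : IK, S.F^[a] (ζ m q) = w m q.1 := fun q => rs_root (hfa _) q.2
            simp_rw [h6]
            rw [Fintype.sum_prod_type, Fintype.sum_prod_type]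
            have h7 : ∀ q₁ : Fin (S.d ^ kk), ∑ q₂ : Fin (S.d ^ i), ∑ _q₃ : Fin (S.d ^ a),
                psi y r₁ r₂ (w m (q₁, q₂)) ≤ (S.mul i y * Δ) * (S.d : ℝ) ^ a := by
              intro q₁
              simp only [Finset.sum_const, Finset.card_univ, Fintype.card_fin, nsmul_eq_mul]
              rw [← Finset.mul_sum, mul_comm, Nat.cast_pow]
              apply mul_le_mul_of_nonneg_right _ hDa.le
              have hxD : S.D (fk (β₀ m) q₁) := rs_D (hfk _) (hβ₀D _) q₁
              have h8 := mul_eq (hy i) (hfi (fk (β₀ m) q₁)) hxD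
              rw [← h8]
              unfold cnt
              rw [← nsmul_eq_mul, ← Finset.sum_const, Finset.sum_filter]
              apply Finset.sum_le_sum
              intro q₂ _
              split_ifs with h9
              · exact psi_le hr₂0 hr _
              · apply le_of_eq
                apply psi_zero hr
                rw [nsc]
                exact (not_le.mp h9).le
            calc _ ≤ ∑ _q₁ : Fin (S.d ^ kk), (S.mul i y * Δ) * (S.d : ℝ) ^ a :=
                  Finset.sum_le_sum fun q₁ _ => h7 q₁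
              _ = _ := by
                  rw [Finset.sum_const, Finset.card_univ, Fintype.card_fin, nsmul_eq_mul,
                    Nat.cast_pow]
          calc _ ≤ ∑ _m : Fin M, (S.d : ℝ) ^ kk * ((S.mul i y * Δ) * (S.d : ℝ) ^ a) :=
                Finset.sum_le_sum fun m _ => h5 m
            _ = _ := by
                rw [Finset.sum_const, Finset.card_univ, Fintype.card_fin, nsmul_eq_mul]
        have h5 := mul_le_mul_of_nonneg_left h4
          (show (0 : ℝ) ≤ 1 / (M * (S.d : ℝ) ^ k) by positivity)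
        have h6 : 1 / (M * (S.d : ℝ) ^ k) *
            (M * ((S.d : ℝ) ^ kk * ((S.mul i y * Δ) * (S.d : ℝ) ^ a))) =
            Δ * (S.mul i y / (S.d : ℝ) ^ i) := by
          have h7 : (S.d : ℝ) ^ k = (S.d : ℝ) ^ kk * (S.d : ℝ) ^ i * (S.d : ℝ) ^ a := by
            rw [hkdef, pow_add, pow_add]
          rw [h7]
          have h8 := (S.dpow_pos kk).ne'
          have h9 := hDi.ne'
          have h10 := hDa.ne'
          field_simp
        rw [h6] at h5
        linarith
      have h3 : η ≤ A.card / N - S.mul i y / (S.d : ℝ) ^ i := by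
        have h4 : S.mul i y / (S.d : ℝ) ^ i + η ≤ A.card / N := by
          rw [le_div_iff₀ hNpos]
          linarith
        linarith
      have h4 := mul_le_mul_of_nonneg_left h3 hΔ0.le
      rw [mul_sub] at h4
      linarith
    -- the test measures
    set T₁ : Finset Ω := Finset.univ.image (fun q => S.F^[a] (pt q)) with hT₁
    obtain ⟨β, hβy, hβT, hββ⟩ := exists_generic_ball S y u₂ hu₂ T₁
    rw [hu₂n] at hβy hβT hββ
    have hβD : ∀ m, S.D (β m) := fun m => hballD _ ((hβy m).trans hr)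
    have hM2 : ∀ M' : ℕ, 0 < M' → (Δ * η) ^ 2 ≤ EA * ((S.d : ℝ) ^ a * Δ) +
        EA * ((S.d : ℝ) ^ a * (2 * (S.d : ℝ) ^ a * T - 2 * (((S.d : ℝ) ^ a - 1) * S.V) +
          Real.log r₂ + Real.log r₁)) / M' := by
      intro M' hM''
      obtain ⟨β', hβy', hβT', hββ'⟩ := exists_generic_ball S y u₁ hu₁
        (T₁ ∪ (Finset.range M').image β)
      rw [hu₁n] at hβy' hβT' hββ'
      have hβD' : ∀ m, S.D (β' m) := fun m => hballD _ (hβy' m)
      have hτE := tau_energy hM'' (β := fun m : Fin M' => β m) (β' := fun m : Fin M' => β' m)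
        (ω := fun m => fa (β m)) (ω' := fun m => fa (β' m)) (fun m => hfa _) (fun m => hfa _)
        (fun m => hβD m) (fun m => hβD' m) hr₂0 hr
        (fun m m' h => hββ _ _ (fun h' => h (Fin.ext h')))
        (fun m m' => by
          rw [nsc, hβT' m' (β m) (Finset.mem_union_right _ (Finset.mem_image_of_mem _
            (Finset.mem_range.mpr m.2))), max_eq_right ((hβy m).trans hr)])
        (fun m m' h => hββ' _ _ (fun h' => h (Fin.ext h'))) hTa
      set pt' : (Fin M' × Fin (S.d ^ a)) ⊕ (Fin M' × Fin (S.d ^ a)) → Ω :=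
        Sum.elim (fun q => fa (β q.1) q.2) (fun q => fa (β' q.1) q.2) with hpt'
      have hptD' : ∀ q, S.D (pt' q) := by
        rintro (q | q)
        · exact rs_D (hfa _) (hβD _) q.2
        · exact rs_D (hfa _) (hβD' _) q.2
      have hcs := cs_zero (fun q q' => ker T (Sum.elim pt pt' q) (Sum.elim pt pt' q')) σ
        (tau M' (Fin (S.d ^ a))) (-Real.log S.R) hσ0 (tau_sum M' _)
        (fun _ _ => ker_symm _ _ _) (fun _ _ _ => ker_ultra _ _ _ _) (by
          intro q q'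
          apply ker_ge _ _ hTR
          · rcases q with q | q
            · exact hptD q
            · exact hptD' q
          · rcases q' with q' | q'
            · exact hptD q'
            · exact hptD' q')
      simp only [Sum.elim_inl, Sum.elim_inr] at hcs
      have hX : ∑ q, ∑ q', σ q * tau M' (Fin (S.d ^ a)) q' * ker T (pt q) (pt' q') =
          ∑ q, σ q * psi y r₁ r₂ (S.F^[a] (pt q)) := by
        apply Finset.sum_congr rfl
        intro q _
        have h1 : ∀ m : Fin M', ‖S.F^[a] (pt q) - β m‖ = max ‖S.F^[a] (pt q) - y‖ r₂ := by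
          intro m
          rw [nsc]
          exact hβT m _ (Finset.mem_image_of_mem _ (Finset.mem_univ _))
        have h2 : ∀ m : Fin M', ‖S.F^[a] (pt q) - β' m‖ = max ‖S.F^[a] (pt q) - y‖ r₁ := by
          intro m
          rw [nsc]
          exact hβT' m _ (Finset.mem_union_left _ (Finset.mem_image_of_mem _
            (Finset.mem_univ _)))
        have h3 := pairing_point hM'' (β := fun m : Fin M' => β m)
          (β' := fun m : Fin M' => β' m) (ω := fun m => fa (β m)) (ω' := fun m => fa (β' m))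
          (fun m => hfa _) (fun m => hfa _) (fun m => hβD m) (fun m => hβD' m) hr₂0 hr
          (hptD q) h1 h2 hTa
        rw [← h3, Finset.mul_sum]
        apply Finset.sum_congr rfl
        intro q' _
        rw [mul_assoc]
      rw [hX] at hcs
      have h1 : (Δ * η) ^ 2 ≤ (∑ q, σ q * psi y r₁ r₂ (S.F^[a] (pt q))) ^ 2 :=
        pow_le_pow_left₀ (mul_nonneg hΔ0.le hη) hpair 2
      have h2 := mul_le_mul_of_nonneg_left hτE hEA0
      refine h1.trans (hcs.trans (h2.trans (le_of_eq ?_)))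
      ring
    have hlim := limit_le hM2
    have h3 : Δ * η ^ 2 / (S.d : ℝ) ^ a ≤ EA := by
      rw [div_le_iff₀ hDa]
      have h4 : Δ * (Δ * η ^ 2) ≤ Δ * (EA * (S.d : ℝ) ^ a) := by
        calc Δ * (Δ * η ^ 2) = (Δ * η) ^ 2 := by ring
          _ ≤ EA * ((S.d : ℝ) ^ a * Δ) := hlim
          _ = Δ * (EA * (S.d : ℝ) ^ a) := by ring
      exact le_of_mul_le_mul_left h4 hΔ0
    linarith
  have h1 := limit_le hkey
  have h2 : S.t * η ^ 2 / (S.d : ℝ) ^ (i + a) ≤ Δ * η ^ 2 / (S.d : ℝ) ^ a := by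
    rw [pow_add, ← div_div]
    apply div_le_div_of_nonneg_right _ hDa.le
    calc S.t * η ^ 2 / (S.d : ℝ) ^ i = S.t / (S.d : ℝ) ^ i * η ^ 2 := by ring
      _ ≤ Δ * η ^ 2 := mul_le_mul_of_nonneg_right hΔ (by positivity)
  linarith

end Sys

end Pool.Agent.W277.UG
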