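import Pool.Agent.W277.UG.D5
import Pool.Agent.W277.UG.A7

/-!
# Two roots in a ball force a critical point (residue characteristic zero)
-/

namespace Pool.Agent.W277.UG

open Finset

variable {Ω : Type*} [NormedField Ω] [IsUltrametricDist Ω]

lemma norm_sum_lt_one {α : Type*} (s : Finset α) (f : α → Ω) (h : ∀ i ∈ s, ‖f i‖ < 1) :
    ‖∑ i ∈ s, f i‖ < 1 := by
  classical
  induction s using Finset.induction_on with
  | empty => simp
  | insert i s hi ih =>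
    rw [Finset.sum_insert hi]
    refine (IsUltrametricDist.norm_add_le_max _ _).trans_lt (max_lt ?_ ?_)
    · exact h i (Finset.mem_insert_self _ _)
    · exact ih fun i' hi' => h i' (Finset.mem_insert_of_mem hi')

/-- The norm of the logarithmic derivative. -/
lemma norm_logDeriv {n : ℕ} (ζ : Fin n → Ω) (x w : Ω) (hw : w ≠ 0)
    (hnat : ∀ n : ℕ, n ≠ 0 → ‖(n : Ω)‖ = 1) (hne : ∀ l, ‖x - ζ l‖ ≠ ‖w‖)
    (hex : ∃ l, ‖x - ζ l‖ < ‖w‖) : ‖∑ l, ((x + w) - ζ l)⁻¹‖ = ‖w‖⁻¹ := by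
  classical
  have hwpos : 0 < ‖w‖ := norm_pos_iff.mpr hw
  have hzw : ‖(x + w) - x‖ = ‖w‖ := by rw [add_sub_cancel_left]
  have hm : ∀ l, ‖(x + w) - ζ l‖ = max ‖w‖ ‖x - ζ l‖ := by
    intro l
    rw [tri_ne (y := x) (by rw [hzw]; exact (hne l).symm), hzw]
  have hne0 : ∀ l, (x + w) - ζ l ≠ 0 := by
    intro l
    rw [← norm_pos_iff, hm l]
    exact lt_max_of_lt_left hwpos
  set A : Finset (Fin n) := Finset.univ.filter fun l => ‖x - ζ l‖ < ‖w‖ with hA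
  set ε : Fin n → Ω := fun l => if ‖x - ζ l‖ < ‖w‖ then (ζ l - x) * ((x + w) - ζ l)⁻¹ else
    w * ((x + w) - ζ l)⁻¹ with hε
  have hsum : w * ∑ l, ((x + w) - ζ l)⁻¹ = (A.card : Ω) + ∑ l, ε l := by
    rw [Finset.mul_sum]
    have h1 : (A.card : Ω) = ∑ l, if ‖x - ζ l‖ < ‖w‖ then (1 : Ω) else 0 := by
      rw [Finset.sum_ite, Finset.sum_const_zero, add_zero, Finset.sum_const, nsmul_eq_mul,
        mul_one]
    rw [h1, ← Finset.sum_add_distrib]
    apply Finset.sum_congr rfl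
    intro l _
    simp only [hε]
    split_ifs with h
    · have h2 := hne0 l
      field_simp
      ring
    · rw [zero_add]
  have hεlt : ‖∑ l, ε l‖ < 1 := by
    apply norm_sum_lt_one
    intro l _
    simp only [hε]
    split_ifs with h
    · rw [norm_mul, norm_inv, hm l, max_eq_left h.le, nsc, mul_inv_lt_iff₀ hwpos, one_mul]
      exact h
    · have h2 : ‖w‖ < ‖x - ζ l‖ := lt_of_le_of_ne (not_lt.mp h) (hne l).symm
      rw [norm_mul, norm_inv, hm l, max_eq_right h2.le, mul_inv_lt_iff₀ (hwpos.trans h2), one_mul]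
      exact h2
  have hAc : A.card ≠ 0 := by
    rw [← Nat.pos_iff_ne_zero, Finset.card_pos]
    obtain ⟨l, hl⟩ := hex
    exact ⟨l, Finset.mem_filter.mpr ⟨Finset.mem_univ _, hl⟩⟩
  have h1 : ‖w * ∑ l, ((x + w) - ζ l)⁻¹‖ = 1 := by
    rw [hsum, IsUltrametricDist.norm_add_eq_max_of_norm_ne_norm (by
      rw [hnat _ hAc]
      exact hεlt.ne'), hnat _ hAc, max_eq_left hεlt.le]
  rw [norm_mul] at h1
  rw [← mul_left_cancel_iff_of_pos hwpos, h1, mul_inv_cancel₀ hwpos.ne']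

/-- The logarithmic derivative of a polynomial. -/
lemma eval_deriv [Infinite Ω] {n : ℕ} (G : Polynomial Ω) (b A : Ω) (ζ : Fin n → Ω)
    (hζ : ∀ z, G.eval z - b = A * ∏ l, (z - ζ l)) (z : Ω) (hz : ∀ l, z - ζ l ≠ 0) :
    G.derivative.eval z = (G.eval z - b) * ∑ l, (z - ζ l)⁻¹ := by
  classical
  have h1 : G - Polynomial.C b = Polynomial.C A * ∏ l, (Polynomial.X - Polynomial.C (ζ l)) := by
    apply Polynomial.funext
    intro z
    rw [Polynomial.eval_sub, Polynomial.eval_C, hζ z, Polynomial.eval_mul, Polynomial.eval_C,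
      Polynomial.eval_prod]
    simp
  have h2 : G.derivative = (G - Polynomial.C b).derivative := by
    rw [Polynomial.derivative_sub, Polynomial.derivative_C, sub_zero]
  rw [h2, h1, Polynomial.derivative_C_mul, Polynomial.derivative_prod_finset, hζ z,
    Polynomial.eval_mul, Polynomial.eval_C, Polynomial.eval_finsetSum, mul_assoc]
  congr 1
  rw [Finset.mul_sum]
  apply Finset.sum_congr rfl
  intro l _
  rw [Polynomial.derivative_X_sub_C, mul_one, Polynomial.eval_prod]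
  simp only [Polynomial.eval_sub, Polynomial.eval_X, Polynomial.eval_C]
  rw [← Finset.mul_prod_erase _ _ (Finset.mem_univ l)]
  have h3 := hz l
  field_simp

/-- Two roots in a ball force a critical point. -/
lemma crit_poly [Infinite Ω] (hnat : ∀ n : ℕ, n ≠ 0 → ‖(n : Ω)‖ = 1)
    (hdense : ∀ (T : Finset ℝ) (a b : ℝ), 0 < a → a < b → ∃ w : Ω, a < ‖w‖ ∧ ‖w‖ < b ∧ ‖w‖ ∉ T)
    {n m : ℕ} (G : Polynomial Ω) (b A A' : Ω) (hA : A ≠ 0) (ζ : Fin n → Ω)
    (c : Fin m → Ω) (hζ : ∀ z, G.eval z - b = A * ∏ l, (z - ζ l))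
    (hc : ∀ z, G.derivative.eval z = A' * ∏ l, (z - c l)) (x : Ω) (ρ : ℝ) (l₁ l₂ : Fin n)
    (hl : l₁ ≠ l₂) (h1 : ‖x - ζ l₁‖ ≤ ρ) (h2 : ‖x - ζ l₂‖ ≤ ρ) : ∃ i, ‖x - c i‖ ≤ ρ := by
  classical
  by_contra hcon
  push Not at hcon
  have hρ : 0 ≤ ρ := (norm_nonneg _).trans h1
  obtain ⟨ρ₁, hρ₁, C₁, hC₁, hp₁⟩ := Sys.prod_max ζ x ρ
  obtain ⟨ρ₂, hρ₂, C₂, hC₂, hp₂⟩ := Sys.prod_max c x ρ
  have hm0 : Sys.cnt c x ρ = 0 := by
    unfold Sys.cnt
    rw [Finset.card_eq_zero, Finset.filter_eq_empty_iff]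
    intro i _
    exact not_le.mpr (hcon i)
  have hm2 : 2 ≤ Sys.cnt ζ x ρ := by
    unfold Sys.cnt
    have h3 : ({l₁, l₂} : Finset (Fin n)) ⊆ Finset.univ.filter fun l => ‖x - ζ l‖ ≤ ρ := by
      intro l hl'
      rw [Finset.mem_insert, Finset.mem_singleton] at hl'
      rw [Finset.mem_filter]
      refine ⟨Finset.mem_univ _, ?_⟩
      rcases hl' with rfl | rfl
      · exact h1
      · exact h2
    have h4 := Finset.card_le_card h3
    rw [Finset.card_pair hl] at h4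
    exact le_trans h4 (le_of_eq (by congr 1))
  set M := Sys.cnt ζ x ρ with hM
  -- the relation at a generic radius
  have hrel : ∀ α β, ρ ≤ α → α < β → 0 < α → β ≤ ρ₁ → β ≤ ρ₂ → ∃ s, α < s ∧ s < β ∧
      ‖A'‖ * C₂ * s = ‖A‖ * (s ^ M * C₁) := by
    intro α β hα hαβ hα0 hβ1 hβ2
    obtain ⟨w, hw1, hw2, hw3⟩ := hdense (Finset.univ.image (fun l => ‖x - ζ l‖) ∪
      Finset.univ.image (fun l => ‖x - c l‖)) α β hα0 hαβ
    rw [Finset.mem_union, not_or] at hw3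
    simp only [Finset.mem_image, Finset.mem_univ, true_and, not_exists] at hw3
    have hwpos : 0 < ‖w‖ := hα0.trans hw1
    have hw0 : w ≠ 0 := norm_pos_iff.mp hwpos
    have hzw : ‖(x + w) - x‖ = ‖w‖ := by rw [add_sub_cancel_left]
    have hmm : ∀ y, ‖x - y‖ ≠ ‖w‖ → ‖(x + w) - y‖ = max ‖w‖ ‖x - y‖ := by
      intro y hy
      rw [tri_ne (y := x) (by rw [hzw]; exact hy.symm), hzw]
    have hne0 : ∀ l, (x + w) - ζ l ≠ 0 := by
      intro l
      rw [← norm_pos_iff, hmm _ (hw3.1 l)]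
      exact lt_max_of_lt_left hwpos
    have e1 := norm_logDeriv ζ x w hw0 hnat hw3.1 ⟨l₁, h1.trans_lt (hα.trans_lt hw1)⟩
    have e2 := eval_deriv G b A ζ hζ (x + w) hne0
    have e3 := congrArg norm e2
    rw [hc, hζ, norm_mul, norm_mul, norm_mul, norm_prod, norm_prod, e1] at e3
    have e4 : ∏ l, ‖(x + w) - c l‖ = ∏ l, max ‖w‖ ‖x - c l‖ :=
      Finset.prod_congr rfl fun l _ => hmm _ (hw3.2 l)
    have e5 : ∏ l, ‖(x + w) - ζ l‖ = ∏ l, max ‖w‖ ‖x - ζ l‖ :=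
      Finset.prod_congr rfl fun l _ => hmm _ (hw3.1 l)
    rw [e4, e5, hp₁ ‖w‖ (by linarith) (by linarith) hwpos,
      hp₂ ‖w‖ (by linarith) (by linarith) hwpos, hm0, pow_zero, one_mul] at e3
    refine ⟨‖w‖, hw1, hw2, ?_⟩
    rw [e3]
    field_simp
  set ρ' := min ρ₁ ρ₂ with hρ'
  have hlt : ρ < ρ' := lt_min hρ₁ hρ₂
  have hle1 : ρ' ≤ ρ₁ := min_le_left _ _
  have hle2 : ρ' ≤ ρ₂ := min_le_right _ _
  obtain ⟨s, hs1, hs2, hs⟩ := hrel ((2 * ρ + ρ') / 3) ((ρ + 2 * ρ') / 3) (by linarith)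
    (by linarith) (by linarith) (by linarith) (by linarith)
  obtain ⟨s', hs1', hs2', hs'⟩ := hrel ((ρ + 2 * ρ') / 3) ρ' (by linarith) (by linarith)
    (by linarith) hle1 hle2
  have hs0 : 0 < s := by linarith
  have hs0' : 0 < s' := by linarith
  have hss : s < s' := by linarith
  obtain ⟨M', hM'⟩ : ∃ M', M = M' + 2 := ⟨M - 2, by omega⟩
  have hAn : 0 < ‖A‖ := norm_pos_iff.mpr hA
  have f1 : ‖A'‖ * C₂ = ‖A‖ * C₁ * s ^ (M' + 1) := by
    have : s * (‖A'‖ * C₂) = s * (‖A‖ * C₁ * s ^ (M' + 1)) := by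
      rw [mul_comm, hs, hM']
      ring
    exact mul_left_cancel₀ hs0.ne' this
  have f2 : ‖A'‖ * C₂ = ‖A‖ * C₁ * s' ^ (M' + 1) := by
    have : s' * (‖A'‖ * C₂) = s' * (‖A‖ * C₁ * s' ^ (M' + 1)) := by
      rw [mul_comm, hs', hM']
      ring
    exact mul_left_cancel₀ hs0'.ne' this
  have f3 : s ^ (M' + 1) < s' ^ (M' + 1) := pow_lt_pow_left₀ hss hs0.le (by omega)
  have f4 : ‖A‖ * C₁ * s ^ (M' + 1) < ‖A‖ * C₁ * s' ^ (M' + 1) :=
    mul_lt_mul_of_pos_left f3 (mul_pos hAn hC₁)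
  linarith

end Pool.Agent.W277.UG
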