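import Pool.Agent.W277.UG.D6
import Pool.Agent.W277.UG.A8

/-!
# The strong local theorem at a bad place
-/

namespace Pool.Agent.W277.UG

open Pool.Agent.W277.UB Finset Polynomial

universe u

variable {k : Type*} {K : Type u} [Field k] [Field K] [Algebra k K]

/-- The system attached to a bad place. -/
theorem exists_sys2 [CharZero k] (Q : PlaceData k K) (v : Q.Pl) (f : K[X]) (d : ℕ)
    (hd : 2 ≤ d) (hf : f.natDegree = d) (P : Finset K) (hst : ∀ x ∈ P, f.eval x ∈ P)
    (x₁ y₁ : K) (hx₁ : x₁ ∈ P) (hy₁ : y₁ ∈ P) (hxy : x₁ ≠ y₁)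
    (hbad : (Q.ord v (x₁ - y₁) : ℝ) < -(Q.ord v f.leadingCoeff) / ((d : ℝ) - 1)) :
    ∃ (Ω : Type u) (_ : NormedField Ω) (_ : IsUltrametricDist Ω) (ι : K →+* Ω) (S : Sys Ω)
      (c : Fin (S.d - 1) → Ω), Sys.Crit S c ∧
      (∀ x : K, x ≠ 0 → ‖ι x‖ = Real.exp (-(Q.ord v x : ℝ))) ∧
      (∀ x : K, S.F (ι x) = ι (f.eval x)) ∧ S.d = d ∧
      S.V = -(Q.ord v f.leadingCoeff) / ((d : ℝ) - 1) ∧ (∀ x ∈ P, S.D (ι x)) ∧
      -(Q.ord v (x₁ - y₁) : ℝ) ≤ Real.log S.R := by
  classical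
  set V : ℝ := -(Q.ord v f.leadingCoeff) / ((d : ℝ) - 1) with hV
  have hf0 : f ≠ 0 := by
    rintro rfl
    rw [natDegree_zero] at hf
    omega
  have hA0 : f.leadingCoeff ≠ 0 := leadingCoeff_ne_zero.mpr hf0
  have hd1 : (0 : ℝ) < (d : ℝ) - 1 := by
    have : (2 : ℝ) ≤ d := by exact_mod_cast hd
    linarith
  have hdV : ((d : ℝ) - 1) * V = -(Q.ord v f.leadingCoeff) := by
    rw [hV]
    field_simp
  have hxy0 : x₁ - y₁ ≠ 0 := sub_ne_zero.mpr hxy
  -- a nontrivial element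
  obtain ⟨π, hπ0, hπ⟩ : ∃ π : K, π ≠ 0 ∧ Q.ord v π ≠ 0 := by
    by_cases h : Q.ord v (x₁ - y₁) = 0
    · refine ⟨f.leadingCoeff, hA0, fun h' => ?_⟩
      rw [hV, h, h'] at hbad
      simp at hbad
    · exact ⟨x₁ - y₁, hxy0, h⟩
  obtain ⟨Ω, i1, i2, i3, ι, hι⟩ := exists_ext Q v π hπ0 hπ
  have hιinj : Function.Injective ι := ι.injective
  set g : Polynomial Ω := f.map ι with hg
  have hgd : g.natDegree = d := by rw [hg, natDegree_map, hf]
  have hgl : g.leadingCoeff = ι f.leadingCoeff := by rw [hg, leadingCoeff_map]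
  have hnl : ‖g.leadingCoeff‖ = Real.exp (((d : ℝ) - 1) * V) := by
    rw [hgl, hι _ hA0, hdV]
  have hgdeg : g.degree = d := by
    rw [degree_eq_natDegree (by
      intro h
      rw [h, natDegree_zero] at hgd
      omega), hgd]
  -- root families for `g - q` with `deg q ≤ 1`
  have hfam : ∀ q : Polynomial Ω, q.degree < g.degree → ∃ ζ : Fin d → Ω, ∀ z,
      ‖g.eval z - q.eval z‖ = Real.exp (((d : ℝ) - 1) * V) * ∏ l, ‖z - ζ l‖ := by
    intro q hq
    have h1 : (g - q).natDegree = d := by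
      rw [← hgd]
      exact natDegree_eq_of_degree_eq (degree_sub_eq_left_of_degree_lt hq)
    have h2 : (g - q).leadingCoeff = g.leadingCoeff := leadingCoeff_sub_of_degree_lt hq
    obtain ⟨ζ, hζ⟩ := exists_root_family (g - q)
    refine ⟨ζ ∘ finCongr h1.symm, fun z => ?_⟩
    rw [← eval_sub, hζ z, norm_mul, h2, hnl, norm_prod]
    congr 1
    exact (Equiv.prod_comp (finCongr h1.symm) fun l => ‖z - ζ l‖).symm
  obtain ⟨ξ, hξ⟩ := hfam X (by
    rw [degree_X, hgdeg]
    exact_mod_cast (by omega : 1 < d))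
  simp only [eval_X] at hξ
  have hfix : ∀ l, g.eval (ξ l) = ξ l := by
    intro l
    have h1 := hξ (ξ l)
    have h2 : ∏ l', ‖ξ l - ξ l'‖ = 0 := by
      apply Finset.prod_eq_zero (Finset.mem_univ l)
      simp
    rw [h2, mul_zero, norm_eq_zero, sub_eq_zero] at h1
    exact h1
  -- the radius
  have hne : (P ×ˢ (Finset.univ : Finset (Fin d))).Nonempty :=
    ⟨(x₁, ⟨0, by omega⟩), Finset.mem_product.mpr ⟨hx₁, Finset.mem_univ _⟩⟩
  obtain ⟨⟨a₀, l₀⟩, hmem, hmax⟩ := Finset.exists_max_image _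
    (fun q : K × Fin d => ‖ι q.1 - ξ q.2‖) hne
  rw [Finset.mem_product] at hmem
  have hmax' : ∀ x ∈ P, ∀ l, ‖ι x - ξ l‖ ≤ ‖ι a₀ - ξ l₀‖ := fun x hx l =>
    hmax (x, l) (Finset.mem_product.mpr ⟨hx, Finset.mem_univ _⟩)
  set R : ℝ := ‖ι a₀ - ξ l₀‖ with hR
  have hPP : ∀ x ∈ P, ∀ y ∈ P, ‖ι x - ι y‖ ≤ R := by
    intro x hx y hy
    refine tri_le (hmax' x hx l₀) ?_
    rw [nsc]
    exact hmax' y hy l₀
  have hxyR : Real.exp (-(Q.ord v (x₁ - y₁) : ℝ)) ≤ R := by
    rw [← hι _ hxy0, map_sub]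
    exact hPP _ hx₁ _ hy₁
  have hRpos : 0 < R := lt_of_lt_of_le (Real.exp_pos _) hxyR
  have hlogR : -(Q.ord v (x₁ - y₁) : ℝ) ≤ Real.log R := by
    have := Real.log_le_log (Real.exp_pos _) hxyR
    rwa [Real.log_exp] at this
  have ht : 0 < V + Real.log R := by linarith
  have hgι : ∀ x : K, g.eval (ι x) = ι (f.eval x) := by
    intro x
    rw [hg, eval_map, eval₂_at_apply]
  have hiter : ∀ n, ∀ x ∈ P, ∃ y ∈ P, (fun z => g.eval z)^[n] (ι x) = ι y := by
    intro n
    induction n with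
    | zero => intro x hx; exact ⟨x, hx, rfl⟩
    | succ n ih =>
      intro x hx
      obtain ⟨y, hy, h⟩ := ih x hx
      exact ⟨f.eval y, hst y hy, by rw [Function.iterate_succ_apply', h, hgι]⟩
  obtain ⟨w₀, hw₀⟩ : ∃ w₀ : Ω, 1 < ‖w₀‖ := by
    rcases lt_or_gt_of_ne hπ with h | h
    · refine ⟨ι π, ?_⟩
      rw [hι _ hπ0]
      apply Real.one_lt_exp_iff.mpr
      have : (Q.ord v π : ℝ) < 0 := by exact_mod_cast h
      linarith
    · refine ⟨ι π⁻¹, ?_⟩
      rw [map_inv₀, norm_inv, hι _ hπ0, one_lt_inv₀ (Real.exp_pos _)]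
      apply Real.exp_lt_one_iff.mpr
      have : (0 : ℝ) < Q.ord v π := by exact_mod_cast h
      linarith
  let S : Sys Ω :=
    { F := fun z => g.eval z
      d := d
      hd := hd
      V := V
      R := R
      hR := hRpos
      x₀ := ι a₀
      z₀ := ξ l₀
      hxz := rfl
      ht := ht
      back := by
        intro z hz
        by_contra hcon
        push Not at hcon
        set ρ := ‖z - ι a₀‖ with hρ
        have h1 : ∀ l, ‖z - ξ l‖ = ρ := by
          intro l
          have h2 : ‖ξ l - ι a₀‖ < ‖ι a₀ - z‖ := by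
            rw [nsc (ξ l), nsc (ι a₀) z]
            exact (hmax' a₀ hmem.1 l).trans_lt hcon
          rw [nsc, tri_lt h2, nsc]
        have h2 := hξ z
        simp_rw [h1] at h2
        rw [Finset.prod_const, Finset.card_univ, Fintype.card_fin] at h2
        have hρpos : 0 < ρ := hRpos.trans hcon
        have h3 : ρ < ‖g.eval z - z‖ := by
          rw [h2, ← Real.log_lt_log_iff hρpos (by positivity),
            Real.log_mul (Real.exp_pos _).ne' (by positivity), Real.log_exp, Real.log_pow]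
          have h4 : Real.log R < Real.log ρ := Real.log_lt_log hRpos hcon
          have h5 : 0 < ((d : ℝ) - 1) * (V + Real.log ρ) := mul_pos hd1 (by linarith)
          nlinarith
        have h4 : ‖ι a₀ - g.eval z‖ = ‖z - g.eval z‖ := by
          apply tri_lt
          rw [nsc, nsc z (g.eval z)]
          exact h3
        rw [nsc, h4, nsc] at hz
        linarith
      orbx := by
        intro n
        obtain ⟨y, hy, h⟩ := hiter n a₀ hmem.1
        rw [h]
        exact hPP y hy a₀ hmem.1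
      fixz := hfix l₀
      roots := by
        intro b
        obtain ⟨ζ, hζ⟩ := hfam (C b) (by
          rw [hgdeg]
          refine lt_of_le_of_lt degree_C_le ?_
          exact_mod_cast (by omega : 0 < d))
        simp only [eval_C] at hζ
        exact ⟨ζ, hζ⟩
      dense := fun a b => dense_of_algClosed w₀ hw₀ a b
      nat := by
        intro n hn
        have h1 : (n : Ω) = ι (algebraMap k K (n : k)) := by simp
        have h2 : (n : k) ≠ 0 := Nat.cast_ne_zero.mpr hn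
        rw [h1, hι _ ((_root_.map_ne_zero _).mpr h2), Q.ord_alg v _ h2]
        simp }
  have hnat : ∀ n : ℕ, n ≠ 0 → ‖(n : Ω)‖ = 1 := S.nat
  have hchar : ∀ n : ℕ, n ≠ 0 → (n : Ω) ≠ 0 := by
    intro n hn h
    have := hnat n hn
    rw [h, norm_zero] at this
    exact zero_ne_one this
  haveI : CharZero Ω := ⟨by
    intro a b hab
    rcases le_total a b with h | h
    · by_contra hne
      apply hchar (b - a) (by omega)
      rw [Nat.cast_sub h, hab, sub_self]
    · by_contra hne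
      apply hchar (a - b) (by omega)
      rw [Nat.cast_sub h, hab, sub_self]⟩
  have hder : g.derivative.natDegree = d - 1 := by
    rw [natDegree_derivative, hgd]
  have hderl : g.derivative.leadingCoeff ≠ 0 := by
    rw [leadingCoeff_ne_zero]
    intro h
    rw [h, natDegree_zero] at hder
    omega
  obtain ⟨c', hc'⟩ := exists_root_family g.derivative
  let c : Fin (d - 1) → Ω := c' ∘ finCongr hder.symm
  have hc : ∀ z, g.derivative.eval z = g.derivative.leadingCoeff * ∏ l, (z - c l) := by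
    intro z
    rw [hc' z]
    congr 1
    exact (Equiv.prod_comp (finCongr hder.symm) fun l => (z - c' l)).symm
  have hcrit : Sys.Crit S c := by
    intro b
    have h1 : (g - C b).natDegree = d := by
      rw [natDegree_sub_C, hgd]
    have h2 : (g - C b).leadingCoeff = g.leadingCoeff := by
      apply leadingCoeff_sub_of_degree_lt
      rw [hgdeg]
      refine lt_of_le_of_lt degree_C_le ?_
      exact_mod_cast (by omega : 0 < d)
    obtain ⟨ζ', hζ'⟩ := exists_root_family (g - C b)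
    let ζ : Fin d → Ω := ζ' ∘ finCongr h1.symm
    have hζ : ∀ z, g.eval z - b = g.leadingCoeff * ∏ l, (z - ζ l) := by
      intro z
      have h3 := hζ' z
      rw [eval_sub, eval_C, h2] at h3
      rw [h3]
      congr 1
      exact (Equiv.prod_comp (finCongr h1.symm) fun l => (z - ζ' l)).symm
    refine ⟨ζ, ⟨by simp, ?_⟩, ?_⟩
    · intro z
      rw [Function.iterate_one]
      show ‖g.eval z - b‖ = _
      rw [hζ z, norm_mul, hnl, norm_prod]
      unfold Sys.e
      rw [pow_one]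
    · intro x ρ l₁ l₂ hl h3 h4
      exact crit_poly hnat (fun T a b ha hab => Sys.dense' S T a b ha hab) g b g.leadingCoeff
        g.derivative.leadingCoeff (by
          rw [hgl]
          exact (_root_.map_ne_zero _).mpr hA0) ζ c hζ hc x ρ l₁ l₂ hl h3 h4
  exact ⟨Ω, i1, i3, ι, S, c, hcrit, hι, hgι, rfl, rfl, fun x hx => hPP x hx a₀ hmem.1, hlogR⟩



/-- The strong local theorem at a bad place. -/
theorem local_strong [CharZero k] (Q : PlaceData k K) (v : Q.Pl) (f : K[X]) (d : ℕ)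
    (hd : 2 ≤ d) (hf : f.natDegree = d) (P : Finset K) (hst : ∀ x ∈ P, f.eval x ∈ P)
    (V : ℝ) (hV : V = -(Q.ord v f.leadingCoeff) / ((d : ℝ) - 1))
    (hbad : ∃ x ∈ P, ∃ y ∈ P, x ≠ y ∧ (Q.ord v (x - y) : ℝ) < V) (Cn κ J : ℕ)
    (hJ : J = 2 * (1 + Cn * d ^ κ)) (hN : d ^ (12 * J) ≤ P.card) :
    ∃ t : ℝ, 1 / ((d : ℝ) - 1) ≤ t ∧
      (∀ x ∈ P, ∀ y ∈ P, x ≠ y → V - t ≤ Q.ord v (x - y)) ∧
      (-(2 * (P.card : ℝ) ^ 2 * t / (d : ℝ) ^ (6 * J)) ≤ exc Q v V P) ∧
      ((P.card : ℝ) ^ 2 * t / (2 * (J : ℝ) ^ 2 * (d : ℝ) ^ J) ≤ exc Q v V P ∨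
        ∃ (χ : K → Fin (d ^ J)) (B : Finset K), B ⊆ P ∧
          (B.card : ℝ) * κ ≤ 2 * ((P.card : ℝ) * (d : ℝ) ^ 2) ∧
          ∀ x ∈ P, x ∉ B → ∀ y ∈ P, y ∉ B → x ≠ y → χ x = χ y →
            V + Cn * t ≤ Q.ord v (x - y)) := by
  classical
  obtain ⟨x₁, hx₁, y₁, hy₁, hxy, hb⟩ := hbad
  obtain ⟨Ω, i1, i2, ι, S, c, hcrit, hι, hF, hSd, hSV, hPD, hR⟩ :=
    exists_sys2 Q v f d hd hf P hst x₁ y₁ hx₁ hy₁ hxy (by rw [← hV]; exact hb)
  rw [← hV] at hSV
  have hdR : (2 : ℝ) ≤ d := by exact_mod_cast hd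
  have hd1 : (0 : ℝ) < (d : ℝ) - 1 := by linarith
  have ht := S.t_pos
  set t := S.t with htdef
  have htR : Real.log S.R = t - V := by
    rw [htdef, ← hSV]
    unfold Sys.t
    ring
  -- the lower bound for `t`
  have ht1 : 1 / ((d : ℝ) - 1) ≤ t := by
    have h1 : V - Q.ord v (x₁ - y₁) ≤ t := by linarith
    refine le_trans ?_ h1
    have h2 : V - Q.ord v (x₁ - y₁) =
        ((-(Q.ord v f.leadingCoeff) - ((d : ℤ) - 1) * Q.ord v (x₁ - y₁) : ℤ) : ℝ) /
          ((d : ℝ) - 1) := by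
      rw [hV]
      push_cast
      field_simp
    rw [h2]
    apply div_le_div_of_nonneg_right _ hd1.le
    have h3 : (0 : ℝ) < V - Q.ord v (x₁ - y₁) := by linarith
    rw [h2] at h3
    have h4 := (div_pos_iff_of_pos_right hd1).mp h3
    have h5 : (0 : ℤ) < (-(Q.ord v f.leadingCoeff) - ((d : ℤ) - 1) * Q.ord v (x₁ - y₁) : ℤ) := by
      exact_mod_cast h4
    exact_mod_cast (by omega :
      (1 : ℤ) ≤ (-(Q.ord v f.leadingCoeff) - ((d : ℤ) - 1) * Q.ord v (x₁ - y₁) : ℤ))
  -- the family of points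
  have hιinj : Function.Injective ι := ι.injective
  let p : {x // x ∈ P} → Ω := fun x => ι x.1
  have hp : Function.Injective p := fun x y h => Subtype.ext (hιinj h)
  have hpD : ∀ i, S.D (p i) := fun i => hPD i.1 i.2
  have hpst : ∀ i, ∃ i', S.F (p i) = p i' := fun i =>
    ⟨⟨f.eval i.1, hst _ i.2⟩, hF i.1⟩
  haveI : Nonempty {x // x ∈ P} := ⟨⟨x₁, hx₁⟩⟩
  have hcard : Fintype.card {x // x ∈ P} = P.card := Fintype.card_coe P
  have horb : ∀ i n, S.D (S.F^[n] (p i)) := by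
    intro i n
    obtain ⟨i', hi'⟩ := Sys.orb_mem hpst n i
    rw [hi']
    exact hpD i'
  have hlog : ∀ x y : {x // x ∈ P}, x ≠ y → -Real.log ‖p x - p y‖ = Q.ord v (x.1 - y.1) := by
    intro x y hxy
    have h1 : p x - p y = ι (x.1 - y.1) := by simp only [p, map_sub]
    rw [h1, hι _ (sub_ne_zero.mpr fun h => hxy (Subtype.ext h)), Real.log_exp]
    ring
  set N : ℝ := (P.card : ℝ) with hNdef
  set k₀ := 6 * J with hk₀
  have hN1 : (d : ℝ) ^ (2 * k₀) ≤ N := by
    rw [hNdef, hk₀, show 2 * (6 * J) = 12 * J by ring]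
    exact_mod_cast hN
  have hd0 : (0 : ℝ) < d := by linarith
  have hNpos : 0 < N := lt_of_lt_of_le (by positivity) hN1
  -- the excess in terms of the pair energy
  have hexc : exc Q v V P = Sys.pairE p - (N ^ 2 - N) * V := by
    unfold exc Sys.pairE
    have h1 : ∀ x : K, ∑ y ∈ P, (if x = y then 0 else ((Q.ord v (x - y) : ℝ) - V)) =
        ∑ y : {x // x ∈ P}, (if x = y.1 then 0 else ((Q.ord v (x - y.1) : ℝ) - V)) := by
      intro x
      exact (Finset.sum_coe_sort P (fun y => if x = y then (0 : ℝ) else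
        ((Q.ord v (x - y) : ℝ) - V))).symm
    simp_rw [h1]
    rw [← Finset.sum_coe_sort P (fun x => ∑ y : {x // x ∈ P}, (if x = y.1 then (0 : ℝ) else
      ((Q.ord v (x - y.1) : ℝ) - V)))]
    have h2 : (N ^ 2 - N) * V = ∑ x : {x // x ∈ P}, ∑ y : {x // x ∈ P},
        (if x = y then (0 : ℝ) else V) := by
      have h3 : ∀ x : {x // x ∈ P}, ∑ y : {x // x ∈ P}, (if x = y then (0 : ℝ) else V) =
          (N - 1) * V := by
        intro x
        have h4 : ∑ y : {x // x ∈ P}, (if x = y then (0 : ℝ) else V) =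
            ∑ y : {x // x ∈ P}, (V - if x = y then V else 0) := by
          apply Finset.sum_congr rfl
          intro y _
          split_ifs <;> ring
        rw [h4, Finset.sum_sub_distrib, Finset.sum_const, Finset.card_univ, hcard,
          Finset.sum_ite_eq, if_pos (Finset.mem_univ _), nsmul_eq_mul]
        ring
      simp_rw [h3]
      rw [Finset.sum_const, Finset.card_univ, hcard, nsmul_eq_mul]
      ring
    rw [h2, ← Finset.sum_sub_distrib]
    apply Finset.sum_congr rfl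
    intro x _
    rw [← Finset.sum_sub_distrib]
    apply Finset.sum_congr rfl
    intro y _
    by_cases h : x = y
    · rw [if_pos h, if_pos h, if_pos (by rw [h]), sub_zero]
    · rw [if_neg h, if_neg h, if_neg (fun h' => h (Subtype.ext h')), hlog x y h]
  have hdS : (S.d : ℝ) = d := by rw [hSd]
  have hpowN : (d : ℝ) ^ k₀ * t * N ≤ N ^ 2 * t / (d : ℝ) ^ k₀ := by
    rw [le_div_iff₀ (by positivity)]
    calc (d : ℝ) ^ k₀ * t * N * (d : ℝ) ^ k₀ = (d : ℝ) ^ (2 * k₀) * (t * N) := by ring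
      _ ≤ N * (t * N) := mul_le_mul_of_nonneg_right hN1 (by positivity)
      _ = N ^ 2 * t := by ring
  have hbase : ∀ X : ℝ, V - t / (d : ℝ) ^ k₀ + X - (V + (d : ℝ) ^ k₀ * t) / N ≤
      Sys.pairE p / N ^ 2 → N ^ 2 * X - 2 * N ^ 2 * t / (d : ℝ) ^ k₀ ≤ exc Q v V P := by
    intro X hX
    rw [le_div_iff₀ (by positivity)] at hX
    have h1 : (V - t / (d : ℝ) ^ k₀ + X - (V + (d : ℝ) ^ k₀ * t) / N) * N ^ 2 =
        N ^ 2 * V - N ^ 2 * t / (d : ℝ) ^ k₀ + N ^ 2 * X - N * V - (d : ℝ) ^ k₀ * t * N := by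
      field_simp
      ring
    rw [h1] at hX
    rw [hexc]
    have h2 : 2 * N ^ 2 * t / (d : ℝ) ^ k₀ = N ^ 2 * t / (d : ℝ) ^ k₀ + N ^ 2 * t / (d : ℝ) ^ k₀ := by
      ring
    rw [h2]
    linarith
  have hJpos : 0 < J := by omega
  have hJR : (0 : ℝ) < J := by exact_mod_cast hJpos
  refine ⟨t, ht1, ?_, ?_, ?_⟩
  · intro x hx y hy hxy
    have h1 : ‖p ⟨x, hx⟩ - p ⟨y, hy⟩‖ ≤ S.R := Sys.D_sub (hpD _) (hpD _)
    have hne : (⟨x, hx⟩ : {x // x ∈ P}) ≠ ⟨y, hy⟩ := fun h => hxy (congrArg Subtype.val h)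
    have h2 : 0 < ‖p ⟨x, hx⟩ - p ⟨y, hy⟩‖ := norm_pos_iff.mpr (sub_ne_zero.mpr fun h => hne (hp h))
    have h3 := Real.log_le_log h2 h1
    have h4 := hlog _ _ hne
    simp only at h4
    linarith
  · have h1 := Sys.pairE_ge p hp hpD hpst k₀
    rw [hdS, hSV, ← htdef, hcard, ← hNdef] at h1
    have h2 := hbase 0 (by linarith)
    linarith
  · by_cases hno : Sys.NoConc S p J (1 / J)
    · right
      obtain ⟨χ, hχ⟩ := Sys.coloring p hpD hpst J
      set B' : Finset {x // x ∈ P} := Finset.univ.filter fun i => S.h J (p i) < S.V + Cn * S.t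
        with hB'
      have hfew := Sys.few_bad hcrit p horb Cn κ J (by rw [hSd]; exact hJ) hno B'
        (fun q hq => (Finset.mem_filter.mp hq).2)
      rw [hdS, hcard, ← hNdef] at hfew
      refine ⟨fun x => if h : x ∈ P then finCongr (by rw [hSd]) (χ ⟨x, h⟩) else
        ⟨0, by positivity⟩, B'.image Subtype.val, ?_, ?_, ?_⟩
      · intro x hx
        obtain ⟨i, _, rfl⟩ := Finset.mem_image.mp hx
        exact i.2
      · rw [Finset.card_image_of_injective _ Subtype.val_injective]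
        exact hfew
      · intro x hx hxB y hy hyB hxy hc
        simp only [hx, hy, dif_pos] at hc
        have hc' := (finCongr (by rw [hSd] : S.d ^ J = d ^ J)).injective hc
        have hne : (⟨x, hx⟩ : {x // x ∈ P}) ≠ ⟨y, hy⟩ := fun h => hxy (congrArg Subtype.val h)
        have h1 := hχ _ _ (fun h => hne (hp h)) hc'
        rw [hlog _ _ hne] at h1
        have hgood : ∀ z (hz : z ∈ P), z ∉ B'.image Subtype.val →
            V + Cn * t ≤ S.h J (p ⟨z, hz⟩) := by
          intro z hz hzB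
          by_contra hlt
          push Not at hlt
          apply hzB
          refine Finset.mem_image.mpr ⟨⟨z, hz⟩, Finset.mem_filter.mpr ⟨Finset.mem_univ _, ?_⟩, rfl⟩
          rw [hSV]
          exact hlt
        exact (le_min (hgood x hx hxB) (hgood y hy hyB)).trans h1
    · left
      unfold Sys.NoConc at hno
      push Not at hno
      obtain ⟨x₀, a, i, hai, A, hA, hAc⟩ := hno
      have hkk : (k₀ - i - a) + i + a = k₀ := by omega
      have h1 := Sys.test p hp hpD hpst (k₀ - i - a) i a (S.F^[a] (p x₀)) (by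
        intro n
        rw [← Function.iterate_add_apply]
        exact horb x₀ _) (by omega) (1 / J) (by positivity) A hA hAc.le
      rw [hkk, hdS, hSV, ← htdef, hcard, ← hNdef] at h1
      have h2 := hbase (t * (1 / (J : ℝ)) ^ 2 / (d : ℝ) ^ (i + a)) h1
      have h3 : t / ((J : ℝ) ^ 2 * (d : ℝ) ^ J) ≤ t * (1 / (J : ℝ)) ^ 2 / (d : ℝ) ^ (i + a) := by
        have h4 : t * (1 / (J : ℝ)) ^ 2 / (d : ℝ) ^ (i + a) =
            t / ((J : ℝ) ^ 2 * (d : ℝ) ^ (i + a)) := by
          field_simp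
        rw [h4]
        apply div_le_div_of_nonneg_left ht.le (by positivity)
        apply mul_le_mul_of_nonneg_left _ (by positivity)
        exact pow_le_pow_right₀ (by linarith) (by omega)
      have h5 := mul_le_mul_of_nonneg_left h3 (show (0 : ℝ) ≤ N ^ 2 by positivity)
      have h6 : 2 * N ^ 2 * t / (d : ℝ) ^ k₀ ≤ N ^ 2 * t / (2 * (J : ℝ) ^ 2 * (d : ℝ) ^ J) := by
        rw [div_le_div_iff₀ (by positivity) (by positivity)]
        have h7 : (J : ℝ) ≤ (d : ℝ) ^ J := by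
          have : J < 2 ^ J := Nat.lt_two_pow_self
          have h8 : 2 ^ J ≤ d ^ J := Nat.pow_le_pow_left hd J
          exact_mod_cast (by omega : J ≤ d ^ J)
        have h8 : (J : ℝ) ^ 2 ≤ ((d : ℝ) ^ J) ^ 2 := pow_le_pow_left₀ hJR.le h7 2
        have h9 : (4 : ℝ) ≤ (d : ℝ) ^ 2 := by nlinarith
        have h10 : (d : ℝ) ^ 2 * (((d : ℝ) ^ J) ^ 2 * (d : ℝ) ^ J) ≤ (d : ℝ) ^ k₀ := by
          rw [← pow_mul, ← pow_add, ← pow_add]
          apply pow_le_pow_right₀ (by linarith)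
          omega
        have h11 : 4 * ((J : ℝ) ^ 2 * (d : ℝ) ^ J) ≤
            (d : ℝ) ^ 2 * (((d : ℝ) ^ J) ^ 2 * (d : ℝ) ^ J) := by
          apply mul_le_mul h9 _ (by positivity) (by positivity)
          exact mul_le_mul_of_nonneg_right h8 (by positivity)
        calc 2 * N ^ 2 * t * (2 * (J : ℝ) ^ 2 * (d : ℝ) ^ J)
            = N ^ 2 * t * (4 * ((J : ℝ) ^ 2 * (d : ℝ) ^ J)) := by ring
          _ ≤ N ^ 2 * t * (d : ℝ) ^ k₀ :=
              mul_le_mul_of_nonneg_left (h11.trans h10) (by positivity)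
      have h7 : N ^ 2 * (t / ((J : ℝ) ^ 2 * (d : ℝ) ^ J)) =
          2 * (N ^ 2 * t / (2 * (J : ℝ) ^ 2 * (d : ℝ) ^ J)) := by
        field_simp
      rw [h7] at h5
      linarith

end Pool.Agent.W277.UG
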